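import Mathlib

set_option autoImplicit false

/-! Bounded rational ergodicity along a subsequence implies nonsquashability. -/

namespace Pool.Agent.H619Z.Nonsquash

open MeasureTheory Filter Set Topology
open scoped ENNReal

variable {X : Type*} [MeasurableSpace X]

lemma sigma_add (μ : Measure X) (φ : Set X → ℝ≥0∞) (K : ℝ≥0∞) (hK : K ≠ ∞)
    (hadd : ∀ E F, MeasurableSet E → MeasurableSet F → Disjoint E F → φ (E ∪ F) = φ E + φ F)
    (hle : ∀ E, MeasurableSet E → φ E ≤ K * μ E) (f : ℕ → Set X) (hf : ∀ i, MeasurableSet (f i))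
    (hd : Pairwise (Function.onFun Disjoint f)) (hfin : μ (⋃ i, f i) ≠ ∞) :
    φ (⋃ i, f i) = ∑' i, φ (f i) := by
  have h1 : ∀ N, φ (⋃ i, f i) = ∑ i ∈ Finset.range N, φ (f i) + φ (⋃ i, f (i + N)) := by
    intro N
    induction N with
    | zero => simp
    | succ N ih =>
      rw [ih, Finset.sum_range_succ, add_assoc, ← hadd _ _ (hf N)
        (MeasurableSet.iUnion fun i => hf _)]
      · congr 2
        rw [← union_iUnion_nat_succ (fun i => f (i + N))]
        simp only [zero_add]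
        congr 1
        refine iUnion_congr fun i => ?_
        congr 1
        omega
      · rw [disjoint_iUnion_right]
        intro i
        exact hd (by omega)
  have h2 : Tendsto (fun N => μ (⋃ i, f (i + N))) atTop (𝓝 0) := by
    rw [measure_iUnion hd hf] at hfin
    refine (ENNReal.tendsto_sum_nat_add _ hfin).congr fun N => ?_
    exact (measure_iUnion (f := fun i => f (i + N)) (fun i j hij => hd (by omega))
      (fun i => hf _)).symm
  have h3 : Tendsto (fun N => φ (⋃ i, f (i + N))) atTop (𝓝 0) := by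
    have := ENNReal.Tendsto.const_mul (a := K) h2 (Or.inr hK)
    rw [mul_zero] at this
    exact tendsto_of_tendsto_of_tendsto_of_le_of_le tendsto_const_nhds this
      (fun _ => zero_le) (fun N => hle _ (MeasurableSet.iUnion fun i => hf _))
  have h4 := (ENNReal.tendsto_nat_tsum (fun i => φ (f i))).add h3
  rw [add_zero] at h4
  exact tendsto_nhds_unique (tendsto_const_nhds.congr h1) h4

lemma exists_measure (μ : Measure X) [SigmaFinite μ] (φ : Set X → ℝ≥0∞) (K : ℝ≥0∞) (hK : K ≠ ∞)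
    (hadd : ∀ E F, MeasurableSet E → MeasurableSet F → Disjoint E F → φ (E ∪ F) = φ E + φ F)
    (hle : ∀ E, MeasurableSet E → φ E ≤ K * μ E) :
    ∃ n : Measure X, n ≤ K • μ ∧ ∀ E, MeasurableSet E → μ E ≠ ∞ → n E = φ E := by
  let D : ℕ → Set X := disjointed (spanningSets μ)
  have hD : ∀ m, MeasurableSet (D m) := MeasurableSet.disjointed (measurableSet_spanningSets μ)
  have hDf : ∀ m, μ (D m) ≠ ∞ := fun m =>
    ((measure_mono (disjointed_subset _ m)).trans_lt (measure_spanningSets_lt_top μ m)).ne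
  have hDd : Pairwise (Function.onFun Disjoint D) := disjoint_disjointed _
  have hDu : ⋃ m, D m = univ := by rw [iUnion_disjointed, iUnion_spanningSets]
  have h0 : φ ∅ = 0 := by simpa using hle ∅ MeasurableSet.empty
  let ν : ℕ → Measure X := fun m => Measure.ofMeasurable (fun E _ => φ (E ∩ D m)) (by simp [h0])
    (by
      intro f hf hd
      rw [iUnion_inter]
      refine sigma_add μ φ K hK hadd hle _ (fun i => (hf i).inter (hD m))
        (fun i j hij => (hd hij).mono inter_subset_left inter_subset_left) ?_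
      rw [← iUnion_inter]
      exact ne_top_of_le_ne_top (hDf m) (measure_mono inter_subset_right))
  have hν : ∀ E, MeasurableSet E → Measure.sum ν E = ∑' m, φ (E ∩ D m) := by
    intro E hE
    rw [Measure.sum_apply _ hE]
    refine tsum_congr fun m => ?_
    exact Measure.ofMeasurable_apply E hE
  have hE' : ∀ E : Set X, ⋃ m, E ∩ D m = E := fun E => by rw [← inter_iUnion, hDu, inter_univ]
  have hd' : ∀ E : Set X, Pairwise (Function.onFun Disjoint fun m => E ∩ D m) :=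
    fun E i j hij => (hDd hij).mono inter_subset_right inter_subset_right
  refine ⟨Measure.sum ν, Measure.le_iff.2 fun E hE => ?_, fun E hE hfin => ?_⟩
  · rw [hν E hE, Measure.smul_apply, smul_eq_mul]
    conv_rhs => rw [← hE' E, measure_iUnion (hd' E) (fun m => hE.inter (hD m))]
    rw [← ENNReal.tsum_mul_left]
    exact ENNReal.tsum_le_tsum fun m => hle _ (hE.inter (hD m))
  · rw [hν E hE, ← sigma_add μ φ K hK hadd hle _ (fun m => hE.inter (hD m)) (hd' E)
      (by rwa [hE']), hE']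

lemma eq_smul (μ : Measure X) [SigmaFinite μ] (u : ℝ → X → X) (hm : ∀ t, Measurable (u t))
    (hadd : ∀ s t x, u (s + t) x = u s (u t x)) (h0 : ∀ x, u 0 x = x)
    (hinv : ∀ t, MeasurePreserving (u t) μ μ)
    (herg : ∀ E, MeasurableSet E → (∀ t, u t ⁻¹' E =ᵐ[μ] E) → μ E = 0 ∨ μ Eᶜ = 0)
    (n : Measure X) [SigmaFinite n] (hn : n ≪ μ) (hni : ∀ t, n.map (u t) = n) :
    ∃ k : ℝ≥0∞, n = k • μ := by
  have h1 : ∀ t, (fun x => n.rnDeriv μ (u t x)) =ᵐ[μ] n.rnDeriv μ := by
    intro t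
    let e : X ≃ᵐ X :=
      { toFun := u t
        invFun := u (-t)
        left_inv := fun x => by rw [← hadd, neg_add_cancel, h0]
        right_inv := fun x => by rw [← hadd, add_neg_cancel, h0]
        measurable_toFun := hm t
        measurable_invFun := hm (-t) }
    have := e.measurableEmbedding.rnDeriv_map n μ
    have e1 : (e : X → X) = u t := rfl
    rwa [e1, hni t, (hinv t).map_eq] at this
  obtain ⟨k, hk⟩ := Filter.exists_eventuallyEq_const_of_forall_separating (l := ae μ)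
    (f := n.rnDeriv μ) MeasurableSet (fun U hU => by
      rcases herg (n.rnDeriv μ ⁻¹' U) (Measure.measurable_rnDeriv n μ hU) (fun t => by
        filter_upwards [h1 t] with x hx
        change (n.rnDeriv μ (u t x) ∈ U) = (n.rnDeriv μ x ∈ U)
        rw [hx]) with h | h
      · exact Or.inr (measure_eq_zero_iff_ae_notMem.1 h)
      · exact Or.inl h)
  refine ⟨k, ?_⟩
  rw [← Measure.withDensity_rnDeriv_eq n μ hn, withDensity_congr_ae hk]
  exact withDensity_const k

noncomputable def II (μ : Measure X) (u : ℝ → X → X) (T : ℝ) (C E : Set X) : ℝ≥0∞ :=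
  ∫⁻ t in Icc (-T) T, μ (C ∩ u t ⁻¹' E)

section

variable {μ : Measure X} [SigmaFinite μ] {u : ℝ → X → X}

lemma meas_g (hu : Measurable (fun p : ℝ × X => u p.1 p.2)) {C E : Set X} (hC : MeasurableSet C)
    (hE : MeasurableSet E) : Measurable (fun t => μ (C ∩ u t ⁻¹' E)) :=
  measurable_measure_prodMk_left (s := {p : ℝ × X | p.2 ∈ C ∧ u p.1 p.2 ∈ E})
    ((measurable_snd hC).inter (hu hE))

lemma II_add (hu : Measurable (fun p : ℝ × X => u p.1 p.2)) (T : ℝ) {C E F : Set X}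
    (hC : MeasurableSet C) (hE : MeasurableSet E) (hF : MeasurableSet F) (hd : Disjoint E F) :
    II μ u T C (E ∪ F) = II μ u T C E + II μ u T C F := by
  unfold II
  rw [← lintegral_add_left (meas_g hu hC hE)]
  refine lintegral_congr fun t => ?_
  rw [preimage_union, inter_union_distrib_left]
  exact measure_union ((hd.preimage _).mono inter_subset_right inter_subset_right)
    (hC.inter ((hu.comp measurable_prodMk_left) hF))

omit [SigmaFinite μ] in
lemma II_mono (T : ℝ) {C C' E E' : Set X} (hC : C ⊆ C') (hE : E ⊆ E') :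
    II μ u T C E ≤ II μ u T C' E' :=
  lintegral_mono fun _ => measure_mono (inter_subset_inter hC (preimage_mono hE))

lemma II_symm (hu : Measurable (fun p : ℝ × X => u p.1 p.2))
    (hadd : ∀ s t x, u (s + t) x = u s (u t x)) (h0 : ∀ x, u 0 x = x)
    (hinv : ∀ t, MeasurePreserving (u t) μ μ) (T : ℝ) {C E : Set X}
    (hC : MeasurableSet C) (hE : MeasurableSet E) : II μ u T C E = II μ u T E C := by
  unfold II
  have h1 := (Measure.measurePreserving_neg (volume : Measure ℝ)).setLIntegral_comp_preimage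
    (s := Icc (-T) T) measurableSet_Icc (meas_g (μ := μ) hu hE hC)
  have h2 : (Neg.neg : ℝ → ℝ) ⁻¹' Icc (-T) T = Icc (-T) T := by
    ext t
    simp only [mem_preimage, mem_Icc]
    constructor <;> rintro ⟨a, b⟩ <;> constructor <;> linarith
  rw [h2] at h1
  rw [← h1]
  refine lintegral_congr fun t => ?_
  rw [← (hinv (-t)).measure_preimage (hC.inter ((hinv t).measurable hE)).nullMeasurableSet]
  congr 1
  ext x
  simp only [mem_preimage, mem_inter_iff]
  rw [← hadd, add_neg_cancel, h0, and_comm]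

lemma II_bound (hu : Measurable (fun p : ℝ × X => u p.1 p.2))
    (hadd : ∀ s t x, u (s + t) x = u s (u t x)) (T : ℝ) {C E : Set X}
    (hC : MeasurableSet C) (hE : MeasurableSet E) {M : ℝ≥0∞}
    (hM : ∀ x, volume {t | t ∈ Icc 0 T ∧ u t x ∈ C} ≤ M) : II μ u T E C ≤ 2 * M * μ E := by
  have hs : MeasurableSet {p : ℝ × X | p.2 ∈ E ∧ u p.1 p.2 ∈ C} :=
    (measurable_snd hE).inter (hu hC)
  have h1 := Measure.prod_apply (μ := volume.restrict (Icc (-T) T)) (ν := μ) hs
  have h2 := Measure.prod_apply_symm (μ := volume.restrict (Icc (-T) T)) (ν := μ) hs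
  have h3 : II μ u T E C = ∫⁻ x, (volume.restrict (Icc (-T) T))
      ((fun t => (t, x)) ⁻¹' {p : ℝ × X | p.2 ∈ E ∧ u p.1 p.2 ∈ C}) ∂μ := by
    rw [← h2, h1]; rfl
  rw [h3, ← lintegral_indicator_const hE]
  refine lintegral_mono fun x => ?_
  by_cases hx : x ∈ E
  · rw [indicator_of_mem hx, Measure.restrict_apply' measurableSet_Icc, two_mul]
    have h4 := hM (u (-T) x)
    rw [← measure_preimage_add_right volume T] at h4
    refine le_trans (measure_mono ?_) ((measure_union_le _ _).trans (add_le_add (hM x) h4))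
    rintro t ⟨⟨-, k1⟩, k2, k3⟩
    by_cases ht : 0 ≤ t
    · exact Or.inl ⟨⟨ht, k3⟩, k1⟩
    · refine Or.inr ⟨⟨by linarith, by linarith⟩, ?_⟩
      rw [← hadd, add_neg_cancel_right]
      exact k1
  · rw [indicator_of_notMem hx]
    have : (fun t => (t, x)) ⁻¹' {p : ℝ × X | p.2 ∈ E ∧ u p.1 p.2 ∈ C} = ∅ := by
      ext t; simp [hx]
    rw [this, measure_empty]

lemma II_shift (hu : Measurable (fun p : ℝ × X => u p.1 p.2))
    (hadd : ∀ s t x, u (s + t) x = u s (u t x)) (T s : ℝ) {C E : Set X}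
    (hC : MeasurableSet C) (hE : MeasurableSet E) :
    II μ u T C (u s ⁻¹' E) ≤ II μ u T C E + 2 * (μ C * ENNReal.ofReal |s|) := by
  unfold II
  have h1 := (measurePreserving_add_left (volume : Measure ℝ) s).setLIntegral_comp_preimage
    (s := Icc (-T + s) (T + s)) measurableSet_Icc (meas_g (μ := μ) hu hC hE)
  have h2 : (fun t : ℝ => s + t) ⁻¹' Icc (-T + s) (T + s) = Icc (-T) T := by
    ext t
    simp only [mem_preimage, mem_Icc]
    constructor <;> rintro ⟨a, b⟩ <;> constructor <;> linarith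
  rw [h2] at h1
  have h3 : ∫⁻ t in Icc (-T) T, μ (C ∩ u t ⁻¹' (u s ⁻¹' E)) =
      ∫⁻ t in Icc (-T) T, μ (C ∩ u (s + t) ⁻¹' E) := by
    refine lintegral_congr fun t => ?_
    congr 2
    ext x
    simp only [mem_preimage, hadd]
  rw [h3, h1]
  have h4 : Icc (-T + s) (T + s) ⊆ Icc (-T) T ∪ (Icc T (T + |s|) ∪ Icc (-T - |s|) (-T)) := by
    rintro t ⟨k1, k2⟩
    have := le_abs_self s
    have := neg_abs_le s
    by_cases a1 : T < t
    · exact Or.inr (Or.inl ⟨a1.le, by linarith⟩)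
    · by_cases a2 : t < -T
      · exact Or.inr (Or.inr ⟨by linarith, a2.le⟩)
      · exact Or.inl ⟨by linarith, by linarith⟩
  have h5 : ∀ a b : ℝ, b - a = |s| →
      ∫⁻ t in Icc a b, μ (C ∩ u t ⁻¹' E) ≤ μ C * ENNReal.ofReal |s| := by
    intro a b hab
    refine (lintegral_mono (g := fun _ => μ C) fun t => measure_mono inter_subset_left).trans ?_
    rw [setLIntegral_const, Real.volume_Icc, hab]
  refine (lintegral_mono_set h4).trans ((lintegral_union_le _ _ _).trans (add_le_add le_rfl ?_))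
  rw [two_mul]
  exact (lintegral_union_le _ _ _).trans
    (add_le_add (h5 _ _ (by ring)) (h5 _ _ (by ring)))

end

theorem scale_le_one (μ : Measure X) [SigmaFinite μ]
    (u : ℝ → X → X) (hu : Measurable (fun p : ℝ × X => u p.1 p.2))
    (hadd : ∀ s t x, u (s + t) x = u s (u t x)) (h0 : ∀ x, u 0 x = x)
    (hinv : ∀ t, MeasurePreserving (u t) μ μ)
    (herg : ∀ E, MeasurableSet E → (∀ t, u t ⁻¹' E =ᵐ[μ] E) → μ E = 0 ∨ μ Eᶜ = 0)
    (B : ℕ → Set X) (hB : ∀ n, MeasurableSet (B n)) (hBm : Monotone B) (hBf : ∀ n, μ (B n) ≠ ∞)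
    (hBc : ⋃ n, B n = univ)
    (T : ℕ → ℝ) (a : ℕ → ℝ≥0∞) (ha : Tendsto a atTop (𝓝 ∞)) (haf : ∀ j, a j ≠ ∞)
    (hup : ∀ n, ∃ K : ℝ≥0∞, K ≠ ∞ ∧ ∀ j x, volume {t | t ∈ Icc 0 (T j) ∧ u t x ∈ B n} ≤ K * a j)
    (δ : ℝ≥0∞) (hδ : δ ≠ 0)
    (hlow : ∀ j, δ * a j ≤ ∫⁻ t in Icc (-T j) (T j), μ (B 0 ∩ u t ⁻¹' B 0)) :
    μ (B 0) ≠ 0 ∧ ∀ (S : X → X), Measurable S → (∀ t, ∀ᵐ x ∂μ, S (u t x) = u t (S x)) →
      ∀ c : ℝ≥0∞, c ≠ ∞ → c ≠ 0 → μ.map S = c • μ → c ≤ 1 := by
  have hm : ∀ t, Measurable (u t) := fun t => (hinv t).measurable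
  let U : Filter ℕ := hyperfilter ℕ
  have hU : U ≤ atTop := by rw [← Nat.cofinite_eq_atTop]; exact hyperfilter_le_cofinite
  have hlim : ∀ v : ℕ → ℝ≥0∞, ∃ L, Tendsto v U (𝓝 L) := by
    intro v
    obtain ⟨L, -, hL⟩ := isCompact_univ.ultrafilter_le_nhds ((hyperfilter ℕ).map v) (by simp)
    exact ⟨L, hL⟩
  choose L hL using hlim
  let b : Set X → Set X → ℝ≥0∞ := fun C E => L fun j => II μ u (T j) C E / a j
  have hb : ∀ C E, Tendsto (fun j => II μ u (T j) C E / a j) U (𝓝 (b C E)) := fun C E => hL _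
  have bsymm : ∀ C E, MeasurableSet C → MeasurableSet E → b C E = b E C := by
    intro C E hC hE
    simp only [b, fun j => II_symm hu hadd h0 hinv (T j) hC hE]
  have bmono : ∀ C C' E E', C ⊆ C' → E ⊆ E' → b C E ≤ b C' E' := fun C C' E E' h1 h2 =>
    le_of_tendsto_of_tendsto' (hb _ _) (hb _ _) fun j =>
      ENNReal.div_le_div_right (II_mono _ h1 h2) _
  have badd : ∀ C E F, MeasurableSet C → MeasurableSet E → MeasurableSet F → Disjoint E F →
      b C (E ∪ F) = b C E + b C F := by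
    intro C E F hC hE hF hd
    refine tendsto_nhds_unique (hb _ _) (((hb C E).add (hb C F)).congr fun j => ?_)
    rw [II_add hu _ hC hE hF hd, ENNReal.add_div]
  have bshift : ∀ C E s, MeasurableSet C → MeasurableSet E → μ C ≠ ∞ →
      b C (u s ⁻¹' E) ≤ b C E := by
    intro C E s hC hE hf
    have h1 : Tendsto (fun j => 2 * (μ C * ENNReal.ofReal |s|) / a j) U (𝓝 0) := by
      have h2 : Tendsto (fun j => (a j)⁻¹) U (𝓝 0) := by
        have := (ha.mono_left hU).inv
        rwa [ENNReal.inv_top] at this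
      have := ENNReal.Tendsto.const_mul (a := 2 * (μ C * ENNReal.ofReal |s|)) h2
        (Or.inr (ENNReal.mul_ne_top (by simp) (ENNReal.mul_ne_top hf ENNReal.ofReal_ne_top)))
      rwa [mul_zero] at this
    have h3 := (hb C E).add h1
    rw [add_zero] at h3
    refine le_of_tendsto_of_tendsto' (hb _ _) h3 fun j => ?_
    rw [← ENNReal.add_div]
    exact ENNReal.div_le_div_right (II_shift hu hadd _ s hC hE) _
  have binv : ∀ C E s, MeasurableSet C → MeasurableSet E → μ C ≠ ∞ →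
      b C (u s ⁻¹' E) = b C E := by
    intro C E s hC hE hf
    refine le_antisymm (bshift C E s hC hE hf) ?_
    have := bshift C (u s ⁻¹' E) (-s) hC (hm s hE) hf
    have e : u (-s) ⁻¹' (u s ⁻¹' E) = E := by
      ext x
      simp only [mem_preimage]
      rw [← hadd, add_neg_cancel, h0]
    rwa [e] at this
  have bbound : ∀ n, ∃ K : ℝ≥0∞, K ≠ ∞ ∧ ∀ C, MeasurableSet C → C ⊆ B n → ∀ E, MeasurableSet E →
      b C E ≤ K * μ E := by
    intro n
    obtain ⟨K, hK, h⟩ := hup n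
    refine ⟨2 * K, ENNReal.mul_ne_top (by simp) hK, fun C hC hCB E hE => ?_⟩
    rw [bsymm C E hC hE]
    refine (bmono _ _ _ _ Subset.rfl hCB).trans
      (le_of_tendsto' (hb E (B n)) fun j => ENNReal.div_le_of_le_mul ?_)
    refine (II_bound hu hadd _ (hB n) hE (h j)).trans (le_of_eq ?_)
    ring
  have bk : ∀ n C, MeasurableSet C → C ⊆ B n →
      ∃ k : ℝ≥0∞, ∀ E, MeasurableSet E → μ E ≠ ∞ → b C E = k * μ E := by
    intro n C hC hCB
    obtain ⟨K, hK, h⟩ := bbound n
    obtain ⟨ν, h1, h2⟩ := exists_measure μ (b C) K hK (fun E F => badd C E F hC) (h C hC hCB)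
    have hCf : μ C ≠ ∞ := ne_top_of_le_ne_top (hBf n) (measure_mono hCB)
    haveI : SigmaFinite (K • μ) := by
      lift K to NNReal using hK
      exact inferInstanceAs (SigmaFinite (K • μ))
    haveI : SigmaFinite ν := Measure.sigmaFinite_of_le _ h1
    obtain ⟨k, hk⟩ := eq_smul μ u hm hadd h0 hinv herg ν
      ((Measure.absolutelyContinuous_of_le h1).trans Measure.smul_absolutelyContinuous) (by
        intro t
        rw [Measure.ext_iff_of_iUnion_eq_univ hBc]
        intro m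
        ext E hE
        have hf : μ (E ∩ B m) ≠ ∞ := ne_top_of_le_ne_top (hBf m) (measure_mono inter_subset_right)
        rw [Measure.restrict_apply hE, Measure.restrict_apply hE,
          Measure.map_apply (hm t) (hE.inter (hB m)), h2 _ (hE.inter (hB m)) hf,
          h2 _ (hm t (hE.inter (hB m))) (by
            rwa [(hinv t).measure_preimage (hE.inter (hB m)).nullMeasurableSet]),
          binv C _ t hC (hE.inter (hB m)) hCf])
    exact ⟨k, fun E hE hf => by rw [← h2 E hE hf, hk, Measure.smul_apply, smul_eq_mul]⟩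
  obtain ⟨k0, hk0⟩ := bk 0 (B 0) (hB 0) Subset.rfl
  have hlow' : δ ≤ b (B 0) (B 0) := by
    refine ge_of_tendsto (hb _ _) ?_
    filter_upwards [(ha.mono_left hU).eventually (lt_mem_nhds ENNReal.zero_lt_top)] with j hj
    rw [ENNReal.le_div_iff_mul_le (Or.inl hj.ne') (Or.inl (haf j))]
    exact hlow j
  have hne : k0 * μ (B 0) ≠ 0 := by
    rw [← hk0 _ (hB 0) (hBf 0)]
    exact fun h => hδ (le_antisymm (h ▸ hlow') zero_le)
  have hm0 : μ (B 0) ≠ 0 := right_ne_zero_of_mul hne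
  have hk00 : k0 ≠ 0 := left_ne_zero_of_mul hne
  have hk0f : k0 ≠ ∞ := by
    obtain ⟨K, hK, h⟩ := bbound 0
    have := h _ (hB 0) Subset.rfl _ (hB 0)
    rw [hk0 _ (hB 0) (hBf 0)] at this
    exact ne_top_of_le_ne_top hK ((ENNReal.mul_le_mul_iff_left hm0 (hBf 0)).1 this)
  refine ⟨hm0, fun S hS hc c hcf hc0 hmap => ?_⟩
  have hpre : ∀ E, MeasurableSet E → μ (S ⁻¹' E) = c * μ E := by
    intro E hE
    rw [← Measure.map_apply hS hE, hmap, Measure.smul_apply, smul_eq_mul]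
  have h1 : b (S ⁻¹' B 0) (S ⁻¹' B 0) = c * b (B 0) (B 0) := by
    refine tendsto_nhds_unique (hb _ _)
      ((ENNReal.Tendsto.const_mul (hb (B 0) (B 0)) (Or.inr hcf)).congr fun j => ?_)
    rw [← mul_div_assoc]
    congr 1
    unfold II
    rw [← lintegral_const_mul _ (meas_g hu (hB 0) (hB 0))]
    refine lintegral_congr fun t => ?_
    rw [← hpre _ ((hB 0).inter (hm t (hB 0)))]
    apply measure_congr
    filter_upwards [hc t] with x hx
    change (S x ∈ B 0 ∧ u t (S x) ∈ B 0) = (S x ∈ B 0 ∧ S (u t x) ∈ B 0)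
    rw [hx]
  have h2 : ∀ m, k0 * (μ (S ⁻¹' B 0 ∩ B m) * μ (S ⁻¹' B 0 ∩ B m)) ≤
      c * (k0 * μ (B 0)) * μ (B 0) := by
    intro m
    have hC : MeasurableSet (S ⁻¹' B 0 ∩ B m) := (hS (hB 0)).inter (hB m)
    have hCf : μ (S ⁻¹' B 0 ∩ B m) ≠ ∞ :=
      ne_top_of_le_ne_top (hBf m) (measure_mono inter_subset_right)
    obtain ⟨k, hk⟩ := bk m _ hC inter_subset_right
    have e1 : k * μ (B 0) = k0 * μ (S ⁻¹' B 0 ∩ B m) := by
      rw [← hk _ (hB 0) (hBf 0), ← hk0 _ hC hCf, bsymm _ _ hC (hB 0)]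
    have e2 := bmono _ _ _ _ (inter_subset_left (s := S ⁻¹' B 0) (t := B m))
      (inter_subset_left (s := S ⁻¹' B 0) (t := B m))
    rw [h1, hk _ hC hCf, hk0 _ (hB 0) (hBf 0)] at e2
    calc k0 * (μ (S ⁻¹' B 0 ∩ B m) * μ (S ⁻¹' B 0 ∩ B m))
        = k * μ (S ⁻¹' B 0 ∩ B m) * μ (B 0) := by rw [← mul_assoc, ← e1]; ring
      _ ≤ _ := by gcongr
  have h3 : Tendsto (fun m => μ (S ⁻¹' B 0 ∩ B m)) atTop (𝓝 (c * μ (B 0))) := by
    have := tendsto_measure_iUnion_atTop (μ := μ) (s := fun m => S ⁻¹' B 0 ∩ B m)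
      (fun i j hij => inter_subset_inter_right _ (hBm hij))
    rwa [← inter_iUnion, hBc, inter_univ, hpre _ (hB 0)] at this
  have hcm : c * μ (B 0) ≠ ∞ := ENNReal.mul_ne_top hcf (hBf 0)
  have h4 := le_of_tendsto' (ENNReal.Tendsto.const_mul (a := k0)
    (ENNReal.Tendsto.mul h3 (Or.inr hcm) h3 (Or.inr hcm)) (Or.inr hk0f)) h2
  have h5 : c * (c * (k0 * μ (B 0)) * μ (B 0)) ≤ 1 * (c * (k0 * μ (B 0)) * μ (B 0)) := by
    rw [one_mul]
    refine le_trans (le_of_eq ?_) h4
    ring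
  exact (ENNReal.mul_le_mul_iff_left (mul_ne_zero (mul_ne_zero hc0 hne) hm0)
    (ENNReal.mul_ne_top (ENNReal.mul_ne_top hcf (ENNReal.mul_ne_top hk0f (hBf 0))) (hBf 0))).1 h5

theorem nonsquash {X : Type*} [MeasurableSpace X] (μ : Measure X) [SigmaFinite μ]
    (u : ℝ → X → X) (hu : Measurable (fun p : ℝ × X => u p.1 p.2))
    (hadd : ∀ s t x, u (s + t) x = u s (u t x)) (h0 : ∀ x, u 0 x = x)
    (hinv : ∀ t, MeasurePreserving (u t) μ μ)
    (herg : ∀ E, MeasurableSet E → (∀ t, u t ⁻¹' E =ᵐ[μ] E) → μ E = 0 ∨ μ Eᶜ = 0)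
    (B : ℕ → Set X) (hB : ∀ n, MeasurableSet (B n)) (hBm : Monotone B) (hBf : ∀ n, μ (B n) ≠ ∞)
    (hBc : ⋃ n, B n = univ)
    (T : ℕ → ℝ) (a : ℕ → ℝ≥0∞) (ha : Tendsto a atTop (𝓝 ∞)) (haf : ∀ j, a j ≠ ∞)
    (hup : ∀ n, ∃ K : ℝ≥0∞, K ≠ ∞ ∧ ∀ j x, volume {t | t ∈ Icc 0 (T j) ∧ u t x ∈ B n} ≤ K * a j)
    (δ : ℝ≥0∞) (hδ : δ ≠ 0)
    (hlow : ∀ j, δ * a j ≤ ∫⁻ t in Icc (-T j) (T j), μ (B 0 ∩ u t ⁻¹' B 0))
    (S : X ≃ᵐ X) (hS : Measure.QuasiMeasurePreserving S μ μ)
    (hS' : Measure.QuasiMeasurePreserving S.symm μ μ)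
    (hc : ∀ t, ∀ᵐ x ∂μ, S (u t x) = u t (S x)) : μ.map S = μ := by
  have hm : ∀ t, Measurable (u t) := fun t => (hinv t).measurable
  obtain ⟨hm0, hle⟩ := scale_le_one μ u hu hadd h0 hinv herg B hB hBm hBf hBc T a ha haf hup δ hδ
    hlow
  have hc' : ∀ t, ∀ᵐ x ∂μ, S.symm (u t x) = u t (S.symm x) := by
    intro t
    filter_upwards [hS'.ae (hc t)] with x hx
    rw [MeasurableEquiv.apply_symm_apply] at hx
    rw [← hx, MeasurableEquiv.symm_apply_apply]
  have key : ∀ R : X ≃ᵐ X, Measure.QuasiMeasurePreserving R μ μ →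
      (∀ t, ∀ᵐ x ∂μ, R (u t x) = u t (R x)) → ∃ c : ℝ≥0∞, μ.map R = c • μ := by
    intro R hR hRc
    haveI : SigmaFinite (μ.map R) := R.sigmaFinite_map
    refine eq_smul μ u hm hadd h0 hinv herg _ hR.absolutelyContinuous fun t => ?_
    rw [Measure.map_map (hm t) R.measurable]
    have : u t ∘ R =ᵐ[μ] R ∘ u t := by
      filter_upwards [hRc t] with x hx
      exact hx.symm
    rw [Measure.map_congr this, ← Measure.map_map R.measurable (hm t), (hinv t).map_eq]
  obtain ⟨c, h1⟩ := key S hS hc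
  obtain ⟨c', h2⟩ := key S.symm hS' hc'
  have h3 : c * c' = 1 := by
    have e : (μ.map S).map S.symm = μ := S.map_symm_map
    rw [h1, Measure.map_smul, h2, smul_smul] at e
    have e2 := congrArg (fun ν : Measure X => ν (B 0)) e
    simp only [Measure.smul_apply, smul_eq_mul] at e2
    exact (ENNReal.mul_left_inj hm0 (hBf 0)).1 (by rw [e2, one_mul])
  have c0 : c ≠ 0 := left_ne_zero_of_mul (by rw [h3]; exact one_ne_zero)
  have c0' : c' ≠ 0 := right_ne_zero_of_mul (by rw [h3]; exact one_ne_zero)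
  have cf : c ≠ ∞ := by
    rintro rfl
    rw [ENNReal.top_mul c0'] at h3
    exact ENNReal.top_ne_one h3
  have cf' : c' ≠ ∞ := by
    rintro rfl
    rw [ENNReal.mul_top c0] at h3
    exact ENNReal.top_ne_one h3
  have l1 := hle S S.measurable hc c cf c0 h1
  have l2 := hle S.symm S.symm.measurable hc' c' cf' c0' h2
  have l3 : c = 1 := by
    refine le_antisymm l1 ?_
    calc 1 = c * c' := h3.symm
      _ ≤ c * 1 := by gcongr
      _ = c := mul_one c
  rw [h1, l3, one_smul]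

end Pool.Agent.H619Z.Nonsquash
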