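import Mathlib

set_option autoImplicit false

namespace Pool.Agent.H619Z.NormAdd

variable {A : Type} [NonUnitalCStarAlgebra A] [PartialOrder A] [StarOrderedRing A]

/-- real functionals that are positive and contractive on the positive cone. -/
def QS (ψ : A →L[ℝ] ℝ) : Prop := ∀ v : A, 0 ≤ v → 0 ≤ ψ v ∧ ψ v ≤ ‖v‖

theorem norm_le_add {x c : A} (hx : 0 ≤ x) (hc : 0 ≤ c) : ‖x‖ ≤ ‖x + c‖ :=
  CStarAlgebra.norm_le_norm_of_nonneg_of_le hx (le_add_of_nonneg_right hc)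

theorem smul_nn {t : ℝ} {x : A} (ht : 0 ≤ t) (hx : 0 ≤ x) : 0 ≤ t • x := smul_nonneg ht hx

theorem exists_QS (z : A) (hz : 0 ≤ z) : ∃ ψ : A →L[ℝ] ℝ, QS ψ ∧ ψ z = ‖z‖ := by
  by_cases h0 : z = 0
  · exact ⟨0, fun v _ => by simp, by simp [h0]⟩
  have hzpos : 0 < ‖z‖ := norm_pos_iff.mpr h0
  set U : Set A := {u | ∃ c : A, 0 ≤ c ∧ ‖u + c‖ < ‖z‖} with hU
  have hUo : IsOpen U := by
    have : U = ⋃ c : {c : A // 0 ≤ c}, {u | ‖u + c.1‖ < ‖z‖} := by
      ext u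
      simp only [hU, Set.mem_setOf_eq, Set.mem_iUnion]
      constructor
      · rintro ⟨c, hc, h⟩
        exact ⟨⟨c, hc⟩, h⟩
      · rintro ⟨c, h⟩
        exact ⟨c.1, c.2, h⟩
    rw [this]
    exact isOpen_iUnion fun c => isOpen_lt (by fun_prop) continuous_const
  have hUc : Convex ℝ U := by
    rintro u ⟨c, hc, h⟩ u' ⟨c', hc', h'⟩ s t hs ht hst
    refine ⟨s • c + t • c', add_nonneg (smul_nn hs hc) (smul_nn ht hc'), ?_⟩
    have e : s • u + t • u' + (s • c + t • c') = s • (u + c) + t • (u' + c') := by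
      simp only [smul_add]; abel
    rw [e]
    have h1 : (u + c) ∈ Metric.ball (0 : A) ‖z‖ := by simpa using h
    have h2 : (u' + c') ∈ Metric.ball (0 : A) ‖z‖ := by simpa using h'
    have := convex_ball (0 : A) ‖z‖ h1 h2 hs ht hst
    simpa using this
  have hzU : z ∉ U := by
    rintro ⟨c, hc, h⟩
    exact absurd (norm_le_add hz hc) (not_le.mpr h)
  obtain ⟨f, hf⟩ := geometric_hahn_banach_open_point hUc hUo hzU
  have hfz : 0 < f z := by
    have := hf 0 ⟨0, le_rfl, by simpa using hzpos⟩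
    simpa using this
  refine ⟨(‖z‖ / f z) • f, fun v hv => ⟨?_, ?_⟩, ?_⟩
  · have : 0 ≤ f v := by
      by_contra hneg
      push Not at hneg
      have ht : 0 ≤ f z / (-f v) := div_nonneg hfz.le (by linarith)
      have := hf (-((f z / (-f v)) • v)) ⟨(f z / (-f v)) • v, smul_nn ht hv, by simpa using hzpos⟩
      rw [map_neg, map_smul, smul_eq_mul] at this
      have e : -(f z / (-f v) * f v) = f z := by
        have : f v ≠ 0 := hneg.ne
        field_simp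
      linarith
    simp only [ContinuousLinearMap.smul_apply, smul_eq_mul]
    positivity
  · simp only [ContinuousLinearMap.smul_apply, smul_eq_mul]
    by_contra hcon
    push Not at hcon
    have hfv : 0 < f v := by
      by_contra hh
      push Not at hh
      have : ‖z‖ / f z * f v ≤ 0 := mul_nonpos_of_nonneg_of_nonpos (by positivity) hh
      linarith [norm_nonneg v]
    have ht : 0 ≤ f z / f v := by positivity
    have hn : ‖(f z / f v) • v + 0‖ < ‖z‖ := by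
      rw [add_zero, norm_smul, Real.norm_of_nonneg ht]
      rw [div_mul_eq_mul_div, lt_div_iff₀ hfz] at hcon
      rw [div_mul_eq_mul_div, div_lt_iff₀ hfv]
      linarith
    have := hf _ ⟨0, le_rfl, hn⟩
    rw [map_smul, smul_eq_mul, div_mul_cancel₀ _ hfv.ne'] at this
    exact lt_irrefl _ this
  · simp only [ContinuousLinearMap.smul_apply, smul_eq_mul]
    field_simp

theorem pigeon (s : ℕ → ℝ) (M ε : ℝ) (n : ℕ) (h0 : ∀ j, 0 ≤ s j) (hM : ∀ j, s j ≤ M)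
    (hn : M < n * ε) : ∃ j < n, s (j + 1) - s j ≤ ε := by
  by_contra hcon
  push Not at hcon
  have : ∀ k ≤ n, (k : ℝ) * ε ≤ s k := by
    intro k
    induction k with
    | zero => intro _; simpa using h0 0
    | succ k ih =>
      intro hk
      have h1 := ih (by omega)
      have h2 := hcon k (by omega)
      push_cast
      linarith
  linarith [this n le_rfl, hM n]

theorem flat {p a : A} (hp : 0 ≤ p) (ha : 0 ≤ a) {ε δ₀ : ℝ} (hε : 0 < ε) (hδ : 0 < δ₀) :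
    ∃ δ κ α : ℝ, 0 ≤ δ ∧ δ ≤ δ₀ ∧ 0 < κ ∧ ∀ ψ : A →L[ℝ] ℝ, QS ψ →
      ‖p + δ • a‖ - κ ≤ ψ (p + δ • a) → |ψ a - α| ≤ ε := by
  obtain ⟨n, hn⟩ := exists_nat_gt (‖a‖ / (ε / 2))
  have hn' : ‖a‖ < n * (ε / 2) := by rwa [div_lt_iff₀ (by positivity)] at hn
  set η : ℝ := δ₀ / (n + 1) with hη
  have hηpos : 0 < η := by positivity
  set N : ℕ → ℝ := fun j => ‖p + ((j : ℝ) * η) • a‖ with hN
  have hpos : ∀ j : ℕ, 0 ≤ p + ((j : ℝ) * η) • a :=
    fun j => add_nonneg hp (smul_nn (by positivity) ha)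
  have hstep : ∀ j : ℕ, p + (((j + 1 : ℕ) : ℝ) * η) • a = (p + ((j : ℝ) * η) • a) + η • a := by
    intro j
    push_cast
    rw [add_mul, one_mul, add_smul, add_assoc]
  obtain ⟨j, hj, hs⟩ := pigeon (fun j => (N (j + 1) - N j) / η) ‖a‖ (ε / 2) n
    (fun j => div_nonneg (by
      simp only [hN]
      rw [hstep]
      linarith [norm_le_add (hpos j) (smul_nn hηpos.le ha)]) hηpos.le)
    (fun j => by
      rw [div_le_iff₀ hηpos]
      simp only [hN]
      rw [hstep]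
      have := norm_add_le (p + ((j : ℝ) * η) • a) (η • a)
      rw [norm_smul, Real.norm_of_nonneg hηpos.le] at this
      linarith) hn'
  refine ⟨((j + 1 : ℕ) : ℝ) * η, η * ε / 4, (N (j + 1) - N j) / η, by positivity, ?_,
    by positivity, fun ψ hψ h => ?_⟩
  · have : ((j + 1 : ℕ) : ℝ) ≤ n + 1 := by
      have : (j : ℝ) ≤ n := by exact_mod_cast hj.le
      push_cast
      linarith
    calc ((j + 1 : ℕ) : ℝ) * η ≤ (n + 1) * η := by gcongr
      _ = δ₀ := by rw [hη]; field_simp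
  · have h1 := (hψ _ (hpos (j + 1 + 1))).2
    have h2 := (hψ _ (hpos j)).2
    rw [hstep (j + 1), map_add, map_smul, smul_eq_mul, ← hstep (j + 1)] at h1
    have h3 : ψ (p + (((j + 1 : ℕ) : ℝ) * η) • a) = ψ (p + ((j : ℝ) * η) • a) + η * ψ a := by
      rw [hstep j, map_add, map_smul, smul_eq_mul]
    change N (j + 1) - η * ε / 4 ≤ _ at h
    change _ ≤ N (j + 1 + 1) at h1
    change _ ≤ N j at h2
    have hs' : (N (j + 1 + 1) - N (j + 1)) - (N (j + 1) - N j) ≤ ε / 2 * η := by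
      have : (N (j + 1 + 1) - N (j + 1)) / η - (N (j + 1) - N j) / η ≤ ε / 2 := hs
      rwa [← sub_div, div_le_iff₀ hηpos] at this
    have e : ψ a - (N (j + 1) - N j) / η = (η * ψ a - (N (j + 1) - N j)) / η := by
      field_simp
    rw [e, abs_div, abs_of_pos hηpos, div_le_iff₀ hηpos, abs_le]
    constructor <;> nlinarith

theorem peak {p m : A} (hp : 0 ≤ p) (hm : 0 ≤ m) (hpm : p * m = 0) (hp0 : p ≠ 0) {ε : ℝ}
    (hε : 0 < ε) : ∃ κ : ℝ, 0 < κ ∧ ∀ ψ : A →L[ℝ] ℝ, QS ψ → ‖p‖ - κ ≤ ψ p →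
      ‖p‖ - ε ≤ ψ (p - m) := by
  have hpn : 0 < ‖p‖ := norm_pos_iff.mpr hp0
  set c : ℝ := ‖p‖ / (‖m‖ + 1) with hc
  have hcpos : 0 < c := by positivity
  have hcm : 0 ≤ c • m := smul_nn hcpos.le hm
  have hmax : ‖p + c • m‖ = max ‖p‖ ‖c • m‖ := by
    have h1 : IsSelfAdjoint p := hp.isSelfAdjoint
    have h2 : IsSelfAdjoint (c • m) := hcm.isSelfAdjoint
    have h3 : p * (c • m) = 0 := by rw [mul_smul_comm, hpm, smul_zero]
    have h4 : (c • m) * p = 0 := by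
      have := congrArg star h3
      rwa [star_mul, h1.star_eq, h2.star_eq, star_zero] at this
    exact IsStarNormal.norm_add_eq_max h1.isStarNormal h2.isStarNormal
      (by rw [Commute, SemiconjBy, h3, h4]) h3
  have hle : ‖p + c • m‖ ≤ ‖p‖ := by
    rw [hmax, max_le_iff]
    refine ⟨le_rfl, ?_⟩
    rw [norm_smul, Real.norm_of_nonneg hcpos.le, hc, div_mul_eq_mul_div,
      div_le_iff₀ (by positivity)]
    nlinarith [norm_nonneg m]
  refine ⟨min (ε / 2) (c * ε / 2), by positivity, fun ψ hψ h => ?_⟩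
  have h1 := (hψ _ (add_nonneg hp hcm)).2
  rw [map_add, map_smul, smul_eq_mul] at h1
  have h2 : c * ψ m ≤ c * (ε / 2) := by
    have := min_le_right (ε / 2) (c * ε / 2)
    linarith
  have h3 : ψ m ≤ ε / 2 := le_of_mul_le_mul_left h2 hcpos
  have := min_le_left (ε / 2) (c * ε / 2)
  rw [map_sub]
  linarith

theorem le_of_norm {x y : A} (hx : 0 ≤ x) (hy : 0 ≤ y) {β : ℝ} (hβ : 0 ≤ β)
    (h : ∀ c : A, 0 ≤ c → ‖y + c‖ ≤ ‖x + c‖ + β) (ψ : A →L[ℝ] ℝ) (hψ : QS ψ) :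
    ψ y ≤ ψ x + β := by
  have hs : IsSelfAdjoint (y - x) := hy.isSelfAdjoint.sub hx.isSelfAdjoint
  set p := (y - x)⁺ with hpdef
  set m := (y - x)⁻ with hmdef
  have hp : 0 ≤ p := CFC.posPart_nonneg _
  have hm : 0 ≤ m := CFC.negPart_nonneg _
  have hpm : p * m = 0 := CFC.posPart_mul_negPart _
  have hsub : p - m = y - x := CFC.posPart_sub_negPart _ hs
  have key : ‖p‖ ≤ β := by
    by_cases hp0 : p = 0
    · simpa [hp0] using hβ
    refine le_of_forall_pos_le_add fun ε hε => ?_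
    obtain ⟨κ, hκ, hk⟩ := peak hp hm hpm hp0 hε
    set t : ℝ := ‖x‖ / κ + 1 with ht
    have htpos : 0 < t := by positivity
    have htp : 0 ≤ t • p := smul_nn htpos.le hp
    obtain ⟨φ, hφ, hφz⟩ := exists_QS (x + t • p) (add_nonneg hx htp)
    have h1 : ‖t • p‖ ≤ ‖x + t • p‖ := by
      rw [add_comm]; exact norm_le_add htp hx
    rw [norm_smul, Real.norm_of_nonneg htpos.le] at h1
    have h2 := (hφ x hx).2
    have h3 : φ (x + t • p) = φ x + t * φ p := by rw [map_add, map_smul, smul_eq_mul]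
    have h4 : ‖x‖ ≤ t * κ := by
      rw [ht, add_mul, div_mul_cancel₀ _ hκ.ne']
      linarith
    have h5 : ‖p‖ - κ ≤ φ p := by
      have : t * (‖p‖ - κ) ≤ t * φ p := by linarith
      exact le_of_mul_le_mul_left this htpos
    have h6 := hk φ hφ h5
    rw [hsub, map_sub] at h6
    have h7 := (hφ _ (add_nonneg hy htp)).2
    rw [map_add, map_smul, smul_eq_mul] at h7
    have h8 := h _ htp
    linarith
  have h1 : ψ y - ψ x = ψ p - ψ m := by rw [← map_sub, ← hsub, map_sub]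
  linarith [(hψ p hp).2, (hψ m hm).1]

theorem good {p m a : A} (hp : 0 ≤ p) (hm : 0 ≤ m) (ha : 0 ≤ a) (hpm : p * m = 0) (hp0 : p ≠ 0)
    {ε C : ℝ} (hε : 0 < ε) (hC : 0 ≤ C) :
    ∃ (x : A) (α : ℝ), 0 ≤ x ∧ ∀ ψ : A →L[ℝ] ℝ, QS ψ → ‖x‖ - C ≤ ψ x →
      |ψ a - α| ≤ ε ∧ ‖p‖ - ε ≤ ψ (p - m) := by
  obtain ⟨κ, hκ, hk⟩ := peak hp hm hpm hp0 hε
  obtain ⟨δ, κ', α, hδ0, hδ1, hκ', hf⟩ := flat hp ha hε (δ₀ := κ / 2 / (‖a‖ + 1)) (by positivity)
  set k : ℝ := min (κ / 2) κ' with hkdef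
  have hkpos : 0 < k := by positivity
  set t : ℝ := C / k + 1 with ht
  have htpos : 0 < t := by positivity
  have hδa : 0 ≤ δ • a := smul_nn hδ0 ha
  have hq : 0 ≤ p + δ • a := add_nonneg hp hδa
  refine ⟨t • (p + δ • a), α, smul_nn htpos.le hq, fun ψ hψ h => ?_⟩
  rw [norm_smul, Real.norm_of_nonneg htpos.le, map_smul, smul_eq_mul] at h
  have h4 : C ≤ t * k := by
    rw [ht, add_mul, div_mul_cancel₀ _ hkpos.ne']
    linarith
  have h5 : ‖p + δ • a‖ - k ≤ ψ (p + δ • a) := by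
    have : t * (‖p + δ • a‖ - k) ≤ t * ψ (p + δ • a) := by linarith
    exact le_of_mul_le_mul_left this htpos
  refine ⟨hf ψ hψ (by linarith [min_le_right (κ / 2) κ']), hk ψ hψ ?_⟩
  have h6 := norm_le_add hp hδa
  have h7 := (hψ _ hδa).2
  rw [map_add] at h5
  have h8 : ‖δ • a‖ ≤ κ / 2 := by
    rw [norm_smul, Real.norm_of_nonneg hδ0]
    rw [le_div_iff₀ (by positivity)] at hδ1
    nlinarith [norm_nonneg a]
  linarith [min_le_left (κ / 2) κ']

theorem main {a b d : A} (ha : 0 ≤ a) (hb : 0 ≤ b) (hd : 0 ≤ d)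
    (H : ∀ x : A, 0 ≤ x → ∃ y : A, 0 ≤ y ∧ ‖d + x‖ = ‖a + y‖ ∧ ‖y‖ = ‖b + x‖ ∧
      ∀ c : A, 0 ≤ c → ‖y + c‖ ≤ ‖x + c‖ + ‖b‖) : d = a + b := by
  have hs : IsSelfAdjoint (d - (a + b)) :=
    hd.isSelfAdjoint.sub (add_nonneg ha hb).isSelfAdjoint
  set p := (d - (a + b))⁺ with hpdef
  set m := (d - (a + b))⁻ with hmdef
  have hp : 0 ≤ p := CFC.posPart_nonneg _
  have hm : 0 ≤ m := CFC.negPart_nonneg _
  have hpm : p * m = 0 := CFC.posPart_mul_negPart _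
  have hmp : m * p = 0 := CFC.negPart_mul_posPart _
  have hsub : p - m = d - (a + b) := CFC.posPart_sub_negPart _ hs
  have hC : 0 ≤ ‖a‖ + ‖b‖ + ‖d‖ := by positivity
  have hp0 : p = 0 := by
    by_contra hp0
    have hpn : 0 < ‖p‖ := norm_pos_iff.mpr hp0
    obtain ⟨x, α, hx, hg⟩ := good hp hm ha hpm hp0 (ε := ‖p‖ / 4) (by positivity) hC
    obtain ⟨y, hy, h1, h2, h3⟩ := H x hx
    obtain ⟨ψ₁, hψ₁, e₁⟩ := exists_QS (b + x) (add_nonneg hb hx)
    obtain ⟨ψ₂, hψ₂, e₂⟩ := exists_QS (a + y) (add_nonneg ha hy)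
    have hxb : ‖x‖ ≤ ‖b + x‖ := by rw [add_comm]; exact norm_le_add hx hb
    have hya : ‖y‖ ≤ ‖a + y‖ := by rw [add_comm]; exact norm_le_add hy ha
    rw [map_add] at e₁ e₂
    have k1 := hg ψ₁ hψ₁ (by linarith [(hψ₁ b hb).2, norm_nonneg a, norm_nonneg d])
    have k2 := hg ψ₂ hψ₂ (by
      linarith [(hψ₂ a ha).2, norm_nonneg d, le_of_norm hx hy (norm_nonneg b) h3 ψ₂ hψ₂])
    have k3 := (hψ₁ _ (add_nonneg hd hx)).2
    have k4 := (hψ₂ _ hy).2
    rw [hsub, map_sub, map_add] at k1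
    rw [map_add] at k3
    have k5 := abs_le.mp k1.1
    have k6 := abs_le.mp k2.1
    linarith [k1.2]
  have hm0 : m = 0 := by
    by_contra hm0
    have hmn : 0 < ‖m‖ := norm_pos_iff.mpr hm0
    obtain ⟨x, α, hx, hg⟩ := good hm hp ha hmp hm0 (ε := ‖m‖ / 4) (by positivity) hC
    obtain ⟨y, hy, h1, h2, h3⟩ := H x hx
    obtain ⟨ψ₁, hψ₁, e₁⟩ := exists_QS (d + x) (add_nonneg hd hx)
    obtain ⟨ψ₂, hψ₂, e₂⟩ := exists_QS y hy
    have hxb : ‖x‖ ≤ ‖b + x‖ := by rw [add_comm]; exact norm_le_add hx hb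
    have hxd : ‖x‖ ≤ ‖d + x‖ := by rw [add_comm]; exact norm_le_add hx hd
    rw [map_add] at e₁
    have k1 := hg ψ₁ hψ₁ (by linarith [(hψ₁ d hd).2, norm_nonneg a, norm_nonneg b])
    have k2 := hg ψ₂ hψ₂ (by
      linarith [norm_nonneg a, norm_nonneg d, le_of_norm hx hy (norm_nonneg b) h3 ψ₂ hψ₂])
    have k3 := (hψ₁ _ (add_nonneg hb hx)).2
    have k4 := (hψ₂ _ (add_nonneg ha hy)).2
    have hsub' : m - p = (a + b) - d := by rw [← neg_sub p m, hsub, neg_sub]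
    rw [hsub', map_sub, map_add] at k1
    rw [map_add] at k3 k4
    have k5 := abs_le.mp k1.1
    have k6 := abs_le.mp k2.1
    linarith [k1.2]
  rw [hp0, hm0, sub_zero] at hsub
  exact sub_eq_zero.mp hsub.symm

theorem final (A₁ A₂ : Type) [NonUnitalCStarAlgebra A₁] [PartialOrder A₁] [StarOrderedRing A₁]
    [NonUnitalCStarAlgebra A₂] [PartialOrder A₂] [StarOrderedRing A₂] (T : A₁ → A₂)
    (hpos : ∀ a : A₁, 0 ≤ a → 0 ≤ T a)
    (hsur : ∀ b : A₂, 0 ≤ b → ∃ a : A₁, 0 ≤ a ∧ T a = b)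
    (hN : ∀ f g : A₁, 0 ≤ f → 0 ≤ g → ‖T f + T g‖ = ‖T (f + g)‖)
    (f g : A₁) (hf : 0 ≤ f) (hg : 0 ≤ g) : T (f + g) = T f + T g := by
  refine main (hpos f hf) (hpos g hg) (hpos _ (add_nonneg hf hg)) fun x hx => ?_
  obtain ⟨h, hh, rfl⟩ := hsur x hx
  refine ⟨T (g + h), hpos _ (add_nonneg hg hh), ?_, (hN g h hg hh).symm, fun c hc => ?_⟩
  · rw [hN _ _ (add_nonneg hf hg) hh, hN _ _ hf (add_nonneg hg hh), add_assoc]
  · obtain ⟨k, hk, rfl⟩ := hsur c hc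
    rw [hN _ _ (add_nonneg hg hh) hk, add_assoc, ← hN _ _ hg (add_nonneg hh hk), hN _ _ hh hk]
    linarith [norm_add_le (T g) (T (h + k))]

end Pool.Agent.H619Z.NormAdd
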