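import Mathlib

set_option autoImplicit false

namespace Pool.Agent.H619Z.Slip

open MvPolynomial

section place

variable {K : Type} [Field K] [Algebra ℂ K]

/-- A partially defined place: a subalgebra with an algebra map to the complex numbers, as a
graph. -/
def IsGraph (G : Subalgebra ℂ (K × ℂ)) : Prop := ∀ c : ℂ, ((0 : K), c) ∈ G → c = 0

theorem exists_max_graph (G₀ : Subalgebra ℂ (K × ℂ)) (h₀ : IsGraph G₀) :
    ∃ G : Subalgebra ℂ (K × ℂ), G₀ ≤ G ∧ Maximal IsGraph G := by
  refine zorn_le_nonempty₀ {G | IsGraph G} ?_ G₀ h₀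
  intro c hc hchain y hy
  have hdir : DirectedOn (· ≤ ·) c := hchain.directedOn
  have hne : Nonempty c := ⟨⟨y, hy⟩⟩
  refine ⟨⨆ i : c, (i : Subalgebra ℂ (K × ℂ)), ?_, fun z hz => le_iSup (fun i : c =>
    (i : Subalgebra ℂ (K × ℂ))) ⟨z, hz⟩⟩
  intro a ha
  have hd : Directed (· ≤ ·) fun i : c => (i : Subalgebra ℂ (K × ℂ)) := hdir.directed_val
  have : ((0 : K), a) ∈ ((⨆ i : c, (i : Subalgebra ℂ (K × ℂ)) : Subalgebra ℂ (K × ℂ)) :
    Set (K × ℂ)) := ha
  rw [Subalgebra.coe_iSup_of_directed hd] at this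
  obtain ⟨i, hi⟩ := Set.mem_iUnion.mp this
  exact hc i.2 a hi

theorem exists_char {C : Type} [CommRing C] [Algebra ℂ C] (n : Ideal C) (hn : n.IsMaximal)
    (hft : Algebra.FiniteType ℂ (C ⧸ n)) : ∃ g : C →ₐ[ℂ] ℂ, ∀ (b : C) (c : ℂ),
      Ideal.Quotient.mk n b = algebraMap ℂ (C ⧸ n) c → g b = c := by
  let _ := Ideal.Quotient.field n
  have hfin : Module.Finite ℂ (C ⧸ n) := finite_of_finite_type_of_isJacobsonRing _ _
  have hint : Algebra.IsIntegral ℂ (C ⧸ n) := Algebra.IsIntegral.of_finite _ _
  have hbij : Function.Bijective (algebraMap ℂ (C ⧸ n)) :=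
    IsAlgClosed.algebraMap_bijective_of_isIntegral
  let e : ℂ ≃ₐ[ℂ] (C ⧸ n) := AlgEquiv.ofBijective (Algebra.ofId ℂ _) hbij
  refine ⟨e.symm.toAlgHom.comp (Ideal.Quotient.mkₐ ℂ n), fun b c h => ?_⟩
  change e.symm (Ideal.Quotient.mk n b) = c
  rw [h, AlgEquiv.symm_apply_eq]
  rfl

theorem max_graph_val (G : Subalgebra ℂ (K × ℂ)) (hG : Maximal IsGraph G) (x : K) :
    (∃ c, (x, c) ∈ G) ∨ ∃ c, (x⁻¹, c) ∈ G := by
  set B : Subalgebra ℂ K := G.map (AlgHom.fst ℂ K ℂ) with hB
  let m : Ideal B.toSubring :=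
    { carrier := {b | ((b : K), (0 : ℂ)) ∈ G}
      add_mem' := fun {a b} ha hb => by
        have := G.add_mem ha hb
        simpa using this
      zero_mem' := G.zero_mem
      smul_mem' := fun a b hb => by
        obtain ⟨⟨a', c⟩, hac, e⟩ := a.2
        have e' : a' = a := e
        have := G.mul_mem hac hb
        simpa [e'] using this }
  have hm : m ≠ ⊤ := by
    rw [Ideal.ne_top_iff_one]
    intro h
    have h1 : ((1 : K), (0 : ℂ)) ∈ G := h
    have h2 := G.sub_mem G.one_mem h1
    have h3 : ((0 : K), (1 : ℂ)) ∈ G := by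
      convert h2 using 1
      ext <;> simp
    exact one_ne_zero (hG.prop 1 h3)
  obtain ⟨R, hR1, hR2⟩ := Ideal.image_subset_nonunits_valuationSubring m hm
  have key : ∀ y : K, y ∈ R → ∃ c, (y, c) ∈ G := by
    intro y hy
    have hyB : Algebra.adjoin ℂ (insert y (B : Set K)) ≤
        { R.toSubring with algebraMap_mem' := fun c => hR1 (B.algebraMap_mem c) } := by
      refine Algebra.adjoin_le ?_
      rintro z (rfl | hz)
      · exact hy
      · exact hR1 hz
    set B' := Algebra.adjoin ℂ (insert y (B : Set K)) with hB'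
    let ι : B' →+* R :=
      { toFun := fun b => ⟨b.1, hyB b.2⟩
        map_one' := rfl
        map_mul' := fun _ _ => rfl
        map_zero' := rfl
        map_add' := fun _ _ => rfl }
    have hp : (IsLocalRing.maximalIdeal R).comap ι ≠ ⊤ :=
      Ideal.comap_ne_top _ (IsLocalRing.maximalIdeal.isMaximal R).ne_top
    obtain ⟨n, hn, hpn⟩ := Ideal.exists_le_maximal _ hp
    have hsub : ∀ (b : B') (c : ℂ), ((b : K), c) ∈ G →
        Ideal.Quotient.mk n b = algebraMap ℂ (B' ⧸ n) c := by
      intro b c hbc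
      have h1 : ((b : K) - algebraMap ℂ K c, (0 : ℂ)) ∈ G := by
        have := G.sub_mem hbc (G.algebraMap_mem c)
        convert this using 1
        ext <;> simp
      have h2 : (b : K) - algebraMap ℂ K c ∈ B := ⟨_, h1, rfl⟩
      have h3 : (b : K) - algebraMap ℂ K c ∈ R.nonunits := hR2 ⟨⟨_, h2⟩, h1, rfl⟩
      have h4 : b - algebraMap ℂ B' c ∈ n := by
        apply hpn
        rw [Ideal.mem_comap]
        exact ValuationSubring.coe_mem_nonunits_iff.mp h3
      rw [← Ideal.Quotient.mk_algebraMap, Ideal.Quotient.eq]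
      exact h4
    have hyB' : y ∈ B' := Algebra.subset_adjoin (Set.mem_insert _ _)
    have hft : Algebra.FiniteType ℂ (B' ⧸ n) := by
      refine ⟨⟨{Ideal.Quotient.mk n ⟨y, hyB'⟩}, ?_⟩⟩
      rw [eq_top_iff]
      rintro q -
      obtain ⟨⟨b, hb⟩, rfl⟩ := Ideal.Quotient.mk_surjective q
      induction hb using Algebra.adjoin_induction with
      | mem z hz =>
        rcases hz with rfl | hz
        · exact Algebra.subset_adjoin (by simp)
        · obtain ⟨⟨z', c⟩, hzc, rfl⟩ := hz
          have := hsub ⟨z', Algebra.subset_adjoin (Set.mem_insert_of_mem _ ⟨_, hzc, rfl⟩)⟩ c hzc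
          exact this ▸ Subalgebra.algebraMap_mem _ _
      | algebraMap c => exact Subalgebra.algebraMap_mem _ c
      | add a b ha hb iha ihb => exact Subalgebra.add_mem _ iha ihb
      | mul a b ha hb iha ihb => exact Subalgebra.mul_mem _ iha ihb
    obtain ⟨g, hg⟩ := exists_char n hn hft
    let G' : Subalgebra ℂ (K × ℂ) := (B'.val.prod g).range
    have hG' : IsGraph G' := by
      rintro c ⟨b, hb⟩
      have h1 : (b : K) = 0 := congrArg Prod.fst hb
      have h2 : g b = c := congrArg Prod.snd hb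
      have : b = 0 := Subtype.ext h1
      rw [← h2, this, map_zero]
    have hle : G ≤ G' := by
      rintro ⟨b, c⟩ hbc
      have hb : b ∈ B' := Algebra.subset_adjoin (Set.mem_insert_of_mem _ ⟨_, hbc, rfl⟩)
      refine ⟨⟨b, hb⟩, Prod.ext rfl ?_⟩
      exact hg ⟨b, hb⟩ c (hsub ⟨b, hb⟩ c hbc)
    exact ⟨g ⟨y, hyB'⟩, hG.le_of_ge hG' hle ⟨⟨y, hyB'⟩, rfl⟩⟩
  rcases R.mem_or_inv_mem x with h | h
  · exact Or.inl (key x h)
  · exact Or.inr (key _ h)

/-- extension of a homomorphism to a place. -/
theorem exists_place {τ : Type} (y : τ → K) (a : τ → ℂ)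
    (h : ∀ P : MvPolynomial τ ℂ, aeval y P = 0 → eval a P = 0) :
    ∃ (R : Subalgebra ℂ K) (φ : R →ₐ[ℂ] ℂ), (∀ x : K, x ∈ R ∨ x⁻¹ ∈ R) ∧
      ∀ t, ∃ ht : y t ∈ R, φ ⟨y t, ht⟩ = a t := by
  let G₀ : Subalgebra ℂ (K × ℂ) := ((aeval y : MvPolynomial τ ℂ →ₐ[ℂ] K).prod (aeval a)).range
  have h₀ : IsGraph G₀ := by
    rintro c ⟨P, hP⟩
    have h1 : aeval y P = 0 := congrArg Prod.fst hP
    have h2 : aeval a P = c := congrArg Prod.snd hP
    rw [← h2]
    exact h P h1
  obtain ⟨G, hG₀, hG⟩ := exists_max_graph G₀ h₀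
  let R : Subalgebra ℂ K := G.map (AlgHom.fst ℂ K ℂ)
  let p : G →ₐ[ℂ] R := ((AlgHom.fst ℂ K ℂ).comp G.val).codRestrict R fun g => ⟨g.1, g.2, rfl⟩
  have hp : Function.Bijective p := by
    constructor
    · rw [injective_iff_map_eq_zero]
      rintro ⟨⟨b, c⟩, hbc⟩ hb
      have hb' : b = 0 := congrArg Subtype.val hb
      subst hb'
      have := hG.prop c hbc
      subst this
      rfl
    · rintro ⟨b, g, hg, rfl⟩
      exact ⟨⟨g, hg⟩, rfl⟩
  let e := AlgEquiv.ofBijective p hp
  refine ⟨R, ((AlgHom.snd ℂ K ℂ).comp G.val).comp (e.symm : R →ₐ[ℂ] G), fun x => ?_, fun t => ?_⟩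
  · rcases max_graph_val G hG x with ⟨c, hc⟩ | ⟨c, hc⟩
    · exact Or.inl ⟨_, hc, rfl⟩
    · exact Or.inr ⟨_, hc, rfl⟩
  · have hmem : (y t, a t) ∈ G := hG₀ ⟨X t, by ext <;> simp⟩
    refine ⟨⟨_, hmem, rfl⟩, ?_⟩
    have : e.symm ⟨y t, ⟨_, hmem, rfl⟩⟩ = ⟨(y t, a t), hmem⟩ := by
      rw [AlgEquiv.symm_apply_eq]
      rfl
    change (e.symm ⟨y t, _⟩ : G).1.2 = a t
    rw [this]

variable (R : Subalgebra ℂ K) (φ : R →ₐ[ℂ] ℂ)

theorem exists_primitive (hR : ∀ x : K, x ∈ R ∨ x⁻¹ ∈ R) {ι : Type} [Finite ι] (w : ι → K)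
    (hw : w ≠ 0) : ∃ i, w i ≠ 0 ∧ ∀ j, w j / w i ∈ R := by
  classical
  have := Fintype.ofFinite ι
  have key : ∀ s : Finset ι, (∀ j ∈ s, w j = 0) ∨ ∃ i, w i ≠ 0 ∧ ∀ j ∈ s, w j / w i ∈ R := by
    intro s
    induction s using Finset.induction_on with
    | empty => exact Or.inl (by simp)
    | insert a s ha ih =>
      by_cases h0 : w a = 0
      · rcases ih with ih | ⟨i, hi, ih⟩
        · exact Or.inl (by simpa [h0] using ih)
        · refine Or.inr ⟨i, hi, fun j hj => ?_⟩
          rcases Finset.mem_insert.mp hj with rfl | hj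
          · simpa [h0] using R.zero_mem
          · exact ih j hj
      · right
        rcases ih with ih | ⟨i, hi, ih⟩
        · refine ⟨a, h0, fun j hj => ?_⟩
          rcases Finset.mem_insert.mp hj with rfl | hj
          · simpa [h0] using R.one_mem
          · simpa [ih j hj] using R.zero_mem
        · rcases hR (w a / w i) with h | h
          · refine ⟨i, hi, fun j hj => ?_⟩
            rcases Finset.mem_insert.mp hj with rfl | hj
            · exact h
            · exact ih j hj
          · refine ⟨a, h0, fun j hj => ?_⟩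
            rcases Finset.mem_insert.mp hj with rfl | hj
            · simpa [h0] using R.one_mem
            · have := R.mul_mem (ih j hj) h
              rw [inv_div] at this
              convert this using 1
              field_simp
  rcases key Finset.univ with h | ⟨i, hi, h⟩
  · exact absurd (funext fun j => h j (Finset.mem_univ j)) hw
  · exact ⟨i, hi, fun j => h j (Finset.mem_univ j)⟩

/-- the reduction of a subspace along the place. -/
def red {μ : Type} (W : Submodule K (μ → K)) : Submodule ℂ (μ → ℂ) where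
  carrier := {v | ∃ w : μ → R, (fun e => (w e : K)) ∈ W ∧ v = fun e => φ (w e)}
  add_mem' := by
    rintro _ _ ⟨w, hw, rfl⟩ ⟨w', hw', rfl⟩
    exact ⟨w + w', W.add_mem hw hw', by ext e; simp⟩
  zero_mem' := ⟨0, W.zero_mem, by ext e; simp⟩
  smul_mem' := by
    rintro c _ ⟨w, hw, rfl⟩
    refine ⟨c • w, ?_, by ext e; simp⟩
    have := W.smul_mem (algebraMap ℂ K c) hw
    convert this using 1
    ext e
    simp [Algebra.smul_def]

theorem red_mono {μ : Type} {W W' : Submodule K (μ → K)} (h : W ≤ W') :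
    red R φ W ≤ red R φ W' := by
  rintro _ ⟨w, hw, rfl⟩
  exact ⟨w, h hw, rfl⟩

theorem finrank_red_le (hR : ∀ x : K, x ∈ R ∨ x⁻¹ ∈ R) {μ : Type} [Finite μ]
    (W : Submodule K (μ → K)) : Module.finrank ℂ (red R φ W) ≤ Module.finrank K W := by
  let b := Module.finBasis ℂ (red R φ W)
  choose w hw hwb using fun i => (b i).2
  have hli : LinearIndependent K fun i => (⟨fun e => (w i e : K), hw i⟩ : W) := by
    rw [Fintype.linearIndependent_iff]
    intro c hc
    by_contra hne
    have hc0 : c ≠ 0 := fun h => hne fun i => by simp [h]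
    obtain ⟨i, hi, hci⟩ := exists_primitive R hR c hc0
    have hrel : ∑ j, φ ⟨c j / c i, hci j⟩ • b j = 0 := by
      apply Subtype.ext
      funext e
      have h1 : ∑ j, c j * (w j e : K) = 0 := by
        have := congrFun (congrArg Subtype.val hc) e
        simpa [Finset.sum_apply] using this
      have h2 : ∑ j, (⟨c j / c i, hci j⟩ : R) * w j e = 0 := by
        apply Subtype.ext
        have : ∑ j, c j / c i * (w j e : K) = (∑ j, c j * (w j e : K)) / c i := by
          rw [Finset.sum_div]
          exact Finset.sum_congr rfl fun j _ => by ring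
        simp only [AddSubmonoidClass.coe_finsetSum, MulMemClass.coe_mul, ZeroMemClass.coe_zero]
        rw [this, h1, zero_div]
      have h3 := congrArg φ h2
      simp only [map_sum, map_mul, map_zero] at h3
      simp only [AddSubmonoidClass.coe_finsetSum, SetLike.val_smul, Finset.sum_apply,
        Pi.smul_apply, smul_eq_mul, ZeroMemClass.coe_zero, Pi.zero_apply]
      rw [← h3]
      exact Finset.sum_congr rfl fun j _ => by rw [hwb j]
    have := Fintype.linearIndependent_iff.mp b.linearIndependent _ hrel i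
    have e1 : (⟨c i / c i, hci i⟩ : R) = 1 := Subtype.ext (div_self hi)
    rw [e1, map_one] at this
    exact one_ne_zero this
  simpa using hli.fintype_card_le_finrank

theorem le_finrank_red (hR : ∀ x : K, x ∈ R ∨ x⁻¹ ∈ R) {μ : Type} [Finite μ] (d : ℕ) :
    ∀ W : Submodule K (μ → K), Module.finrank K W = d → d ≤ Module.finrank ℂ (red R φ W) := by
  induction d with
  | zero => intro W _; exact Nat.zero_le _
  | succ d ih =>
    intro W hW
    have hne : W ≠ ⊥ := by
      rintro rfl
      simp at hW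
    obtain ⟨w, hw, hw0⟩ := Submodule.exists_mem_ne_zero_of_ne_bot hne
    obtain ⟨i, hi, hwi⟩ := exists_primitive R hR w hw0
    set W' : Submodule K (μ → K) := W ⊓ LinearMap.ker (LinearMap.proj i) with hW'
    have hsup : W' ⊔ Submodule.span K {w} = W := by
      apply le_antisymm
      · exact sup_le inf_le_left (by simpa using hw)
      · intro u hu
        rw [Submodule.mem_sup]
        refine ⟨u - (u i / w i) • w, ⟨W.sub_mem hu (W.smul_mem _ hw), ?_⟩, (u i / w i) • w,
          Submodule.smul_mem _ _ (Submodule.mem_span_singleton_self w), by abel⟩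
        simp [div_mul_cancel₀ _ hi]
    have hinf : W' ⊓ Submodule.span K {w} = ⊥ := by
      rw [eq_bot_iff]
      rintro u ⟨⟨-, hu⟩, hu'⟩
      obtain ⟨c, rfl⟩ := Submodule.mem_span_singleton.mp hu'
      have : c * w i = 0 := by simpa using hu
      have hc : c = 0 := by simpa [hi] using this
      simp [hc]
    have hrank := Submodule.finrank_sup_add_finrank_inf_eq W' (Submodule.span K {w})
    rw [hsup, hinf, finrank_bot, finrank_span_singleton hw0, hW] at hrank
    have h1 := ih W' (by omega)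
    have hlt : red R φ W' < red R φ W := by
      refine lt_of_le_of_ne (red_mono R φ inf_le_left) fun heq => ?_
      have hmem : (fun e => φ ⟨w e / w i, hwi e⟩) ∈ red R φ W := by
        refine ⟨fun e => ⟨w e / w i, hwi e⟩, ?_, rfl⟩
        have := W.smul_mem (w i)⁻¹ hw
        convert this using 1
        ext e
        simp [div_eq_inv_mul]
      rw [← heq] at hmem
      obtain ⟨u, ⟨-, hu⟩, hue⟩ := hmem
      have h2 : u i = 0 := Subtype.ext (by simpa using hu)
      have h3 := congrFun hue i
      have e1 : (⟨w i / w i, hwi i⟩ : R) = 1 := Subtype.ext (div_self hi)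
      simp only [e1, h2, map_one, map_zero] at h3
      exact one_ne_zero h3
    have := Submodule.finrank_lt_finrank_of_lt hlt
    omega

theorem finrank_red (hR : ∀ x : K, x ∈ R ∨ x⁻¹ ∈ R) {μ : Type} [Finite μ]
    (W : Submodule K (μ → K)) : Module.finrank ℂ (red R φ W) = Module.finrank K W :=
  le_antisymm (finrank_red_le R φ hR W) (le_finrank_red R φ hR _ W rfl)

end place

section minors

variable {F : Type} [Field F] {μ : Type}

theorem det_cols_eq_zero {h : ℕ} (v : Fin h → μ → F) (hv : ¬ LinearIndependent F v)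
    (c : Fin h → μ) : (Matrix.of fun i j => v i (c j)).det = 0 := by
  apply Matrix.det_eq_zero_of_not_linearIndependent_rows
  intro hli
  apply hv
  exact LinearIndependent.of_comp (LinearMap.funLeft F F c) hli

theorem exists_det_cols_ne_zero {h : ℕ} (v : Fin h → μ → F) (hv : LinearIndependent F v) :
    ∃ c : Fin h → μ, (Matrix.of fun i j => v i (c j)).det ≠ 0 := by
  classical
  let col : μ → Fin h → F := fun e i => v i e
  have hspan : Submodule.span F (Set.range col) = ⊤ := by
    by_contra hne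
    obtain ⟨f, hf0, hf⟩ := Submodule.exists_le_ker_of_lt_top _ (lt_top_iff_ne_top.mpr hne)
    have hrel : ∑ i, f (Pi.single i 1) • v i = 0 := by
      funext e
      have h1 : f (col e) = 0 := hf (Submodule.subset_span ⟨e, rfl⟩)
      have h2 : col e = ∑ i, v i e • (Pi.single i 1 : Fin h → F) := by
        funext j
        simp [col, Finset.sum_apply, Pi.single_apply]
      rw [h2, map_sum] at h1
      simp only [map_smul, smul_eq_mul] at h1
      simp only [Finset.sum_apply, Pi.smul_apply, smul_eq_mul, Pi.zero_apply]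
      rw [← h1]
      exact Finset.sum_congr rfl fun i _ => mul_comm _ _
    have := Fintype.linearIndependent_iff.mp hv _ hrel
    apply hf0
    apply LinearMap.pi_ext'
    intro i
    ext
    simpa using this i
  obtain ⟨κ, a, -, hsp, hli⟩ := exists_linearIndependent' F col
  rw [hspan] at hsp
  let b : Module.Basis κ F (Fin h → F) := Module.Basis.mk hli hsp.ge
  have hfin : Finite κ := Module.Finite.finite_basis b
  have := Fintype.ofFinite κ
  have hcard : Fintype.card κ = h := by
    rw [← Module.finrank_eq_card_basis b]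
    simp
  let e : Fin h ≃ κ := (Fintype.equivFinOfCardEq hcard).symm
  refine ⟨fun j => a (e j), ?_⟩
  have hli' : LinearIndependent F (Matrix.of fun i j => v i (a (e j))).col :=
    hli.comp e e.injective
  have := Matrix.linearIndependent_cols_iff_isUnit.mp hli'
  exact ((Matrix.isUnit_iff_isUnit_det _).mp this).ne_zero

theorem det_cons {A : Type} [CommRing A] {h : ℕ} (w : μ → A) (v : Fin h → μ → A)
    (c : Fin (h + 1) → μ) :
    (Matrix.of fun i j => (Fin.cons w v : Fin (h + 1) → μ → A) i (c j)).det =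
      ∑ j : Fin (h + 1), (-1) ^ (j : ℕ) * w (c j) *
        (Matrix.of fun i j' => v i (c (j.succAbove j'))).det := by
  rw [Matrix.det_succ_row_zero]
  rfl

end minors

theorem exists_general {σ τ : Type} [Countable σ] [Countable τ] (Q : τ → MvPolynomial σ ℂ)
    (hQ : ∀ t, Q t ≠ 0) : ∃ x : σ → ℂ, ∀ t, eval x (Q t) ≠ 0 := by
  have hd : Dense (⋂ t, {x : σ → ℂ | eval x (Q t) ≠ 0}) := by
    refine dense_iInter_of_isOpen (fun t => ?_) fun t => ?_
    · exact isOpen_ne_fun (MvPolynomial.continuous_eval _) continuous_const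
    · rw [dense_iff_inter_open]
      rintro U hU ⟨x, hx⟩
      by_contra hne
      obtain ⟨I, u, hu, hsub⟩ := isOpen_pi_iff.mp hU x hx
      classical
      apply hQ t
      refine MvPolynomial.funext_set (fun s => if s ∈ I then u s else Set.univ) (fun s => ?_) ?_
      · split_ifs with hs
        · exact infinite_of_mem_nhds _ ((hu s hs).1.mem_nhds (hu s hs).2)
        · exact Set.infinite_univ
      · intro y hy
        rw [map_zero]
        by_contra h0
        apply hne
        refine ⟨y, hsub fun s hs => ?_, h0⟩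
        have := hy s (Set.mem_univ s)
        simpa [Finset.mem_coe.mp hs] using this
  obtain ⟨x, hx⟩ := hd.nonempty
  exact ⟨x, fun t => Set.mem_iInter.mp hx t⟩

end Pool.Agent.H619Z.Slip
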