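import Pool.Agent.H619Z.SlipDefs
import Pool.Agent.H619Z.SlipA

set_option autoImplicit false

namespace Pool.Agent.H619Z.Slip

open MvPolynomial

variable (F : Fan)

instance : Countable F.Pic := QuotientAddGroup.mk_surjective.countable

theorem weight_eq (e : Fin F.N →₀ ℕ) :
    Finsupp.weight F.deg e = QuotientAddGroup.mk fun ρ => (e ρ : ℤ) := by
  rw [Finsupp.weight_apply, Finsupp.sum_fintype _ _ (by simp)]
  have : (fun ρ => (e ρ : ℤ)) = ∑ ρ, e ρ • (Pi.single ρ 1 : Fin F.N → ℤ) := by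
    funext j
    simp [Finset.sum_apply, Pi.single_apply]
  rw [this]
  change _ = QuotientAddGroup.mk' _ _
  rw [map_sum]
  refine Finset.sum_congr rfl fun ρ _ => ?_
  rw [map_nsmul]
  rfl

theorem mem_closure_char {a : Fin F.N → ℤ}
    (ha : a ∈ AddSubgroup.closure (Set.range fun m : Fin F.n → ℤ => fun ρ => m ⬝ᵥ F.ray ρ)) :
    ∃ m : Fin F.n → ℤ, ∀ ρ, a ρ = m ⬝ᵥ F.ray ρ := by
  induction ha using AddSubgroup.closure_induction with
  | mem x hx =>
    obtain ⟨m, rfl⟩ := hx
    exact ⟨m, fun _ => rfl⟩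
  | zero => exact ⟨0, by simp⟩
  | add x y _ _ hx hy =>
    obtain ⟨m, hm⟩ := hx
    obtain ⟨m', hm'⟩ := hy
    exact ⟨m + m', fun ρ => by simp [hm, hm', add_dotProduct]⟩
  | neg x _ hx =>
    obtain ⟨m, hm⟩ := hx
    exact ⟨-m, fun ρ => by simp [hm]⟩

theorem eq_zero_of_nonneg (m : Fin F.n → ℤ) (h : ∀ ρ, 0 ≤ m ⬝ᵥ F.ray ρ) : m = 0 := by
  obtain ⟨σ, -, a, ha, hx⟩ := F.complete fun i => -(m i : ℝ)
  have h1 : ∑ i, (m i : ℝ) * (-(m i : ℝ)) = ∑ ρ ∈ σ, a ρ * ((m ⬝ᵥ F.ray ρ : ℤ) : ℝ) := by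
    have : ∀ i, -(m i : ℝ) = ∑ ρ ∈ σ, a ρ * (F.ray ρ i : ℝ) := fun i => by
      have := congrFun hx i
      simpa [Finset.sum_apply] using this
    simp only [this, Finset.mul_sum, dotProduct, Int.cast_sum, Int.cast_mul]
    rw [Finset.sum_comm]
    exact Finset.sum_congr rfl fun ρ _ => Finset.sum_congr rfl fun i _ => by ring
  have h2 : 0 ≤ ∑ ρ ∈ σ, a ρ * ((m ⬝ᵥ F.ray ρ : ℤ) : ℝ) :=
    Finset.sum_nonneg fun ρ _ => mul_nonneg (ha ρ) (by exact_mod_cast h ρ)
  have h3 : ∑ i, (m i : ℝ) * (m i : ℝ) ≤ 0 := by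
    have : ∑ i, (m i : ℝ) * (-(m i : ℝ)) = -∑ i, (m i : ℝ) * (m i : ℝ) := by
      simp [Finset.sum_neg_distrib]
    linarith
  have h4 := (Finset.sum_eq_zero_iff_of_nonneg fun i _ => mul_self_nonneg (m i : ℝ)).mp
    (le_antisymm h3 (Finset.sum_nonneg fun i _ => mul_self_nonneg _))
  funext i
  have := h4 i (Finset.mem_univ i)
  simpa using this

instance (D : F.Pic) : Finite (F.Mon D) := by
  by_contra hinf
  rw [not_finite_iff_infinite] at hinf
  let f := Infinite.natEmbedding (F.Mon D)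
  obtain ⟨a, b, hab, hle⟩ := wellQuasiOrdered_le (α := Fin F.N →₀ ℕ) fun i => (f i).1
  have h1 : (QuotientAddGroup.mk fun ρ => ((f a).1 ρ : ℤ) : F.Pic) =
      QuotientAddGroup.mk fun ρ => ((f b).1 ρ : ℤ) := by
    rw [← weight_eq, ← weight_eq, (f a).2, (f b).2]
  rw [QuotientAddGroup.eq] at h1
  obtain ⟨m, hm⟩ := mem_closure_char F h1
  have hm0 : m = 0 := eq_zero_of_nonneg F m fun ρ => by
    rw [← hm ρ]
    have : (f a).1 ρ ≤ (f b).1 ρ := hle ρ
    simp only [Pi.add_apply, Pi.neg_apply]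
    omega
  have : f a = f b := by
    apply Subtype.ext
    ext ρ
    have := hm ρ
    simp only [hm0, Pi.add_apply, Pi.neg_apply, zero_dotProduct] at this
    omega
  exact hab.ne (f.injective this)

noncomputable instance (D : F.Pic) : Fintype (F.Mon D) := Fintype.ofFinite _

open Classical in
/-- the linear form with given values on the monomials of degree `D`. -/
noncomputable def fn (D : F.Pic) : (F.Mon D → ℂ) →ₗ[ℂ] F.S →ₗ[ℂ] ℂ :=
  ((basisMonomials (Fin F.N) ℂ).constr ℂ).toLinearMap ∘ₗ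
    { toFun := fun v e => if h : Finsupp.weight F.deg e = D then v ⟨e, h⟩ else 0
      map_add' := fun v w => by
        funext e
        by_cases h : Finsupp.weight F.deg e = D <;> simp [h]
      map_smul' := fun c v => by
        funext e
        by_cases h : Finsupp.weight F.deg e = D <;> simp [h] }

open Classical in
theorem fn_monomial (D : F.Pic) (v : F.Mon D → ℂ) (e : Fin F.N →₀ ℕ) :
    fn F D v (monomial e 1) = if h : Finsupp.weight F.deg e = D then v ⟨e, h⟩ else 0 := by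
  have := (basisMonomials (Fin F.N) ℂ).constr_basis ℂ
    (fun e => if h : Finsupp.weight F.deg e = D then v ⟨e, h⟩ else 0) e
  rw [coe_basisMonomials] at this
  exact this

theorem fn_mon (D : F.Pic) (v : F.Mon D → ℂ) (e : F.Mon D) :
    fn F D v (monomial e.1 1) = v e := by
  rw [fn_monomial, dif_pos e.2]

theorem lin_ext {M : Type} [AddCommGroup M] [Module ℂ M] {l l' : F.S →ₗ[ℂ] M}
    (h : ∀ e, l (monomial e 1) = l' (monomial e 1)) : l = l' := by
  refine (basisMonomials (Fin F.N) ℂ).ext fun e => ?_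
  rw [coe_basisMonomials]
  exact h e

open Classical in
theorem comp_monomial (D : F.Pic) (e : Fin F.N →₀ ℕ) :
    weightedHomogeneousComponent F.deg D (monomial e (1 : ℂ)) =
      if D = Finsupp.weight F.deg e then monomial e 1 else 0 :=
  weightedHomogeneousComponent_of_mem (isWeightedHomogeneous_monomial F.deg e 1 rfl)

/-- values on monomials. -/
noncomputable def vec (D : F.Pic) (l : F.S →ₗ[ℂ] ℂ) : F.Mon D → ℂ := fun e => l (monomial e.1 1)

theorem fn_vec_comp (D : F.Pic) (l : F.S →ₗ[ℂ] ℂ) (f : F.S) :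
    fn F D (vec F D l) f = l (weightedHomogeneousComponent F.deg D f) := by
  have : fn F D (vec F D l) = l ∘ₗ weightedHomogeneousComponent F.deg D := by
    refine lin_ext F fun e => ?_
    rw [fn_monomial, LinearMap.comp_apply, comp_monomial]
    by_cases h : Finsupp.weight F.deg e = D
    · rw [dif_pos h, if_pos h.symm]
      rfl
    · rw [dif_neg h, if_neg (Ne.symm h), map_zero]
  rw [this]
  rfl

theorem fn_vec (D : F.Pic) (l : F.S →ₗ[ℂ] ℂ) {f : F.S} (hf : f ∈ F.piece D) :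
    fn F D (vec F D l) f = l f := by
  rw [fn_vec_comp, weightedHomogeneousComponent_eq_self hf]

theorem vec_fn (D : F.Pic) (v : F.Mon D → ℂ) : vec F D (fn F D v) = v :=
  funext fun e => fn_mon F D v e

theorem fn_comp (D : F.Pic) (v : F.Mon D → ℂ) (f : F.S) :
    fn F D v (weightedHomogeneousComponent F.deg D f) = fn F D v f := by
  rw [← fn_vec_comp, vec_fn]

theorem fn_ne {D D' : F.Pic} (h : D' ≠ D) (v : F.Mon D' → ℂ) {f : F.S} (hf : f ∈ F.piece D) :
    fn F D' v f = 0 := by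
  rw [← fn_comp, IsWeightedHomogeneous.weightedHomogeneousComponent_ne D' hf h, map_zero]

/-- the perfect pairing. -/
noncomputable def psi (D : F.Pic) : F.piece D →ₗ[ℂ] Module.Dual ℂ (F.Mon D → ℂ) :=
  (fn F D).flip ∘ₗ (F.piece D).subtype

theorem psi_apply (D : F.Pic) (f : F.piece D) (v : F.Mon D → ℂ) :
    psi F D f v = fn F D v f := rfl

theorem psi_surj (D : F.Pic) : Function.Surjective (psi F D) := by
  classical
  intro φ
  refine ⟨∑ e : F.Mon D, φ (Pi.single e 1) •
    ⟨monomial e.1 1, isWeightedHomogeneous_monomial F.deg e.1 1 e.2⟩, ?_⟩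
  apply LinearMap.pi_ext'
  intro e
  ext
  simp only [map_sum, map_smul, LinearMap.comp_apply, LinearMap.sum_apply, LinearMap.smul_apply,
    psi_apply, fn_mon, smul_eq_mul]
  rw [Finset.sum_eq_single e]
  · simp
  · intro b _ hb
    simp [Pi.single_apply, hb]
  · simp

theorem psi_inj (D : F.Pic) : Function.Injective (psi F D) := by
  rw [injective_iff_map_eq_zero]
  intro f hf
  apply Subtype.ext
  ext e
  have h1 := fn_vec F D (lcoeff ℂ e) f.2
  rw [← psi_apply, hf] at h1
  simpa using h1.symm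

instance (D : F.Pic) : Module.Finite ℂ (F.piece D) :=
  Module.Finite.of_injective (psi F D) (psi_inj F D)

theorem finrank_piece (D : F.Pic) : Module.finrank ℂ (F.piece D) = Fintype.card (F.Mon D) := by
  rw [(LinearEquiv.ofBijective (psi F D) ⟨psi_inj F D, psi_surj F D⟩).finrank_eq,
    Subspace.dual_finrank_eq, Module.finrank_fintype_fun_eq_card]

theorem hf_eq {J : Ideal F.S} {D : F.Pic} (V : Submodule ℂ (F.Mon D → ℂ))
    (h : ∀ f ∈ F.piece D, f ∈ J ↔ ∀ v ∈ V, fn F D v f = 0) :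
    F.hf J D = Module.finrank ℂ V := by
  let Φ : F.piece D →ₗ[ℂ] Module.Dual ℂ V := V.subtype.dualMap ∘ₗ psi F D
  have hs : Function.Surjective Φ :=
    (LinearMap.dualMap_surjective_of_injective V.injective_subtype).comp (psi_surj F D)
  have hk : LinearMap.ker Φ = (J.restrictScalars ℂ).submoduleOf (F.piece D) := by
    ext f
    rw [LinearMap.mem_ker]
    change _ ↔ (f : F.S) ∈ J
    rw [h f f.2]
    constructor
    · intro h0 v hv
      exact LinearMap.congr_fun h0 ⟨v, hv⟩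
    · intro h0
      ext v
      exact h0 v v.2
  rw [Fan.hf, ← hk, (Φ.quotKerEquivOfSurjective hs).finrank_eq, Subspace.dual_finrank_eq]

theorem mem_of_ann {D : F.Pic} (V : Submodule ℂ (F.Mon D → ℂ)) (v : F.Mon D → ℂ)
    (h : ∀ f ∈ F.piece D, (∀ u ∈ V, fn F D u f = 0) → fn F D v f = 0) : v ∈ V := by
  rw [← Subspace.forall_mem_dualAnnihilator_apply_eq_zero_iff]
  intro φ hφ
  obtain ⟨f, rfl⟩ := psi_surj F D φ
  rw [Submodule.mem_dualAnnihilator] at hφ
  exact h f f.2 hφ

theorem forall_span {D : F.Pic} {ι : Type} (v : ι → F.Mon D → ℂ) (f : F.S) :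
    (∀ u ∈ Submodule.span ℂ (Set.range v), fn F D u f = 0) ↔ ∀ i, fn F D (v i) f = 0 := by
  refine ⟨fun h i => h _ (Submodule.subset_span ⟨i, rfl⟩), fun h u hu => ?_⟩
  have : Submodule.span ℂ (Set.range v) ≤ LinearMap.ker ((fn F D).flip f) := by
    rw [Submodule.span_le]
    rintro _ ⟨i, rfl⟩
    exact h i
  exact this hu

theorem frame_span {h : F.Pic → ℕ} {J : Ideal F.S} {l : ∀ D, Fin (h D) → (F.S →ₗ[ℂ] ℂ)}
    (hl : F.IsFrame h J l) (D : F.Pic) (f : F.S) (hf : f ∈ F.piece D) :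
    f ∈ J ↔ ∀ u ∈ Submodule.span ℂ (Set.range fun i => vec F D (l D i)), fn F D u f = 0 := by
  rw [forall_span, hl D f hf]
  simp only [fn_vec F D _ hf]

theorem frame_indep {h : F.Pic → ℕ} {J : Ideal F.S} (hJ : J ∈ F.Hilb h)
    {l : ∀ D, Fin (h D) → (F.S →ₗ[ℂ] ℂ)} (hl : F.IsFrame h J l) (D : F.Pic) :
    LinearIndependent ℂ fun i => vec F D (l D i) := by
  rw [linearIndependent_iff_card_eq_finrank_span, Fintype.card_fin]
  exact (hJ.2 D).symm.trans (hf_eq F _ (frame_span F hl D))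

theorem exists_frame {h : F.Pic → ℕ} {J : Ideal F.S} (hJ : J ∈ F.Hilb h) :
    ∃ l, F.IsFrame h J l := by
  let b := fun D => Module.finBasisOfFinrankEq ℂ
    (F.piece D ⧸ (J.restrictScalars ℂ).submoduleOf (F.piece D)) (hJ.2 D)
  refine ⟨fun D i => (b D).coord i ∘ₗ Submodule.mkQ _ ∘ₗ
    (weightedHomogeneousComponent F.deg D).codRestrict (F.piece D)
      (fun f => weightedHomogeneousComponent_mem F.deg f D), fun D f hf => ?_⟩
  have e : (weightedHomogeneousComponent F.deg D).codRestrict (F.piece D)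
      (fun f => weightedHomogeneousComponent_mem F.deg f D) f = ⟨f, hf⟩ :=
    Subtype.ext (weightedHomogeneousComponent_eq_self hf)
  simp only [LinearMap.comp_apply, e]
  rw [(b D).forall_coord_eq_zero_iff, Submodule.mkQ_apply, Submodule.Quotient.mk_eq_zero]
  rfl

theorem ideal_ext {I J : Ideal F.S}
    (hI : ∀ f ∈ I, ∀ D, weightedHomogeneousComponent F.deg D f ∈ I)
    (h : ∀ D, ∀ f ∈ F.piece D, f ∈ I → f ∈ J) : I ≤ J := by
  intro f hf
  rw [← sum_weightedHomogeneousComponent F.deg f,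
    finsum_eq_sum _ (weightedHomogeneousComponent_finsupp f)]
  exact J.sum_mem fun D _ => h D _ (weightedHomogeneousComponent_mem F.deg f D) (hI f hf D)

/-- multiplication of a monomial by a variable. -/
noncomputable def shift (D : F.Pic) (ρ : Fin F.N) (e : F.Mon (D - F.deg ρ)) : F.Mon D :=
  ⟨Finsupp.single ρ 1 + e.1, by
    rw [map_add, e.2, Finsupp.weight_single, one_smul, add_sub_cancel]⟩

theorem fn_X_mul (D : F.Pic) (ρ : Fin F.N) (v : F.Mon D → ℂ) (f : F.S) :
    fn F D v (X ρ * f) = fn F (D - F.deg ρ) (fun e => v (shift F D ρ e)) f := by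
  have : fn F D v ∘ₗ LinearMap.mulLeft ℂ (X ρ) =
      fn F (D - F.deg ρ) (fun e => v (shift F D ρ e)) := by
    refine lin_ext F fun e => ?_
    rw [LinearMap.comp_apply, LinearMap.mulLeft_apply, X, monomial_mul, one_mul, fn_monomial,
      fn_monomial]
    by_cases h : Finsupp.weight F.deg e = D - F.deg ρ
    · rw [dif_pos h]
      exact dif_pos (shift F D ρ ⟨e, h⟩).2
    · rw [dif_neg h, dif_neg]
      intro h'
      apply h
      rw [map_add, Finsupp.weight_single, one_smul] at h'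
      rw [← h', add_sub_cancel_left]
  rw [← this]
  rfl

/-- the ideal cut out by a shift closed family of subspaces. -/
def annIdeal (V : ∀ D, Submodule ℂ (F.Mon D → ℂ))
    (hV : ∀ D ρ, ∀ v ∈ V D, (fun e => v (shift F D ρ e)) ∈ V (D - F.deg ρ)) : Ideal F.S where
  carrier := {f | ∀ D, ∀ v ∈ V D, fn F D v f = 0}
  add_mem' := fun {a b} ha hb D v hv => by rw [map_add, ha D v hv, hb D v hv, add_zero]
  zero_mem' := fun D v _ => map_zero _
  smul_mem' := fun p f hf => by
    rw [smul_eq_mul]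
    induction p using MvPolynomial.induction_on generalizing f with
    | C c =>
      intro D v hv
      rw [C_mul', map_smul, hf D v hv, smul_zero]
    | add p q hp hq =>
      intro D v hv
      rw [add_mul, map_add, hp f hf D v hv, hq f hf D v hv, add_zero]
    | mul_X p ρ hp =>
      rw [mul_assoc]
      refine hp _ fun D v hv => ?_
      rw [fn_X_mul]
      exact hf _ _ (hV D ρ v hv)

theorem mem_annIdeal {V : ∀ D, Submodule ℂ (F.Mon D → ℂ)}
    {hV : ∀ D ρ, ∀ v ∈ V D, (fun e => v (shift F D ρ e)) ∈ V (D - F.deg ρ)} (D : F.Pic)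
    (f : F.S) (hf : f ∈ F.piece D) : f ∈ annIdeal F V hV ↔ ∀ v ∈ V D, fn F D v f = 0 := by
  refine ⟨fun h => h D, fun h D' v hv => ?_⟩
  by_cases hD : D' = D
  · subst hD
    exact h v hv
  · exact fn_ne F hD v hf

theorem annIdeal_homog {V : ∀ D, Submodule ℂ (F.Mon D → ℂ)}
    {hV : ∀ D ρ, ∀ v ∈ V D, (fun e => v (shift F D ρ e)) ∈ V (D - F.deg ρ)} :
    ∀ f ∈ annIdeal F V hV, ∀ D, weightedHomogeneousComponent F.deg D f ∈ annIdeal F V hV := by
  intro f hf D
  rw [mem_annIdeal F D _ (weightedHomogeneousComponent_mem F.deg f D)]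
  intro v hv
  rw [fn_comp]
  exact hf D v hv

/-- the values of the monomials of degree `D` at a point. -/
def evv {L : Type} [CommRing L] (D : F.Pic) (z : Fin F.N → L) : F.Mon D → L :=
  fun e => ∏ ρ, z ρ ^ e.1 ρ

theorem evv_shift {L : Type} [CommRing L] (D : F.Pic) (ρ : Fin F.N) (z : Fin F.N → L) :
    (fun e => evv F D z (shift F D ρ e)) = z ρ • evv F (D - F.deg ρ) z := by
  funext e
  simp only [evv, shift, Finsupp.coe_add, Pi.add_apply, pow_add, Finset.prod_mul_distrib,
    Pi.smul_apply, smul_eq_mul]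
  congr 1
  rw [Finset.prod_eq_single ρ]
  · simp
  · intro b _ hb
    simp [Finsupp.single_apply, hb.symm]
  · simp

theorem fn_evv (D : F.Pic) (z : Fin F.N → ℂ) {f : F.S} (hf : f ∈ F.piece D) :
    fn F D (evv F D z) f = eval z f := by
  have : evv F D z = vec F D (aeval z : F.S →ₐ[ℂ] ℂ).toLinearMap := by
    funext e
    simp [evv, vec, aeval_monomial, Finsupp.prod_fintype]
  rw [this, fn_vec F D _ hf]
  rfl

theorem mem_idealOf {k : ℕ} (z : Fin k → Fin F.N → ℂ) (D : F.Pic) (f : F.S)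
    (hf : f ∈ F.piece D) : f ∈ F.idealOf z ↔
      ∀ u ∈ Submodule.span ℂ (Set.range fun i => evv F D (z i)), fn F D u f = 0 := by
  rw [forall_span]
  simp only [fn_evv F D _ hf]
  refine ⟨fun h i => ?_, fun h => Ideal.subset_span ⟨⟨D, hf⟩, h⟩⟩
  have : F.idealOf z ≤ RingHom.ker (eval (z i)) := by
    rw [Fan.idealOf, Ideal.span_le]
    exact fun g hg => hg.2 i
  exact this h

theorem idealOf_homog {k : ℕ} (z : Fin k → Fin F.N → ℂ) :
    ∀ f ∈ F.idealOf z, ∀ D, weightedHomogeneousComponent F.deg D f ∈ F.idealOf z := by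
  classical
  let _ := weightedGradedAlgebra ℂ F.deg
  intro f hf D
  exact weightedHomogeneousComponent_mem_of_mem ℂ F.deg
    (Ideal.homogeneous_span _ _ fun x hx => hx.1) hf D

end Pool.Agent.H619Z.Slip
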