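import Pool.Agent.H619Z.SlipB

set_option autoImplicit false

namespace Pool.Agent.H619Z.Slip

open MvPolynomial

variable (F : Fan)

/-- variables: coordinates of the points and coefficients of the frames. -/
abbrev Var (k : ℕ) : Type := (Fin k × Fin F.N) ⊕ (F.Pic × ℕ × Fin k)

/-- the generic frame vector, evaluated. -/
def yv {L : Type} [CommRing L] {k : ℕ} (x : Var F k → L) (D : F.Pic) (i : ℕ) : F.Mon D → L :=
  ∑ j : Fin k, x (Sum.inr (D, i, j)) • evv F D fun ρ => x (Sum.inl (j, ρ))

/-- the Pluecker coordinates of the generic frame, evaluated. -/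
noncomputable def pl {L : Type} [CommRing L] {k : ℕ} (x : Var F k → L)
    (t : Σ D, Fin (F.gen k D) → F.Mon D) : L :=
  (Matrix.of fun (i j : Fin (F.gen k t.1)) => yv F x t.1 i (t.2 j)).det

theorem map_pl {L L' : Type} [CommRing L] [CommRing L'] (g : L →+* L') {k : ℕ} (x : Var F k → L)
    (t : Σ D, Fin (F.gen k D) → F.Mon D) : g (pl F x t) = pl F (fun s => g (x s)) t := by
  rw [pl, RingHom.map_det, pl]
  congr 1
  ext i j
  simp [yv, evv, Finset.sum_apply]

theorem aeval_pl {L : Type} [CommRing L] [Algebra ℂ L] {k : ℕ} (x : Var F k → L)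
    (P : MvPolynomial (Σ D, Fin (F.gen k D) → F.Mon D) ℂ) :
    aeval x (aeval (pl F (X : Var F k → MvPolynomial (Var F k) ℂ)) P) = aeval (pl F x) P := by
  rw [← AlgHom.comp_apply, comp_aeval]
  congr 2
  funext t
  have := map_pl F (aeval x : MvPolynomial (Var F k) ℂ →ₐ[ℂ] L).toRingHom X t
  simpa using this

theorem yv_mem {L : Type} [Field L] {k : ℕ} (x : Var F k → L) (D : F.Pic) (i : ℕ) :
    yv F x D i ∈ Submodule.span L (Set.range fun j : Fin k =>
      evv F D fun ρ => x (Sum.inl (j, ρ))) :=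
  Submodule.sum_mem _ fun j _ => Submodule.smul_mem _ _ (Submodule.subset_span ⟨j, rfl⟩)

theorem gen_le (k : ℕ) (D : F.Pic) : F.gen k D ≤ k := min_le_left _ _

theorem gen_le' (k : ℕ) (D : F.Pic) : F.gen k D ≤ Fintype.card (F.Mon D) := by
  rw [← finrank_piece]
  exact min_le_right _ _

theorem finrank_span_le_gen {L : Type} [Field L] {k : ℕ} (D : F.Pic)
    (v : Fin k → F.Mon D → L) :
    Module.finrank L (Submodule.span L (Set.range v)) ≤ F.gen k D := by
  refine le_min ?_ ?_
  · exact (finrank_range_le_card (R := L) v).trans (Fintype.card_fin k).le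
  · rw [finrank_piece]
    simpa using Submodule.finrank_le (Submodule.span L (Set.range v))

theorem indep_of_det {L μ : Type} [Field L] {h : ℕ} (v : Fin h → μ → L) (c : Fin h → μ)
    (hd : (Matrix.of fun i j => v i (c j)).det ≠ 0) : LinearIndependent L v := by
  by_contra hv
  exact hd (det_cols_eq_zero v hv c)

theorem span_eq_of_indep {L μ : Type} [Field L] [Finite μ] {h : ℕ} (v : Fin h → μ → L)
    (hv : LinearIndependent L v) (W : Submodule L (μ → L)) (hvW : ∀ i, v i ∈ W)
    (hW : Module.finrank L W ≤ h) :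
    Submodule.span L (Set.range v) = W ∧ Module.finrank L W = h := by
  have hle : Submodule.span L (Set.range v) ≤ W := by
    rw [Submodule.span_le]
    rintro _ ⟨i, rfl⟩
    exact hvW i
  have h1 : Module.finrank L (Submodule.span L (Set.range v)) = h := by
    simpa using finrank_span_eq_card hv
  have h2 := Submodule.eq_of_le_of_finrank_le hle (by omega)
  exact ⟨h2, by rw [← h2, h1]⟩

theorem exists_u : ∃ u : Fin F.N → ℂ,
    Function.Injective fun e : Fin F.N →₀ ℕ => ∏ ρ, u ρ ^ e ρ := by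
  classical
  obtain ⟨u, hu⟩ := exists_general (σ := Fin F.N) (τ := (Fin F.N →₀ ℕ) × (Fin F.N →₀ ℕ))
    (fun p => if p.1 = p.2 then 1 else monomial p.1 1 - monomial p.2 1) (by
      rintro ⟨e, e'⟩
      by_cases h : e = e'
      · simp [h]
      · simp only [h, if_false, sub_ne_zero]
        exact fun h' => h (monomial_left_injective one_ne_zero h'))
  refine ⟨u, fun e e' h => ?_⟩
  by_contra hne
  apply hu (e, e')
  simp only [hne, if_false, map_sub, eval_monomial, one_mul, sub_eq_zero]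
  simpa [Finsupp.prod_fintype] using h

theorem exists_vand (D : F.Pic) (h : ℕ) (hh : h ≤ Fintype.card (F.Mon D)) :
    ∃ (u : Fin F.N → ℂ) (c : Fin h → F.Mon D),
      (Matrix.of fun i j : Fin h => evv F D (fun ρ => u ρ ^ (i : ℕ)) (c j)).det ≠ 0 := by
  obtain ⟨u, hu⟩ := exists_u F
  let c : Fin h → F.Mon D := fun j => (Fintype.equivFin (F.Mon D)).symm (Fin.castLE hh j)
  have hc : Function.Injective c :=
    (Fintype.equivFin (F.Mon D)).symm.injective.comp (Fin.castLE_injective hh)
  refine ⟨u, c, ?_⟩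
  have : (Matrix.of fun i j : Fin h => evv F D (fun ρ => u ρ ^ (i : ℕ)) (c j)) =
      (Matrix.vandermonde fun j => ∏ ρ, u ρ ^ (c j).1 ρ).transpose := by
    ext i j
    simp only [Matrix.of_apply, evv, Matrix.transpose_apply, Matrix.vandermonde_apply,
      ← Finset.prod_pow, ← pow_mul, mul_comm]
  rw [this, Matrix.det_transpose, Matrix.det_vandermonde_ne_zero_iff]
  exact hu.comp (Subtype.val_injective.comp hc)

theorem exists_pl_ne_zero (k : ℕ) (D : F.Pic) : ∃ c : Fin (F.gen k D) → F.Mon D,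
    pl F (X : Var F k → MvPolynomial (Var F k) ℂ) ⟨D, c⟩ ≠ 0 := by
  obtain ⟨u, c, hc⟩ := exists_vand F D _ (gen_le' F k D)
  refine ⟨c, fun h0 => hc ?_⟩
  let x : Var F k → ℂ := Sum.elim (fun p => u p.2 ^ (p.1 : ℕ))
    (fun p => if (p.2.2 : ℕ) = p.2.1 then 1 else 0)
  have h1 := map_pl F (eval x) X ⟨D, c⟩
  rw [h0, map_zero, pl] at h1
  rw [h1]
  congr 1
  ext i j
  simp only [Matrix.of_apply, yv, eval_X, Finset.sum_apply, Pi.smul_apply, smul_eq_mul, x,
    Sum.elim_inl, Sum.elim_inr]
  rw [Finset.sum_eq_single (Fin.castLE (gen_le F k D) i)]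
  · simp
  · intro b _ hb
    rw [if_neg, zero_mul]
    exact fun h => hb (Fin.ext h)
  · simp

theorem vanish_of_aeval {k : ℕ} (P : MvPolynomial (Σ D, Fin (F.gen k D) → F.Mon D) ℂ)
    (hP : aeval (pl F (X : Var F k → MvPolynomial (Var F k) ℂ)) P = 0) :
    ∀ I ∈ F.Sip k, ∀ l, F.IsFrame (F.gen k) I l → eval (F.plucker (F.gen k) l) P = 0 := by
  rintro I ⟨-, z, -, -, rfl⟩ l hl
  have hmem : ∀ D i, vec F D (l D i) ∈
      Submodule.span ℂ (Set.range fun j => evv F D (z j)) := by
    intro D i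
    refine mem_of_ann F _ _ fun f hf h => ?_
    rw [fn_vec F D _ hf]
    exact (hl D f hf).mp ((mem_idealOf F z D f hf).mpr h) i
  choose g hg using fun D i => (Submodule.mem_span_range_iff_exists_fun ℂ).mp (hmem D i)
  let x : Var F k → ℂ := Sum.elim (fun p => z p.1 p.2)
    (fun p => if h : p.2.1 < F.gen k p.1 then g p.1 ⟨p.2.1, h⟩ p.2.2 else 0)
  have h1 : pl F x = F.plucker (F.gen k) l := by
    funext t
    rw [pl, Fan.plucker]
    congr 1
    ext i j
    have := congrFun (hg t.1 i) (t.2 j)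
    simp only [Matrix.of_apply, yv, x, Sum.elim_inl, Sum.elim_inr, Fin.is_lt, dif_pos]
    exact this
  have h2 := aeval_pl F x P
  rw [hP, map_zero, h1] at h2
  exact h2.symm

theorem aeval_of_vanish {k : ℕ} (Q : Fin k × Fin k → MvPolynomial (Var F k) ℂ)
    (hQ0 : ∀ t, Q t ≠ 0) (hQ : ∀ x : Var F k → ℂ, (∀ t, eval x (Q t) ≠ 0) → ∀ i j, i ≠ j →
      ¬ F.SamePoint (fun ρ => x (Sum.inl (i, ρ))) (fun ρ => x (Sum.inl (j, ρ))))
    (P : MvPolynomial (Σ D, Fin (F.gen k D) → F.Mon D) ℂ)
    (hP : ∀ I ∈ F.Sip k, ∀ l, F.IsFrame (F.gen k) I l → eval (F.plucker (F.gen k) l) P = 0) :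
    aeval (pl F (X : Var F k → MvPolynomial (Var F k) ℂ)) P = 0 := by
  by_contra h0
  choose c hc using exists_pl_ne_zero F k
  obtain ⟨x, hx⟩ := exists_general (σ := Var F k)
    (τ := Option ((Fin k × Fin k) ⊕ Var F k ⊕ F.Pic))
    (fun t => t.elim (aeval (pl F (X : Var F k → MvPolynomial (Var F k) ℂ)) P)
      (Sum.elim Q (Sum.elim X fun D => pl F X ⟨D, c D⟩))) (by
      rintro (_ | t | s | D)
      · exact h0
      · exact hQ0 t
      · exact X_ne_zero s
      · exact hc D)
  let z : Fin k → Fin F.N → ℂ := fun j ρ => x (Sum.inl (j, ρ))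
  have hind : ∀ D, LinearIndependent ℂ fun i : Fin (F.gen k D) => yv F x D i := by
    intro D
    refine indep_of_det _ (c D) ?_
    have h1 := hx (some (Sum.inr (Sum.inr D)))
    have h2 := map_pl F (eval x) X ⟨D, c D⟩
    simp only [eval_X] at h2
    simp only [Option.elim, Sum.elim_inr] at h1
    rw [h2] at h1
    exact h1
  have hsp := fun D => span_eq_of_indep _ (hind D) _ (fun i => yv_mem F x D i)
    (finrank_span_le_gen F D _)
  have hI : F.idealOf z ∈ F.Sip k := by
    refine ⟨⟨idealOf_homog F z, fun D => ?_⟩, z, fun i => ?_,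
      hQ x fun t => hx (some (Sum.inl t)), rfl⟩
    · rw [hf_eq F _ (mem_idealOf F z D)]
      exact (hsp D).2
    · obtain ⟨σ, hσ, -⟩ := F.complete 0
      refine ⟨σ, hσ, fun ρ _ => ?_⟩
      simpa using hx (some (Sum.inr (Sum.inl (Sum.inl (i, ρ)))))
  have hl : F.IsFrame (F.gen k) (F.idealOf z) fun D i => fn F D (yv F x D i) := by
    intro D f hf
    rw [mem_idealOf F z D f hf, ← forall_span, (hsp D).1]
  have h1 := hP _ hI _ hl
  have h2 : F.plucker (F.gen k) (fun D i => fn F D (yv F x D i)) = pl F x := by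
    funext t
    rw [pl, Fan.plucker]
    congr 1
    ext i j
    exact fn_mon F _ _ _
  rw [h2] at h1
  apply hx none
  exact (aeval_pl F x P).trans h1

theorem exists_sep {r k : ℕ} (hk : k ≤ r) (hr : (F.Sip r).Nonempty) :
    ∃ Q : Fin k × Fin k → MvPolynomial (Var F k) ℂ,
      (∀ t, Q t ≠ 0) ∧ ∀ x : Var F k → ℂ, (∀ t, eval x (Q t) ≠ 0) → ∀ i j, i ≠ j →
        ¬ F.SamePoint (fun ρ => x (Sum.inl (i, ρ))) (fun ρ => x (Sum.inl (j, ρ))) := by
  classical
  rcases isEmpty_or_nonempty (Fin F.N) with hN | ⟨⟨ρ₀⟩⟩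
  · refine ⟨fun _ => 1, fun _ => one_ne_zero, fun x _ i j hij _ => ?_⟩
    obtain ⟨I, -, z, -, hz, -⟩ := hr
    refine hz (Fin.castLE hk i) (Fin.castLE hk j) (fun h => hij (Fin.castLE_injective hk h)) ?_
    exact ⟨1, by simp, fun ρ => hN.elim ρ⟩
  · obtain ⟨σ, hσ, hρσ⟩ := F.ray_mem ρ₀
    have hne : F.ray ρ₀ ≠ 0 := (F.smooth σ hσ).1.ne_zero ⟨ρ₀, hρσ⟩
    obtain ⟨i₀, hi₀⟩ := Function.ne_iff.mp hne
    let p : Fin F.N → ℕ := fun ρ => (F.ray ρ i₀).toNat
    let q : Fin F.N → ℕ := fun ρ => (-F.ray ρ i₀).toNat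
    have hpq : ∀ ρ, (p ρ : ℤ) - q ρ = F.ray ρ i₀ := fun ρ => Int.toNat_sub_toNat_neg _
    refine ⟨fun t => if t.1 = t.2 then 1 else
      (∏ ρ, X (Sum.inl (t.1, ρ)) ^ p ρ) * (∏ ρ, X (Sum.inl (t.2, ρ)) ^ q ρ) -
      (∏ ρ, X (Sum.inl (t.1, ρ)) ^ q ρ) * (∏ ρ, X (Sum.inl (t.2, ρ)) ^ p ρ), ?_, ?_⟩
    · rintro ⟨i, j⟩
      by_cases hij : i = j
      · simp [hij]
      · simp only [hij, if_false]
        intro h0
        have h1 := congrArg (eval fun s : Var F k => if s = Sum.inl (i, ρ₀) then (2 : ℂ) else 1) h0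
        have e : ∀ a : Fin F.N → ℕ, ∏ ρ, (if ρ = ρ₀ then (2 : ℂ) else 1) ^ a ρ = 2 ^ a ρ₀ := by
          intro a
          rw [Finset.prod_eq_single ρ₀]
          · simp
          · intro b _ hb
            simp [hb]
          · simp
        simp only [map_sub, map_mul, map_prod, map_pow, eval_X, Sum.inl.injEq, Prod.mk.injEq,
          true_and, Ne.symm hij, false_and, if_false, one_pow, Finset.prod_const_one, mul_one,
          map_zero, e, sub_eq_zero] at h1
        have h2 : p ρ₀ = q ρ₀ := by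
          have : ((2 ^ p ρ₀ : ℕ) : ℂ) = ((2 ^ q ρ₀ : ℕ) : ℂ) := by exact_mod_cast h1
          exact Nat.pow_right_injective le_rfl (Nat.cast_injective this)
        have h3 := hpq ρ₀
        rw [h2, sub_self] at h3
        exact hi₀ h3.symm
    · rintro x hx i j hij ⟨t, ht, hz⟩
      apply hx (i, j)
      have h1 : ∏ ρ, (t ρ : ℂ) ^ p ρ = ∏ ρ, (t ρ : ℂ) ^ q ρ := by
        have h2 := ht (Pi.single i₀ 1)
        simp only [single_dotProduct, one_mul, ← hpq, zpow_sub, zpow_natCast,
          Finset.prod_mul_distrib, Finset.prod_inv_distrib, mul_inv_eq_one] at h2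
        have := congrArg (Units.val) h2
        simpa using this
      simp only at hz
      simp only [hij, if_false, map_sub, map_mul, map_prod, map_pow, eval_X, hz, mul_pow,
        Finset.prod_mul_distrib, h1]
      ring

theorem main (r : ℕ) (I : Ideal F.S) (hI : I ∈ F.Slip r) :
    ∃ c : ℕ → Ideal F.S, c r = I ∧ c 0 = ⊤ ∧ (∀ k < r, c (k + 1) ≤ c k) ∧
      ∀ k ≤ r, c k ∈ F.Slip k := by
  classical
  obtain ⟨l₀, hl₀⟩ := exists_frame F hI.1
  have hne : (F.Sip r).Nonempty := by
    by_contra h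
    have := hI.2 1 (fun J hJ => absurd ⟨J, hJ⟩ h) l₀ hl₀
    simp at this
  let K := FractionRing (MvPolynomial (Var F r) ℂ)
  let a : MvPolynomial (Var F r) ℂ →ₐ[ℂ] K := IsScalarTower.toAlgHom ℂ _ _
  have ha : Function.Injective a := IsFractionRing.injective _ _
  let x₀ : Var F r → K := fun s => a (X s)
  have hax : (aeval x₀ : MvPolynomial (Var F r) ℂ →ₐ[ℂ] K) = a := by
    ext s
    simp [x₀]
  obtain ⟨R, φ, hR, hφ⟩ := exists_place (pl F x₀) (F.plucker (F.gen r) l₀) fun P hP => by
    refine hI.2 P (vanish_of_aeval F P (ha ?_)) l₀ hl₀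
    rw [← hax, aeval_pl, hP, map_zero]
  let z : ℕ → Fin F.N → K := fun j ρ => if h : j < r then x₀ (Sum.inl (⟨j, h⟩, ρ)) else 0
  have hz : ∀ j : Fin r, z j = fun ρ => x₀ (Sum.inl (j, ρ)) := fun j => by
    funext ρ
    simp [z]
  let W : ∀ (_ : ℕ) (D : F.Pic), Submodule K (F.Mon D → K) := fun k D =>
    Submodule.span K (Set.range fun j : Fin k => evv F D (z j))
  have hWr : ∀ k ≤ r, ∀ D, Module.finrank K (W k D) = F.gen k D := by
    intro k hk D
    obtain ⟨u, c, hc⟩ := exists_vand F D _ (gen_le' F k D)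
    refine (span_eq_of_indep (fun i : Fin (F.gen k D) => evv F D (z i)) (indep_of_det _ c ?_)
      (W k D)
      (fun i => Submodule.subset_span ⟨Fin.castLE (gen_le F k D) i, rfl⟩)
      (finrank_span_le_gen F D _)).2
    let M : Matrix (Fin (F.gen k D)) (Fin (F.gen k D)) (MvPolynomial (Var F r) ℂ) :=
      Matrix.of fun i j => evv F D
        (fun ρ => X (Sum.inl (Fin.castLE ((gen_le F k D).trans hk) i, ρ))) (c j)
    have h1 : M.det ≠ 0 := by
      intro h0
      apply hc
      have := RingHom.map_det (eval (Sum.elim (fun p => u p.2 ^ (p.1 : ℕ)) fun _ => 0 :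
        Var F r → ℂ)) M
      rw [h0, map_zero] at this
      rw [this]
      congr 1
      ext i j
      simp [M, evv]
    intro h0
    apply h1
    apply ha
    rw [map_zero, ← h0, AlgHom.map_det]
    congr 1
    ext i j
    have hi : (i : ℕ) < r := lt_of_lt_of_le i.2 ((gen_le F k D).trans hk)
    simp only [M, evv, AlgHom.mapMatrix_apply, Matrix.map_apply, Matrix.of_apply, map_prod,
      map_pow, z, dif_pos hi]
    rfl
  have hshift : ∀ k D ρ, ∀ v ∈ red R φ (W k D),
      (fun e => v (shift F D ρ e)) ∈ red R φ (W k (D - F.deg ρ)) := by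
    rintro k D ρ _ ⟨w, hw, rfl⟩
    refine ⟨fun e => w (shift F D ρ e), ?_, rfl⟩
    have : W k D ≤ (W k (D - F.deg ρ)).comap (LinearMap.funLeft K K (shift F D ρ)) := by
      rw [Submodule.span_le]
      rintro _ ⟨j, rfl⟩
      change (fun e => evv F D (z j) (shift F D ρ e)) ∈ W k (D - F.deg ρ)
      rw [evv_shift]
      exact Submodule.smul_mem _ _ (Submodule.subset_span ⟨j, rfl⟩)
    exact this hw
  let c : ℕ → Ideal F.S := fun k => annIdeal F (fun D => red R φ (W k D)) (hshift k)
  have hcH : ∀ k ≤ r, c k ∈ F.Hilb (F.gen k) := fun k hk =>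
    ⟨annIdeal_homog F, fun D => by
      rw [hf_eq F _ (mem_annIdeal F D), finrank_red R φ hR, hWr k hk]⟩
  refine ⟨c, ?_, ?_, fun k _ => ?_, fun k hk => ⟨hcH k hk, fun P hP l hl => ?_⟩⟩
  · have key : ∀ D, Submodule.span ℂ (Set.range fun i => vec F D (l₀ D i)) =
        red R φ (W r D) := by
      intro D
      symm
      refine Submodule.eq_of_le_of_finrank_le ?_ ?_
      · rintro _ ⟨w, hw, rfl⟩
        by_contra hv
        obtain ⟨s, hs⟩ := exists_det_cols_ne_zero _
          (linearIndependent_finCons.mpr ⟨frame_indep F hI.1 hl₀ D, hv⟩)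
        apply hs
        rw [det_cons]
        have hdep : ¬ LinearIndependent K (Fin.cons (fun e => (w e : K))
            (fun i : Fin (F.gen r D) => yv F x₀ D i) : Fin (F.gen r D + 1) → F.Mon D → K) := by
          intro hli
          have := (span_eq_of_indep _ hli (W r D) (fun i => ?_)
            ((hWr r le_rfl D).le.trans (Nat.le_succ _))).2
          · rw [hWr r le_rfl D] at this
            omega
          · refine Fin.cases hw (fun i => ?_) i
            have := yv_mem F x₀ D i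
            simp only [← hz] at this
            exact this
        have h1 := det_cols_eq_zero _ hdep s
        rw [det_cons] at h1
        choose hy hφy using hφ
        have h2 : ∑ j : Fin (F.gen r D + 1), (-1) ^ (j : ℕ) * w (s j) *
            (⟨pl F x₀ ⟨D, fun j' => s (j.succAbove j')⟩, hy _⟩ : R) = 0 := by
          apply Subtype.ext
          rw [ZeroMemClass.coe_zero, ← h1]
          simp [pl]
        have h3 := congrArg φ h2
        simp only [map_sum, map_mul, map_pow, map_neg, map_one, map_zero, hφy] at h3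
        exact h3
      · rw [finrank_red R φ hR, hWr r le_rfl]
        exact (finrank_range_le_card (R := ℂ) fun i => vec F D (l₀ D i)).trans
          (Fintype.card_fin _).le
    have hiff : ∀ D, ∀ f ∈ F.piece D, f ∈ c r ↔ f ∈ I := fun D f hf => by
      rw [mem_annIdeal F D f hf, frame_span F hl₀ D f hf, key]
    exact le_antisymm (ideal_ext F (hcH r le_rfl).1 fun D f hf => (hiff D f hf).mp)
      (ideal_ext F hI.1.1 fun D f hf => (hiff D f hf).mpr)
  · rw [eq_top_iff]
    intro f _ D v hv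
    have h0 : red R φ (W 0 D) = ⊥ := by
      rw [← Submodule.finrank_eq_zero, finrank_red R φ hR, hWr 0 (Nat.zero_le _)]
      exact Nat.le_zero.mp (gen_le F 0 D)
    change v ∈ red R φ (W 0 D) at hv
    rw [h0, Submodule.mem_bot] at hv
    simp [hv]
  · intro f hf D v hv
    refine hf D v (red_mono R φ (Submodule.span_mono ?_) hv)
    rintro _ ⟨j, rfl⟩
    exact ⟨j.castSucc, rfl⟩
  · obtain ⟨Q, hQ0, hQ⟩ := exists_sep F hk hne
    have hP0 := aeval_of_vanish F Q hQ0 hQ P hP
    have hmem : ∀ D i, vec F D (l D i) ∈ red R φ (W k D) := by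
      intro D i
      refine mem_of_ann F _ _ fun f hf h => ?_
      rw [fn_vec F D _ hf]
      exact (hl D f hf).mp ((mem_annIdeal F D f hf).mpr h) i
    choose w hw hwl using hmem
    choose g hg using fun D i => (Submodule.mem_span_range_iff_exists_fun K).mp (hw D i)
    let x : Var F k → K := Sum.elim (fun p => z p.1 p.2)
      (fun p => if h : p.2.1 < F.gen k p.1 then g p.1 ⟨p.2.1, h⟩ p.2.2 else 0)
    let p : (Σ D, Fin (F.gen k D) → F.Mon D) → R := fun t =>
      (Matrix.of fun i j => w t.1 i (t.2 j)).det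
    have h1 : pl F x = fun t => R.val (p t) := by
      funext t
      rw [pl, AlgHom.map_det]
      congr 1
      ext i j
      have := congrFun (hg t.1 i) (t.2 j)
      simp only [Matrix.of_apply, yv, x, Sum.elim_inl, Sum.elim_inr, Fin.is_lt, dif_pos]
      exact this
    have h2 : F.plucker (F.gen k) l = fun t => φ (p t) := by
      funext t
      rw [Fan.plucker, AlgHom.map_det]
      congr 1
      ext i j
      exact congrFun (hwl t.1 i) (t.2 j)
    have h3 := aeval_pl F x P
    rw [hP0, map_zero, h1, ← comp_aeval, AlgHom.comp_apply] at h3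
    have h4 : aeval p P = 0 := Subtype.ext h3.symm
    have h5 : aeval (fun t => φ (p t)) P = 0 := by
      rw [← comp_aeval, AlgHom.comp_apply, h4, map_zero]
    rw [h2]
    exact h5

end Pool.Agent.H619Z.Slip
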