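import Mathlib

set_option autoImplicit false

namespace Pool.Agent.H619Z.Slip

open MvPolynomial

/-- The real cone spanned by the rays with index in `σ`. -/
def cone {n N : ℕ} (ray : Fin N → Fin n → ℤ) (σ : Finset (Fin N)) : Set (Fin n → ℝ) :=
  {x | ∃ a : Fin N → ℝ, (∀ ρ, 0 ≤ a ρ) ∧ x = ∑ ρ ∈ σ, a ρ • fun i => (ray ρ i : ℝ)}

/-- A smooth complete fan in `ℤ^n` with `N` rays, given by its primitive ray generators and its
maximal cones (sets of rays). -/
structure Fan where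
  n : ℕ
  N : ℕ
  ray : Fin N → Fin n → ℤ
  cones : Set (Finset (Fin N))
  ray_injective : Function.Injective ray
  ray_mem : ∀ ρ, ∃ σ ∈ cones, ρ ∈ σ
  smooth : ∀ σ ∈ cones, LinearIndependent ℤ (fun ρ : σ => ray ρ) ∧
    Submodule.span ℤ (ray '' σ) = ⊤
  inter : ∀ σ ∈ cones, ∀ τ ∈ cones, cone ray σ ∩ cone ray τ = cone ray (σ ∩ τ)
  complete : ∀ x : Fin n → ℝ, ∃ σ ∈ cones, x ∈ cone ray σ

variable (F : Fan)

/-- The Picard group `ℤ^N / M`, a character `m` being sent to the divisor `ρ ↦ ⟨m, ray ρ⟩`. -/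
abbrev Fan.Pic : Type :=
  (Fin F.N → ℤ) ⧸ AddSubgroup.closure (Set.range fun m : Fin F.n → ℤ => fun ρ => m ⬝ᵥ F.ray ρ)

/-- The degree of the variable `x_ρ` of the Cox ring. -/
def Fan.deg (ρ : Fin F.N) : F.Pic := QuotientAddGroup.mk (Pi.single ρ 1)

/-- The Cox ring. -/
abbrev Fan.S : Type := MvPolynomial (Fin F.N) ℂ

/-- The piece `S_D` of the Cox ring. -/
noncomputable abbrev Fan.piece (D : F.Pic) : Submodule ℂ F.S :=
  weightedHomogeneousSubmodule ℂ F.deg D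

/-- The exponent vectors of the monomials of degree `D`. -/
abbrev Fan.Mon (D : F.Pic) : Type := {e : Fin F.N →₀ ℕ // Finsupp.weight F.deg e = D}

/-- Homogeneous coordinates of a point of `X`: a point off the zero set of the irrelevant
ideal. -/
def Fan.IsPoint (z : Fin F.N → ℂ) : Prop := ∃ σ ∈ F.cones, ∀ ρ, ρ ∉ σ → z ρ ≠ 0

/-- `z` and `z'` lie in one orbit of `G = Hom(Pic X, ℂˣ)`, so give the same point of `X`. -/
def Fan.SamePoint (z z' : Fin F.N → ℂ) : Prop :=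
  ∃ t : Fin F.N → ℂˣ, (∀ m : Fin F.n → ℤ, ∏ ρ, t ρ ^ (m ⬝ᵥ F.ray ρ) = 1) ∧
    ∀ ρ, z' ρ = t ρ * z ρ

/-- The ideal `I_Z`, generated by the homogeneous polynomials vanishing at the points. -/
noncomputable def Fan.idealOf {k : ℕ} (z : Fin k → Fin F.N → ℂ) : Ideal F.S :=
  Ideal.span {f | (∃ D, f ∈ F.piece D) ∧ ∀ i, eval (z i) f = 0}

/-- `dim (S/J)_D`. -/
noncomputable def Fan.hf (J : Ideal F.S) (D : F.Pic) : ℕ :=
  Module.finrank ℂ (F.piece D ⧸ (J.restrictScalars ℂ).submoduleOf (F.piece D))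

/-- The generic Hilbert function `h_{k,X}`. -/
noncomputable def Fan.gen (k : ℕ) (D : F.Pic) : ℕ := min k (Module.finrank ℂ (F.piece D))

/-- The points of the multigraded Hilbert scheme: homogeneous ideals with Hilbert function `h`. -/
def Fan.Hilb (h : F.Pic → ℕ) : Set (Ideal F.S) :=
  {J | (∀ f ∈ J, ∀ D, weightedHomogeneousComponent F.deg D f ∈ J) ∧ ∀ D, F.hf J D = h D}

/-- In each degree `D`, `h D` linear forms that cut out `J_D` in `S_D`. -/
def Fan.IsFrame (h : F.Pic → ℕ) (J : Ideal F.S)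
    (l : ∀ D, Fin (h D) → (F.S →ₗ[ℂ] ℂ)) : Prop :=
  ∀ D, ∀ f ∈ F.piece D, f ∈ J ↔ ∀ i, l D i f = 0

/-- The Pluecker coordinates of all the subspaces `J_D ⊆ S_D`, computed from a frame. -/
noncomputable def Fan.plucker (h : F.Pic → ℕ) (l : ∀ D, Fin (h D) → (F.S →ₗ[ℂ] ℂ))
    (t : Σ D, Fin (h D) → F.Mon D) : ℂ :=
  (Matrix.of fun i j => l t.1 i (monomial (t.2 j).1 1)).det

/-- The Zariski closure of `A` in the multigraded Hilbert scheme, embedded in the product of the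
Grassmannians of the `S_D`: every polynomial in the Pluecker coordinates that vanishes on `A`
vanishes at `J`. -/
def Fan.closure (h : F.Pic → ℕ) (A : Set (Ideal F.S)) : Set (Ideal F.S) :=
  {J | J ∈ F.Hilb h ∧ ∀ P : MvPolynomial (Σ D, Fin (h D) → F.Mon D) ℂ,
    (∀ I ∈ A, ∀ l, F.IsFrame h I l → eval (F.plucker h l) P = 0) →
      ∀ l, F.IsFrame h J l → eval (F.plucker h l) P = 0}

/-- The ideals of `k` distinct points with the generic Hilbert function. -/
def Fan.Sip (k : ℕ) : Set (Ideal F.S) :=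
  {J | J ∈ F.Hilb (F.gen k) ∧ ∃ z : Fin k → Fin F.N → ℂ, (∀ i, F.IsPoint (z i)) ∧
    (∀ i j, i ≠ j → ¬ F.SamePoint (z i) (z j)) ∧ J = F.idealOf z}

/-- `Slip_{k,X}`. -/
def Fan.Slip (k : ℕ) : Set (Ideal F.S) := F.closure (F.gen k) (F.Sip k)

end Pool.Agent.H619Z.Slip
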