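import Mathlib
import Pool.Agent.Helper743.Oracle

set_option autoImplicit false

/-! Oracle machines indexed by numbers, least witnesses of convergence, the jump. -/

namespace Pool.Agent.H619Z.TJ

open Pool.Agent.Helper743 Encodable
open Nat.Partrec (Code)

def stepL (σ : List ℕ) (m s : ℕ) : Option ℕ :=
  Code.evaln s (Denumerable.ofNat Code m.unpair.1) (Nat.pair (encode σ) m.unpair.2)

def step (g : ℕ → ℕ) (m j : ℕ) : Option ℕ := stepL (pre g j.unpair.1) m j.unpair.2

def wit (g : ℕ → ℕ) : ℕ →. ℕ := fun m => Nat.rfind (fun j => Part.some (step g m j).isSome)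

def phi (g : ℕ → ℕ) : ℕ →. ℕ := fun m => (wit g m).map (fun j => (step g m j).getD 0)

open Classical in
noncomputable def jw (g : ℕ → ℕ) (m : ℕ) : ℕ :=
  if h : ∃ j, (step g m j).isSome then Nat.find h + 1 else 0

lemma pre_congr {g g' : ℕ → ℕ} {k : ℕ} (h : ∀ i < k, g' i = g i) : pre g' k = pre g k := by
  unfold pre
  apply List.map_congr_left
  intro i hi
  exact h i (List.mem_range.1 hi)

lemma step_congr {g g' : ℕ → ℕ} {m j : ℕ} (h : ∀ i < j, g' i = g i) :
    step g' m j = step g m j := by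
  unfold step
  rw [pre_congr (fun i hi => h i (lt_of_lt_of_le hi (Nat.unpair_left_le j)))]

lemma jw_eq_succ {g : ℕ → ℕ} {m j : ℕ} :
    jw g m = j + 1 ↔ (step g m j).isSome ∧ ∀ i < j, ¬ (step g m i).isSome := by
  unfold jw
  split_ifs with h
  · rw [Nat.add_right_cancel_iff, Nat.find_eq_iff]
  · constructor
    · intro h'; exact absurd h' (by simp)
    · intro h'; exact absurd ⟨j, h'.1⟩ h

lemma jw_eq_zero {g : ℕ → ℕ} {m : ℕ} : jw g m = 0 ↔ ∀ j, ¬ (step g m j).isSome := by
  unfold jw
  split_ifs with h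
  · constructor
    · intro h'; exact absurd h' (by simp)
    · intro h'; obtain ⟨j, hj⟩ := h; exact absurd hj (h' j)
  · simp only [true_iff]
    intro j hj; exact h ⟨j, hj⟩

lemma jw_local {g g' : ℕ → ℕ} {m j : ℕ} (h : jw g m = j + 1) (hg : ∀ i < j, g' i = g i) :
    jw g' m = j + 1 := by
  rw [jw_eq_succ] at h ⊢
  refine ⟨by rw [step_congr hg]; exact h.1, fun i hi => ?_⟩
  rw [step_congr (fun k hk => hg k (by omega))]
  exact h.2 i hi

lemma mem_wit {g : ℕ → ℕ} {m j : ℕ} : j ∈ wit g m ↔ jw g m = j + 1 := by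
  unfold wit
  rw [Nat.mem_rfind, jw_eq_succ]
  simp only [Part.mem_some_iff]
  constructor
  · rintro ⟨h1, h2⟩
    exact ⟨h1.symm, fun i hi => by rw [← h2 hi]; simp⟩
  · rintro ⟨h1, h2⟩
    exact ⟨h1.symm, fun {i} hi => by have := h2 i hi; simp_all⟩

lemma mem_phi {g : ℕ → ℕ} {m v : ℕ} :
    v ∈ phi g m ↔ ∃ j, jw g m = j + 1 ∧ step g m j = some v := by
  unfold phi
  rw [Part.mem_map_iff]
  constructor
  · rintro ⟨j, hj, rfl⟩
    rw [mem_wit] at hj
    refine ⟨j, hj, ?_⟩
    obtain ⟨v, hv⟩ := Option.isSome_iff_exists.1 (jw_eq_succ.1 hj).1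
    rw [hv]; rfl
  · rintro ⟨j, hj, hv⟩
    exact ⟨j, mem_wit.2 hj, by rw [hv]; rfl⟩

lemma phi_dom {g : ℕ → ℕ} {m : ℕ} : (phi g m).Dom ↔ jw g m ≠ 0 := by
  rw [Part.dom_iff_mem]
  constructor
  · rintro ⟨v, hv⟩
    obtain ⟨j, hj, -⟩ := mem_phi.1 hv
    omega
  · intro h
    obtain ⟨j, hj⟩ := Nat.exists_eq_succ_of_ne_zero h
    obtain ⟨v, hv⟩ := Option.isSome_iff_exists.1 (jw_eq_succ.1 hj).1
    exact ⟨v, mem_phi.2 ⟨j, hj, hv⟩⟩

lemma wit_dom {g : ℕ → ℕ} {m : ℕ} : (wit g m).Dom ↔ jw g m ≠ 0 := by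
  rw [Part.dom_iff_mem]
  constructor
  · rintro ⟨v, hv⟩
    have := mem_wit.1 hv
    omega
  · intro h
    obtain ⟨j, hj⟩ := Nat.exists_eq_succ_of_ne_zero h
    exact ⟨j, mem_wit.2 hj⟩

lemma phi_local {g : ℕ → ℕ} {m v : ℕ} (h : v ∈ phi g m) :
    ∃ j, ∀ g' : ℕ → ℕ, (∀ i < j, g' i = g i) → v ∈ phi g' m := by
  obtain ⟨j, hj, hv⟩ := mem_phi.1 h
  exact ⟨j, fun g' hg => mem_phi.2 ⟨j, jw_local hj hg, by rw [step_congr hg]; exact hv⟩⟩

theorem complete {g : ℕ → ℕ} {f : ℕ →. ℕ} (hf : Nat.RecursiveIn {(g : ℕ →. ℕ)} f) :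
    ∃ e, ∀ n, f n = phi g (Nat.pair e n) := by
  obtain ⟨ev, hc, -, hev⟩ := use_principle g f hf
  have h1 : Computable (fun z : ℕ =>
      ev ((decode (α := List ℕ) z.unpair.1).getD []) z.unpair.2) :=
    hc.comp (Computable.option_getD (Computable.decode.comp
      (Computable.fst.comp Computable.unpair)) (Computable.const []))
      (Computable.snd.comp Computable.unpair)
  have h2 : Nat.Partrec (fun z : ℕ =>
      (ev ((decode (α := List ℕ) z.unpair.1).getD []) z.unpair.2 : Part ℕ)) :=
    Partrec.nat_iff.1 (Computable.ofOption h1)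
  obtain ⟨c, hc'⟩ := Code.exists_code.1 h2
  refine ⟨encode c, fun n => ?_⟩
  have key : ∀ j v, step g (Nat.pair (encode c) n) j = some v → v ∈ f n := by
    intro j v hv
    unfold step stepL at hv
    simp only [Nat.unpair_pair, Denumerable.ofNat_encode] at hv
    have := Code.evaln_sound (Option.mem_def.2 hv)
    rw [hc'] at this
    simp only [Nat.unpair_pair, encodek, Option.getD_some, Part.mem_coe] at this
    exact (hev n v).2 ⟨_, this⟩
  apply Part.ext
  intro v
  constructor
  · intro hv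
    obtain ⟨k, hk⟩ := (hev n v).1 hv
    have h3 : v ∈ c.eval (Nat.pair (encode (pre g k)) n) := by
      rw [hc']
      simp only [Nat.unpair_pair, encodek, Option.getD_some, Part.mem_coe]
      exact hk
    obtain ⟨s, hs⟩ := Code.evaln_complete.1 h3
    have h4 : jw g (Nat.pair (encode c) n) ≠ 0 := by
      intro h0
      apply jw_eq_zero.1 h0 (Nat.pair k s)
      unfold step stepL
      simp only [Nat.unpair_pair, Denumerable.ofNat_encode]
      rw [Option.mem_def.1 hs]; rfl
    obtain ⟨v', hv'⟩ := Part.dom_iff_mem.1 (phi_dom.2 h4)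
    obtain ⟨j, -, hj⟩ := mem_phi.1 hv'
    rw [Part.mem_unique hv (key j v' hj)]
    exact hv'
  · intro hv
    obtain ⟨j, -, hj⟩ := mem_phi.1 hv
    exact key j v hj

lemma computable_stepL : Computable (fun q : List ℕ × ℕ × ℕ => stepL q.1 q.2.1 q.2.2) := by
  unfold stepL
  have h1 : Primrec (fun q : List ℕ × ℕ × ℕ => q.2.2) := Primrec.snd.comp Primrec.snd
  have h2 : Primrec (fun q : List ℕ × ℕ × ℕ => Denumerable.ofNat Code q.2.1.unpair.1) :=
    (Primrec.ofNat Code).comp (Primrec.fst.comp (Primrec.unpair.comp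
      (Primrec.fst.comp Primrec.snd)))
  have h3 : Primrec (fun q : List ℕ × ℕ × ℕ => Nat.pair (encode q.1) q.2.1.unpair.2) :=
    Primrec₂.natPair.comp (Primrec.encode.comp Primrec.fst)
      (Primrec.snd.comp (Primrec.unpair.comp (Primrec.fst.comp Primrec.snd)))
  exact (Code.primrec_evaln.comp ((h1.pair h2).pair h3)).to_comp

/-- any computable function of a step is recursive in the oracle -/
lemma recT_step {O : Set (ℕ →. ℕ)} {g : ℕ → ℕ} (hg : RecT O g) {F : Option ℕ → ℕ}
    (hF : Computable F) : RecT O (fun z => F (step g z.unpair.1 z.unpair.2)) := by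
  have h1 : Computable (fun y : ℕ => F (stepL ((decode (α := List ℕ) y.unpair.1).getD [])
      y.unpair.2.unpair.1 y.unpair.2.unpair.2.unpair.2)) := by
    have a1 : Computable (fun z : ℕ => (decode (α := List ℕ) z.unpair.1).getD []) :=
      Computable.option_getD (Computable.decode.comp (Computable.fst.comp Computable.unpair))
        (Computable.const [])
    have a2 : Computable (fun z : ℕ => z.unpair.2.unpair.1) :=
      Computable.fst.comp (Computable.unpair.comp (Computable.snd.comp Computable.unpair))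
    have a3 : Computable (fun z : ℕ => z.unpair.2.unpair.2.unpair.2) :=
      Computable.snd.comp (Computable.unpair.comp
        (Computable.snd.comp (Computable.unpair.comp (Computable.snd.comp Computable.unpair))))
    have a4 := hF.comp (computable_stepL.comp (a1.pair (a2.pair a3)))
    exact a4.of_eq (fun _ => rfl)
  have b1 : Computable (fun z : ℕ => z.unpair.2.unpair.1) :=
    Computable.fst.comp (Computable.unpair.comp (Computable.snd.comp Computable.unpair))
  have h2 : RecT O (fun z => Nat.pair (encode (pre g z.unpair.2.unpair.1)) z) :=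
    RecT.pair ((recT_pre hg).comp (Computable.recT b1)) (Computable.recT Computable.id)
  refine Nat.RecursiveIn.of_eq ((Computable.recT (O := O) h1).comp h2) ?_
  intro z
  simp [step]

lemma computable_isSome01 : Computable (fun o : Option ℕ => if o.isSome then 0 else 1) := by
  have : Primrec (fun o : Option ℕ => if o.isSome then 0 else 1) :=
    Primrec.ite (Primrec.eq.comp Primrec.option_isSome (Primrec.const true))
      (Primrec.const 0) (Primrec.const 1)
  exact this.to_comp

theorem recIn_wit {O : Set (ℕ →. ℕ)} {g : ℕ → ℕ} (hg : RecT O g) : Nat.RecursiveIn O (wit g) := by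
  refine (Nat.RecursiveIn.rfind (recT_step hg computable_isSome01)).of_eq ?_
  intro m
  unfold wit
  congr 1
  funext j
  simp only [Nat.unpair_pair, Part.map_eq_map, Part.map_some]
  congr 1
  cases (step g m j).isSome <;> simp

theorem recIn_phi {O : Set (ℕ →. ℕ)} {g : ℕ → ℕ} (hg : RecT O g) : Nat.RecursiveIn O (phi g) := by
  have h1 : RecT O (fun z => (step g z.unpair.1 z.unpair.2).getD 0) :=
    recT_step hg (F := fun o => o.getD 0)
      (Computable.option_getD Computable.id (Computable.const 0))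
  have h2 := Nat.RecursiveIn.pair (Computable.recT (O := O) Computable.id) (recIn_wit hg)
  refine (Nat.RecursiveIn.comp h1 h2).of_eq ?_
  intro m
  unfold phi
  apply Part.ext
  intro v
  simp [Seq.seq, eq_comm]

theorem recIn_phi_code {O : Set (ℕ →. ℕ)} {g : ℕ → ℕ} (hg : RecT O g) (e : ℕ) :
    Nat.RecursiveIn O (fun n => phi g (Nat.pair e n)) := by
  have h1 : RecT O (fun n => Nat.pair e n) :=
    RecT.pair (Computable.recT (Computable.const e)) (Computable.recT Computable.id)
  refine (Nat.RecursiveIn.comp (recIn_phi hg) h1).of_eq ?_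
  intro n
  simp

/-- the jump as a set -/
def JS (g : ℕ → ℕ) : Set ℕ := {m | jw g m ≠ 0}

noncomputable def chi (B : Set ℕ) : ℕ → ℕ := B.indicator (fun _ => (1 : ℕ))

theorem ce_le_jump {g : ℕ → ℕ} {B : Set ℕ} {f : ℕ →. ℕ}
    (hf : Nat.RecursiveIn {(g : ℕ →. ℕ)} f) (hB : ∀ n, n ∈ B ↔ (f n).Dom) :
    TR (chi B) (chi (JS g)) := by
  obtain ⟨e, he⟩ := complete hf
  have h1 : RecT {((chi (JS g) : ℕ → ℕ) : ℕ →. ℕ)} (fun n => Nat.pair e n) :=
    RecT.pair (Computable.recT (Computable.const e)) (Computable.recT Computable.id)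
  have h2 := RecT.comp (TR.refl (chi (JS g))) h1
  have h3 : chi B = fun n => chi (JS g) (Nat.pair e n) := by
    funext n
    have : n ∈ B ↔ Nat.pair e n ∈ JS g := by
      rw [hB, he, phi_dom]; rfl
    unfold chi
    by_cases h : n ∈ B
    · rw [Set.indicator_of_mem h, Set.indicator_of_mem (this.1 h)]
    · rw [Set.indicator_of_notMem h, Set.indicator_of_notMem (fun h' => h (this.2 h'))]
  rw [h3]
  exact h2

theorem jump_le_jw (g : ℕ → ℕ) : TR (chi (JS g)) (jw g) := by
  have h1 : Computable (fun z : ℕ => if z = 0 then 0 else 1) := by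
    have : Primrec (fun z : ℕ => if z = 0 then 0 else 1) :=
      Primrec.ite (Primrec.eq.comp Primrec.id (Primrec.const 0)) (Primrec.const 0)
        (Primrec.const 1)
    exact this.to_comp
  have h2 := (Computable.recT (O := {((jw g : ℕ → ℕ) : ℕ →. ℕ)}) h1).comp (TR.refl (jw g))
  have h3 : chi (JS g) = fun n => if jw g n = 0 then 0 else 1 := by
    funext n
    unfold chi
    by_cases h : jw g n = 0
    · rw [if_pos h, Set.indicator_of_notMem (by simpa [JS] using h)]
    · rw [if_neg h, Set.indicator_of_mem (by simpa [JS] using h)]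
  rw [h3]
  exact h2

theorem jw_le_jump {g : ℕ → ℕ} (hg : TR g (chi (JS g))) : TR (jw g) (chi (JS g)) := by
  set O : Set (ℕ →. ℕ) := {((chi (JS g) : ℕ → ℕ) : ℕ →. ℕ)} with hO
  have hA : RecT O (chi (JS g)) := TR.refl _
  have h1 : RecT O (fun z => chi (JS g) z.unpair.1) :=
    hA.comp (Computable.recT (Computable.fst.comp Computable.unpair))
  have h2 := recT_step (O := O) hg computable_isSome01
  have hmul : Computable (fun z : ℕ => z.unpair.1 * z.unpair.2) :=
    (Primrec.nat_mul.comp (Primrec.fst.comp Primrec.unpair)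
      (Primrec.snd.comp Primrec.unpair)).to_comp
  obtain ⟨p, hp⟩ : ∃ p : ℕ → ℕ, ∀ z, p z = chi (JS g) z.unpair.1 *
      (if (step g z.unpair.1 z.unpair.2).isSome then 0 else 1) := ⟨_, fun _ => rfl⟩
  have h3 : RecT O p := by
    refine Nat.RecursiveIn.of_eq ((Computable.recT (O := O) hmul).comp (h1.pair h2)) ?_
    intro z
    simp only [Nat.unpair_pair, hp]
  have hc0 : ∀ a, jw g a = 0 → chi (JS g) a = 0 := by
    intro a h
    unfold chi
    rw [Set.indicator_of_notMem (by simpa [JS] using h)]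
  have hc1 : ∀ a, jw g a ≠ 0 → chi (JS g) a = 1 := by
    intro a h
    unfold chi
    rw [Set.indicator_of_mem (by simpa [JS] using h)]
  have hex : ∀ a, ∃ n, p (Nat.pair a n) = 0 := by
    intro a
    simp only [hp, Nat.unpair_pair]
    by_cases h : jw g a = 0
    · exact ⟨0, by rw [hc0 a h, zero_mul]⟩
    · obtain ⟨j, hj⟩ := Nat.exists_eq_succ_of_ne_zero h
      exact ⟨j, by rw [if_pos (jw_eq_succ.1 hj).1, mul_zero]⟩
  have h4 := RecT.find h3 hex
  have h5 := (Computable.recT (O := O) hmul).comp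
    (hA.pair ((Computable.recT (O := O) Computable.succ).comp h4))
  refine Nat.RecursiveIn.of_eq h5 ?_
  intro a
  congr 1
  simp only [Nat.unpair_pair]
  by_cases h : jw g a = 0
  · rw [hc0 a h, h, zero_mul]
  · obtain ⟨j, hj⟩ := Nat.exists_eq_succ_of_ne_zero h
    rw [hc1 a h, hj, one_mul]
    congr 1
    rw [Nat.find_eq_iff]
    obtain ⟨k1, k2⟩ := jw_eq_succ.1 hj
    simp only [hp, Nat.unpair_pair, hc1 a h, one_mul]
    refine ⟨by rw [if_pos k1], fun i hi => ?_⟩
    rw [if_neg (k2 i hi)]
    simp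

/-! reals -/

def tn (x : ℕ → Bool) : ℕ → ℕ := fun n => (x n).toNat

lemma tn_inj {x y : ℕ → Bool} {n : ℕ} (h : tn x n = tn y n) : x n = y n := by
  unfold tn at h
  cases hx : x n <;> cases hy : y n <;> simp_all

lemma tn_le (x : ℕ → Bool) (n : ℕ) : tn x n ≤ 1 := by
  unfold tn; cases x n <;> simp

theorem tn_le_jump (x : ℕ → Bool) : TR (tn x) (chi (JS (tn x))) := by
  have h1 : Nat.Partrec (fun z : ℕ => Nat.rfind (fun _ => Part.some (decide (1 - z = 0)))) := by
    have : Computable₂ (fun (z : ℕ) (_ : ℕ) => decide (1 - z = 0)) :=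
      (Primrec.eq.decide.comp (Primrec.nat_sub.comp (Primrec.const 1) Primrec.fst)
        (Primrec.const 0)).to_comp
    exact Partrec.nat_iff.1 (Partrec.rfind this.partrec₂)
  have h2 := Nat.RecursiveIn.comp (h1.recursiveIn (O := {((tn x : ℕ → ℕ) : ℕ →. ℕ)}))
    (TR.refl (tn x))
  have h3 := ce_le_jump (B := {n | x n = true}) h2 (by
    intro n
    simp only [Set.mem_setOf_eq, Part.bind_eq_bind, Part.bind_some, Nat.rfind_dom,
      Part.mem_some_iff, Part.some_dom, implies_true, and_true, exists_const]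
    unfold tn
    cases x n <;> simp)
  have h4 : chi {n | x n = true} = tn x := by
    funext n
    unfold chi tn
    cases h : x n
    · rw [Set.indicator_of_notMem (by simp [h])]; rfl
    · rw [Set.indicator_of_mem (by simp [h])]; rfl
  rwa [h4] at h3

noncomputable def jj (x : ℕ → Bool) : ℕ → ℕ := fun m => 2 * jw (tn x) m + tn x m

lemma jj_div (x : ℕ → Bool) (m : ℕ) : jj x m / 2 = jw (tn x) m := by
  have := tn_le x m; unfold jj; omega

lemma jj_mod (x : ℕ → Bool) (m : ℕ) : jj x m % 2 = tn x m := by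
  have := tn_le x m; unfold jj; omega

theorem jj_le_jump (x : ℕ → Bool) : TR (jj x) (chi (JS (tn x))) := by
  have h : Computable (fun z : ℕ => 2 * z.unpair.1 + z.unpair.2) :=
    (Primrec.nat_add.comp (Primrec.nat_mul.comp (Primrec.const 2)
      (Primrec.fst.comp Primrec.unpair)) (Primrec.snd.comp Primrec.unpair)).to_comp
  have := (Computable.recT h).comp (RecT.pair (jw_le_jump (tn_le_jump x)) (tn_le_jump x))
  refine Nat.RecursiveIn.of_eq this ?_
  intro n
  simp [jj]

theorem jump_le_jj (x : ℕ → Bool) : TR (chi (JS (tn x))) (jj x) := by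
  refine (jump_le_jw _).trans ?_
  have h : Computable (fun z : ℕ => z / 2) :=
    (Primrec.nat_div.comp Primrec.id (Primrec.const 2)).to_comp
  have := (Computable.recT h).comp (TR.refl (jj x))
  refine Nat.RecursiveIn.of_eq this ?_
  intro n
  simp [jj_div]

/-- finite modifications -/
theorem TR_of_eventually {f g : ℕ → ℕ} {m : ℕ} (h : ∀ n, m ≤ n → f n = g n) : TR f g := by
  have h1 : Computable (fun z : ℕ =>
      if z.unpair.1 < m then (pre f m).getD z.unpair.1 0 else z.unpair.2) := by
    have : Primrec (fun z : ℕ =>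
        if z.unpair.1 < m then (pre f m).getD z.unpair.1 0 else z.unpair.2) :=
      Primrec.ite (Primrec.nat_lt.comp (Primrec.fst.comp Primrec.unpair) (Primrec.const m))
        ((Primrec.list_getD 0).comp (Primrec.const _) (Primrec.fst.comp Primrec.unpair))
        (Primrec.snd.comp Primrec.unpair)
    exact this.to_comp
  have := (Computable.recT h1).comp (RecT.pair (Computable.recT Computable.id) (TR.refl g))
  refine Nat.RecursiveIn.of_eq this ?_
  intro n
  simp only [id, Nat.unpair_pair]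
  congr 1
  split_ifs with hn
  · rw [List.getD_eq_getElem?_getD, pre_getElem?, if_pos hn]; rfl
  · exact (h n (by omega)).symm

theorem TR_of_comp {f g a b : ℕ → ℕ} (ha : Computable a) (hb : Computable b)
    (h : ∀ n, f n = a (g (b n))) : TR f g := by
  have := (Computable.recT ha).comp ((TR.refl g).comp (Computable.recT hb))
  refine Nat.RecursiveIn.of_eq this ?_
  intro n
  rw [h]

/-- Turing equivalence of reals -/
def TE (x y : ℕ → Bool) : Prop := TR (tn y) (tn x) ∧ TR (tn x) (tn y)

lemma TE.refl (x : ℕ → Bool) : TE x x := ⟨TR.refl _, TR.refl _⟩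
lemma TE.symm {x y : ℕ → Bool} (h : TE x y) : TE y x := ⟨h.2, h.1⟩
lemma TE.trans {x y z : ℕ → Bool} (h : TE x y) (h' : TE y z) : TE x z :=
  ⟨h'.1.trans h.1, h.2.trans h'.2⟩

end Pool.Agent.H619Z.TJ
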