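import Mathlib
import Pool.Agent.H619Z.TJA

set_option autoImplicit false

/-! The jump topology: limits, closed graphs, measurability. -/

namespace Pool.Agent.H619Z.TJ

open Pool.Agent.Helper743 Filter Topology

lemma jj_bit {x y : ℕ → Bool} {m : ℕ} (h : jj x m = jj y m) : x m = y m := by
  apply tn_inj
  rw [← jj_mod, ← jj_mod, h]

lemma jj_jw {x y : ℕ → Bool} {m : ℕ} (h : jj x m = jj y m) : jw (tn x) m = jw (tn y) m := by
  rw [← jj_div, ← jj_div, h]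

lemma jj_inj : Function.Injective jj := fun _ _ h => funext fun m => jj_bit (congrFun h m)

lemma ev_lt {ι : Type} {l : Filter ι} {P : ι → ℕ → Prop} (h : ∀ n, ∀ᶠ i in l, P i n) (j : ℕ) :
    ∀ᶠ i in l, ∀ n < j, P i n := by
  induction j with
  | zero => simp
  | succ j ih =>
    filter_upwards [ih, h j] with i h1 h2 n hn
    rcases Nat.lt_succ_iff_lt_or_eq.1 hn with h3 | h3
    · exact h1 n h3
    · exact h3 ▸ h2

lemma lim_jj {ι : Type} {l : Filter ι} [l.NeBot] {x : ι → ℕ → Bool} {w : ℕ → ℕ}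
    (h : ∀ m, ∀ᶠ i in l, jj (x i) m = w m) : ∃ x0, jj x0 = w := by
  refine ⟨fun m => decide (w m % 2 = 1), ?_⟩
  set x0 : ℕ → Bool := fun m => decide (w m % 2 = 1) with hx0
  have h0 : ∀ m, tn x0 m = w m % 2 := by
    intro m
    unfold tn
    rcases Nat.mod_two_eq_zero_or_one (w m) with h1 | h1 <;> simp [hx0, h1]
  have h1 : ∀ n, ∀ᶠ i in l, tn (x i) n = tn x0 n := by
    intro n
    filter_upwards [h n] with i hi
    rw [h0, ← hi, jj_mod]
  funext m
  have h2 : jw (tn x0) m = w m / 2 := by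
    rcases Nat.eq_zero_or_pos (w m / 2) with h3 | h3
    · rw [h3]
      by_contra h4
      obtain ⟨j, hj⟩ := Nat.exists_eq_succ_of_ne_zero h4
      obtain ⟨i, hi1, hi2⟩ := ((ev_lt h1 j).and (h m)).exists
      have := jw_local hj hi1
      rw [← jj_div, hi2] at this
      omega
    · obtain ⟨j, hj⟩ := Nat.exists_eq_succ_of_ne_zero h3.ne'
      obtain ⟨i, hi1, hi2⟩ := ((ev_lt h1 j).and (h m)).exists
      rw [hj]
      refine jw_local (g := tn (x i)) ?_ (fun k hk => (hi1 k hk).symm)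
      rw [← jj_div, hi2, hj]
  unfold jj
  rw [h2, h0]
  omega

lemma lim_phi {ι : Type} {l : Filter ι} {x : ι → ℕ → Bool} {x0 : ℕ → Bool}
    (h : ∀ m, ∀ᶠ i in l, jj (x i) m = jj x0 m) (m : ℕ) :
    ∀ᶠ i in l, phi (tn (x i)) m = phi (tn x0) m := by
  have h1 : ∀ n, ∀ᶠ i in l, tn (x i) n = tn x0 n := by
    intro n
    filter_upwards [h n] with i hi
    unfold tn
    rw [jj_bit hi]
  filter_upwards [h m, ev_lt h1 (jw (tn x0) m)] with i hi1 hi2
  apply Part.ext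
  intro v
  rw [mem_phi, mem_phi, jj_jw hi1]
  refine exists_congr fun j => and_congr_right fun hj => ?_
  rw [step_congr (fun k hk => hi2 k (by omega))]

def Rel (p : ℕ × ℕ) (x y : ℕ → Bool) : Prop :=
  (∀ n, phi (tn x) (Nat.pair p.1 n) = Part.some (tn y n)) ∧
    ∀ m, phi (tn x) (Nat.pair p.2 m) = wit (tn y) m

lemma exists_rel {x y : ℕ → Bool} (h : TR (tn y) (tn x)) : ∃ p, Rel p x y := by
  obtain ⟨e, he⟩ := complete h
  obtain ⟨c, hc⟩ := complete (recIn_wit h)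
  exact ⟨(e, c), fun n => (he n).symm, fun m => (hc m).symm⟩

lemma tr_of_phi {e : ℕ} {x y : ℕ → Bool}
    (h : ∀ n, phi (tn x) (Nat.pair e n) = Part.some (tn y n)) : TR (tn y) (tn x) :=
  (recIn_phi_code (TR.refl (tn x)) e).of_eq h

lemma phi_unique {e : ℕ} {x y y' : ℕ → Bool}
    (h : ∀ n, phi (tn x) (Nat.pair e n) = Part.some (tn y n))
    (h' : ∀ n, phi (tn x) (Nat.pair e n) = Part.some (tn y' n)) : y = y' := by
  funext n
  apply tn_inj
  have := (h n).symm.trans (h' n)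
  exact Part.some_inj.1 this

lemma wit_congr {g g' : ℕ → ℕ} {m : ℕ} : wit g m = wit g' m ↔ jw g m = jw g' m := by
  constructor
  · intro h
    rcases Nat.eq_zero_or_pos (jw g m) with h1 | h1
    · by_contra h2
      have h3 : jw g' m ≠ 0 := by omega
      rw [← wit_dom, ← h, wit_dom] at h3
      exact h3 h1
    · obtain ⟨j, hj⟩ := Nat.exists_eq_succ_of_ne_zero h1.ne'
      have := mem_wit.2 hj
      rw [h, mem_wit] at this
      omega
  · intro h
    apply Part.ext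
    intro j
    rw [mem_wit, mem_wit, h]

lemma lim_rel {ι : Type} {l : Filter ι} [l.NeBot] {x y : ι → ℕ → Bool} {x0 : ℕ → Bool}
    {p : ℕ × ℕ} (h : ∀ m, ∀ᶠ i in l, jj (x i) m = jj x0 m) (hr : ∀ᶠ i in l, Rel p (x i) (y i)) :
    ∃ y0, Rel p x0 y0 ∧ ∀ m, ∀ᶠ i in l, jj (y i) m = jj y0 m := by
  have h1 : ∀ m, ∃ a, ∀ᶠ i in l, jj (y i) m = a := by
    intro m
    obtain ⟨i0, k1, k2, k3⟩ := (hr.and ((lim_phi h (Nat.pair p.1 m)).and
      (lim_phi h (Nat.pair p.2 m)))).exists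
    refine ⟨jj (y i0) m, ?_⟩
    filter_upwards [hr, lim_phi h (Nat.pair p.1 m), lim_phi h (Nat.pair p.2 m)] with i j1 j2 j3
    unfold jj
    have e1 : tn (y i) m = tn (y i0) m := by
      apply Part.some_inj.1
      rw [← j1.1, ← k1.1, j2, k2]
    have e2 : jw (tn (y i)) m = jw (tn (y i0)) m := by
      rw [← wit_congr, ← j1.2, ← k1.2, j3, k3]
    rw [e1, e2]
  choose w hw using h1
  obtain ⟨y0, rfl⟩ := lim_jj hw
  refine ⟨y0, ⟨fun n => ?_, fun m => ?_⟩, hw⟩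
  · obtain ⟨i, k1, k2, k3⟩ := (hr.and ((lim_phi h (Nat.pair p.1 n)).and (hw n))).exists
    rw [← k2, k1.1]
    unfold tn
    rw [jj_bit k3]
  · obtain ⟨i, k1, k2, k3⟩ := (hr.and ((lim_phi h (Nat.pair p.2 m)).and (hw m))).exists
    rw [← k2, k1.2, wit_congr, jj_jw k3]

lemma lim_rel2 {ι : Type} {l : Filter ι} [l.NeBot] {x y : ι → ℕ → Bool} {x0 : ℕ → Bool}
    {p q : ℕ × ℕ} (h : ∀ m, ∀ᶠ i in l, jj (x i) m = jj x0 m)
    (hr : ∀ᶠ i in l, Rel p (x i) (y i)) (hq : ∀ᶠ i in l, Rel q (y i) (x i)) :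
    ∃ y0, Rel p x0 y0 ∧ Rel q y0 x0 ∧ ∀ m, ∀ᶠ i in l, jj (y i) m = jj y0 m := by
  obtain ⟨y0, h1, h2⟩ := lim_rel h hr
  obtain ⟨x1, h3, h4⟩ := lim_rel h2 hq
  have : x1 = x0 := by
    apply jj_inj
    funext m
    obtain ⟨i, k1, k2⟩ := ((h m).and (h4 m)).exists
    rw [← k1, ← k2]
  subst this
  exact ⟨y0, h1, h3, h2⟩

def DD (t : (ℕ × ℕ) × (ℕ × ℕ) × ℕ) (x y : ℕ → Bool) : Prop :=
  Rel t.1 x y ∧ Rel t.2.1 y x ∧ x t.2.2 = false ∧ y t.2.2 = true

def SS (t : (ℕ × ℕ) × (ℕ × ℕ) × ℕ) (x y : ℕ → Bool) : Prop := DD t x y ∨ DD t y x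

lemma SS.symm {t : (ℕ × ℕ) × (ℕ × ℕ) × ℕ} {x y : ℕ → Bool} (h : SS t x y) : SS t y x :=
  Or.symm h

lemma SS.te {t : (ℕ × ℕ) × (ℕ × ℕ) × ℕ} {x y : ℕ → Bool} (h : SS t x y) : TE x y := by
  rcases h with h | h
  · exact ⟨tr_of_phi h.1.1, tr_of_phi h.2.1.1⟩
  · exact ⟨tr_of_phi h.2.1.1, tr_of_phi h.1.1⟩

lemma SS.unique {t : (ℕ × ℕ) × (ℕ × ℕ) × ℕ} {x y y' : ℕ → Bool} (h : SS t x y) (h' : SS t x y') :
    y = y' := by
  rcases h with h | h <;> rcases h' with h' | h'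
  · exact phi_unique h.1.1 h'.1.1
  · exact absurd (h.2.2.1.symm.trans h'.2.2.2) (by simp)
  · exact absurd (h'.2.2.1.symm.trans h.2.2.2) (by simp)
  · exact phi_unique h.2.1.1 h'.2.1.1

lemma exists_SS {x y : ℕ → Bool} (h : TE x y) (hne : x ≠ y) : ∃ t, SS t x y := by
  obtain ⟨p, hp⟩ := exists_rel h.1
  obtain ⟨q, hq⟩ := exists_rel h.2
  obtain ⟨k, hk⟩ := Function.ne_iff.1 hne
  cases hx : x k
  · exact ⟨(p, q, k), Or.inl ⟨hp, hq, hx, by simpa [hx] using hk⟩⟩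
  · exact ⟨(q, p, k), Or.inr ⟨hq, hp, by simpa [hx] using hk, hx⟩⟩

lemma lim_SS {ι : Type} {l : Filter ι} [l.NeBot] {x y : ι → ℕ → Bool} {w : ℕ → ℕ}
    {t : (ℕ × ℕ) × (ℕ × ℕ) × ℕ} (h : ∀ m, ∀ᶠ i in l, jj (x i) m = w m)
    (hr : ∀ᶠ i in l, SS t (x i) (y i)) :
    ∃ x0 y0, jj x0 = w ∧ SS t x0 y0 ∧ ∀ m, ∀ᶠ i in l, jj (y i) m = jj y0 m := by
  obtain ⟨x0, rfl⟩ := lim_jj h
  cases hx : x0 t.2.2
  · have h1 : ∀ᶠ i in l, DD t (x i) (y i) := by
      filter_upwards [hr, h t.2.2] with i k1 k2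
      rcases k1 with k1 | k1
      · exact k1
      · have := jj_bit k2
        rw [hx, k1.2.2.2] at this
        exact absurd this (by simp)
    obtain ⟨y0, k1, k2, k3⟩ := lim_rel2 h (h1.mono fun i hi => hi.1) (h1.mono fun i hi => hi.2.1)
    refine ⟨x0, y0, rfl, Or.inl ⟨k1, k2, hx, ?_⟩, k3⟩
    obtain ⟨i, j1, j2⟩ := (h1.and (k3 t.2.2)).exists
    rw [← jj_bit j2, j1.2.2.2]
  · have h1 : ∀ᶠ i in l, DD t (y i) (x i) := by
      filter_upwards [hr, h t.2.2] with i k1 k2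
      rcases k1 with k1 | k1
      · have := jj_bit k2
        rw [hx, k1.2.2.1] at this
        exact absurd this (by simp)
      · exact k1
    obtain ⟨y0, k1, k2, k3⟩ := lim_rel2 h (h1.mono fun i hi => hi.2.1) (h1.mono fun i hi => hi.1)
    refine ⟨x0, y0, rfl, Or.inr ⟨k2, k1, ?_, hx⟩, k3⟩
    obtain ⟨i, j1, j2⟩ := (h1.and (k3 t.2.2)).exists
    rw [← jj_bit j2, j1.2.2.1]

noncomputable def pur (x : ℕ → Bool) : ℕ → ℕ := fun m => 2 * jj x m

lemma pur_inj : Function.Injective pur := fun x y h =>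
  jj_inj (funext fun m => by have := congrFun h m; unfold pur at this; omega)

def KK (t : (ℕ × ℕ) × (ℕ × ℕ) × ℕ) : Set (ℕ → ℕ) := {w | ∃ x y, SS t x y ∧ w = pur x}

open Classical in
noncomputable def xK (t : (ℕ × ℕ) × (ℕ × ℕ) × ℕ) (w : ℕ → ℕ) : ℕ → Bool :=
  if h : w ∈ KK t then h.choose else fun _ => false

open Classical in
noncomputable def yK (t : (ℕ × ℕ) × (ℕ × ℕ) × ℕ) (w : ℕ → ℕ) : ℕ → Bool :=
  if h : w ∈ KK t then h.choose_spec.choose else fun _ => false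

lemma K_spec {t : (ℕ × ℕ) × (ℕ × ℕ) × ℕ} {w : ℕ → ℕ} (h : w ∈ KK t) :
    SS t (xK t w) (yK t w) ∧ w = pur (xK t w) := by
  unfold xK yK
  rw [dif_pos h, dif_pos h]
  exact h.choose_spec.choose_spec

noncomputable def fK (t : (ℕ × ℕ) × (ℕ × ℕ) × ℕ) (w : ℕ → ℕ) : ℕ → ℕ := pur (yK t w)

lemma fK_pur {t : (ℕ × ℕ) × (ℕ × ℕ) × ℕ} {x y : ℕ → Bool} (h : SS t x y) :
    fK t (pur x) = pur y := by
  obtain ⟨h1, h2⟩ := K_spec (t := t) (w := pur x) ⟨x, y, h, rfl⟩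
  rw [← pur_inj h2] at h1
  unfold fK
  rw [h1.unique h]

lemma ev_coord {K : Set (ℕ → ℕ)} (w : ℕ → ℕ) (m : ℕ) : ∀ᶠ v in 𝓝[K] w, v m = w m := by
  apply eventually_nhdsWithin_of_eventually_nhds
  have : Tendsto (fun v : ℕ → ℕ => v m) (𝓝 w) (𝓝 (w m)) := (continuous_apply m).tendsto w
  rw [nhds_discrete ℕ, tendsto_pure] at this
  exact this

lemma lim_K {t : (ℕ × ℕ) × (ℕ × ℕ) × ℕ} {w : ℕ → ℕ} [(𝓝[KK t] w).NeBot] :
    ∃ x0 y0, w = pur x0 ∧ SS t x0 y0 ∧ ∀ m, ∀ᶠ v in 𝓝[KK t] w, fK t v m = pur y0 m := by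
  have h0 : ∀ᶠ v in 𝓝[KK t] w, v ∈ KK t := self_mem_nhdsWithin
  have h1 : ∀ m, ∀ᶠ v in 𝓝[KK t] w, 2 * jj (xK t v) m = w m := by
    intro m
    filter_upwards [h0, ev_coord w m] with v k1 k2
    rw [← k2]
    exact (congrFun (K_spec k1).2 m).symm
  obtain ⟨x0, y0, k1, k2, k3⟩ := lim_SS (l := 𝓝[KK t] w) (x := xK t) (y := yK t)
    (w := fun m => w m / 2) (t := t)
    (fun m => (h1 m).mono fun v hv => by rw [← hv]; omega) (h0.mono fun v hv => (K_spec hv).1)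
  refine ⟨x0, y0, ?_, k2, fun m => (k3 m).mono fun v hv => ?_⟩
  · funext m
    obtain ⟨v, hv⟩ := (h1 m).exists
    unfold pur
    rw [k1]
    simp only
    omega
  · unfold fK pur
    rw [hv]

lemma isClosed_KK (t : (ℕ × ℕ) × (ℕ × ℕ) × ℕ) : IsClosed (KK t) := by
  rw [← closure_subset_iff_isClosed]
  intro w hw
  haveI := mem_closure_iff_nhdsWithin_neBot.1 hw
  obtain ⟨x0, y0, h1, h2, -⟩ := lim_K (t := t) (w := w)
  exact ⟨x0, y0, h2, h1⟩

lemma continuousOn_fK (t : (ℕ × ℕ) × (ℕ × ℕ) × ℕ) : ContinuousOn (fK t) (KK t) := by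
  intro w hw
  haveI := mem_closure_iff_nhdsWithin_neBot.1 (subset_closure hw)
  obtain ⟨x0, y0, h1, h2, h3⟩ := lim_K (t := t) (w := w)
  unfold ContinuousWithinAt
  rw [tendsto_pi_nhds]
  intro m
  rw [nhds_discrete ℕ, tendsto_pure]
  have : fK t w = pur y0 := by rw [h1]; exact fK_pur h2
  rw [this]
  exact h3 m

/-! measurability -/

lemma isOpen_of_local {β : Type} [TopologicalSpace β] [DiscreteTopology β] {U : Set (ℕ → β)}
    (h : ∀ x ∈ U, ∃ j, ∀ y : ℕ → β, (∀ i < j, y i = x i) → y ∈ U) : IsOpen U := by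
  rw [isOpen_iff_mem_nhds]
  intro x hx
  obtain ⟨j, hj⟩ := h x hx
  have h1 : ∀ m, ∀ᶠ y in 𝓝 x, y m = x m := by
    intro m
    have : Tendsto (fun v : ℕ → β => v m) (𝓝 x) (𝓝 (x m)) := (continuous_apply m).tendsto x
    rw [nhds_discrete β, tendsto_pure] at this
    exact this
  filter_upwards [ev_lt h1 j] with y hy
  exact hj y hy

lemma measurable_jw (m : ℕ) : Measurable (fun x : ℕ → Bool => jw (tn x) m) := by
  have h1 : ∀ j, MeasurableSet {x : ℕ → Bool | jw (tn x) m = j + 1} := by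
    intro j
    refine (isOpen_of_local fun x hx => ⟨j, fun y hy => ?_⟩).measurableSet
    exact jw_local hx (fun i hi => by unfold tn; rw [hy i hi])
  apply measurable_to_countable'
  intro j
  cases j with
  | succ j => exact h1 j
  | zero =>
    have : (fun x : ℕ → Bool => jw (tn x) m) ⁻¹' {0} = (⋃ j, {x : ℕ → Bool | jw (tn x) m = j + 1})ᶜ := by
      ext x
      simp only [Set.mem_preimage, Set.mem_singleton_iff, Set.mem_compl_iff, Set.mem_iUnion,
        Set.mem_ofPred_eq, not_exists]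
      constructor
      · intro h j; omega
      · intro h
        by_contra h2
        obtain ⟨j, hj⟩ := Nat.exists_eq_succ_of_ne_zero h2
        exact h j hj
    rw [this]
    exact (MeasurableSet.iUnion h1).compl

lemma measurable_tn (m : ℕ) : Measurable (fun x : ℕ → Bool => tn x m) :=
  (measurable_of_countable (fun b : Bool => b.toNat)).comp (measurable_pi_apply m)

lemma measurable_pur : Measurable pur := by
  rw [measurable_pi_iff]
  intro m
  exact (measurable_of_countable (fun q : ℕ × ℕ => 2 * (2 * q.1 + q.2))).comp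
    ((measurable_jw m).prodMk (measurable_tn m))

lemma measurableSet_phi (m v : ℕ) : MeasurableSet {x : ℕ → Bool | v ∈ phi (tn x) m} := by
  refine (isOpen_of_local fun x hx => ?_).measurableSet
  obtain ⟨j, hj⟩ := phi_local hx
  exact ⟨j, fun y hy => hj _ (fun i hi => by unfold tn; rw [hy i hi])⟩

/-- `y` is computed from `x` by machine `e` -/
def R1 (e : ℕ) (x y : ℕ → Bool) : Prop := ∀ n, phi (tn x) (Nat.pair e n) = Part.some (tn y n)

open Classical in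
noncomputable def Psi (e : ℕ) (x : ℕ → Bool) : ℕ → Bool :=
  fun n => decide (1 ∈ phi (tn x) (Nat.pair e n))

lemma R1.psi {e : ℕ} {x y : ℕ → Bool} (h : R1 e x y) : Psi e x = y := by
  funext n
  unfold Psi
  rw [h n]
  unfold tn
  cases y n <;> simp

lemma measurable_Psi (e : ℕ) : Measurable (Psi e) := by
  rw [measurable_pi_iff]
  intro n
  apply measurable_to_bool
  convert measurableSet_phi (Nat.pair e n) 1 using 1
  ext x
  simp [Psi]

lemma measurableSet_R1 {S : Type} [MeasurableSpace S] (e : ℕ) {a b : S → ℕ → Bool}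
    (ha : Measurable a) (hb : Measurable b) : MeasurableSet {z | R1 e (a z) (b z)} := by
  have : {z | R1 e (a z) (b z)} = ⋂ n, ⋃ v, (a ⁻¹' {x | v ∈ phi (tn x) (Nat.pair e n)}) ∩
      ((fun z => tn (b z) n) ⁻¹' {v}) := by
    ext z
    simp only [R1, Set.mem_ofPred_eq, Set.mem_iInter, Set.mem_iUnion, Set.mem_inter_iff,
      Set.mem_preimage, Set.mem_singleton_iff, Part.eq_some_iff]
    refine forall_congr' fun n => ⟨fun h => ⟨_, h, rfl⟩, ?_⟩
    rintro ⟨v, h, rfl⟩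
    exact h
  rw [this]
  refine MeasurableSet.iInter fun n => MeasurableSet.iUnion fun v => ?_
  exact (ha (measurableSet_phi _ _)).inter
    (((measurable_tn n).comp hb) (measurableSet_singleton v))

lemma exists_R1 {x y : ℕ → Bool} (h : TR (tn y) (tn x)) : ∃ e, R1 e x y := by
  obtain ⟨e, he⟩ := complete h
  exact ⟨e, fun n => (he n).symm⟩

end Pool.Agent.H619Z.TJ
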