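import Mathlib
import Pool.Agent.H619Z.TJB

set_option autoImplicit false

/-! States, tail equivalence, and extension of involutions of closed sets. -/

namespace Pool.Agent.H619Z.TJ

open Filter Topology Encodable
open PiNat (res res_succ res_length res_eq_res)

def jumpTo (n j : ℕ) : List ℕ :=
  if ((decode (α := List ℕ) j.unpair.1).getD []).length = n
  then (decode (α := List ℕ) j.unpair.1).getD [] else List.replicate n 0

lemma jumpTo_length (n j : ℕ) : (jumpTo n j).length = n := by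
  unfold jumpTo
  split_ifs with h
  · exact h
  · simp

lemma jumpTo_pair (q : List ℕ) (i : ℕ) : jumpTo q.length (Nat.pair (encode q) i) = q := by
  simp [jumpTo]

def stL : List ℕ → List ℕ
  | [] => []
  | c :: u => if c % 2 = 0 then (c / 2) :: stL u else jumpTo (u.length + 1) (c / 2)

lemma stL_length (u : List ℕ) : (stL u).length = u.length := by
  induction u with
  | nil => rfl
  | cons c u ih =>
    unfold stL
    split_ifs
    · simp [ih]
    · simp [jumpTo_length]

def st (w : ℕ → ℕ) (n : ℕ) : List ℕ := stL (res w n)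

def TailEq (w w' : ℕ → ℕ) : Prop := ∃ m, st w m = st w' m ∧ ∀ n, m ≤ n → w n = w' n

lemma st_mono {w w' : ℕ → ℕ} {m : ℕ} (h : st w m = st w' m) (h' : ∀ n, m ≤ n → w n = w' n)
    (n : ℕ) (hn : m ≤ n) : st w n = st w' n := by
  induction n, hn using Nat.le_induction with
  | base => exact h
  | succ n hn ih =>
    unfold st at ih ⊢
    simp only [res_succ, stL, res_length, ih, h' n hn]

lemma TailEq.refl (w : ℕ → ℕ) : TailEq w w := ⟨0, rfl, fun _ _ => rfl⟩

lemma TailEq.symm {w w' : ℕ → ℕ} (h : TailEq w w') : TailEq w' w := by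
  obtain ⟨m, h1, h2⟩ := h
  exact ⟨m, h1.symm, fun n hn => (h2 n hn).symm⟩

lemma TailEq.trans {w w' w'' : ℕ → ℕ} (h : TailEq w w') (h' : TailEq w' w'') : TailEq w w'' := by
  obtain ⟨m, h1, h2⟩ := h
  obtain ⟨m', h1', h2'⟩ := h'
  refine ⟨max m m', (st_mono h1 h2 _ (le_max_left _ _)).trans
    (st_mono h1' h2' _ (le_max_right _ _)), fun n hn => ?_⟩
  rw [h2 n (le_of_max_le_left hn), h2' n (le_of_max_le_right hn)]

lemma st_pur (x : ℕ → Bool) (m : ℕ) : st (pur x) m = res (jj x) m := by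
  induction m with
  | zero => rfl
  | succ m ih =>
    unfold st at ih ⊢
    simp only [res_succ, stL, ih]
    have h1 : pur x m % 2 = 0 := by unfold pur; omega
    have h2 : pur x m / 2 = jj x m := by unfold pur; omega
    rw [if_pos h1, h2]

lemma ext_res {α : Type} {w w' : ℕ → α} {m : ℕ} (h : res w m = res w' m)
    (h' : ∀ n, m ≤ n → w n = w' n) : w = w' := by
  funext n
  by_cases hn : n < m
  · exact res_eq_res.1 h hn
  · exact h' n (by omega)

lemma TailEq.pur_eq {x y : ℕ → Bool} (h : TailEq (pur x) (pur y)) : x = y := by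
  obtain ⟨m, h1, h2⟩ := h
  rw [st_pur, st_pur] at h1
  apply jj_inj
  refine ext_res h1 fun n hn => ?_
  have := h2 n hn
  unfold pur at this
  omega

def glue : List ℕ → (ℕ → ℕ) → ℕ → ℕ
  | [], w => w
  | c :: u, w => Function.update (glue u w) u.length c

lemma glue_ge (v : List ℕ) (w : ℕ → ℕ) (n : ℕ) (hn : v.length ≤ n) : glue v w n = w n := by
  induction v with
  | nil => rfl
  | cons c u ih =>
    simp only [List.length_cons] at hn
    unfold glue
    rw [Function.update_of_ne (by omega), ih (by omega)]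

lemma res_glue (v : List ℕ) (w : ℕ → ℕ) : res (glue v w) v.length = v := by
  induction v with
  | nil => rfl
  | cons c u ih =>
    simp only [List.length_cons, res_succ, glue, Function.update_self, List.cons.injEq, true_and]
    rw [← ih]
    simp only [res_length]
    rw [res_eq_res]
    intro m hm
    rw [Function.update_of_ne (by omega), ih]

lemma res_suffix {α : Type} (w : ℕ → α) {m n : ℕ} (h : m ≤ n) : res w m <:+ res w n := by
  induction n, h using Nat.le_induction with
  | base => exact List.suffix_refl _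
  | succ n _ ih => exact ih.trans (List.suffix_cons _ _)

lemma eq_res_of_suffix {α : Type} {w : ℕ → α} {t : List α} {n : ℕ} (h : t <:+ res w n) :
    t = res w t.length := by
  have h1 : t.length ≤ n := by simpa using h.length_le
  rcases List.suffix_or_suffix_of_suffix h (res_suffix w h1) with h2 | h2
  · exact h2.eq_of_length (by simp)
  · exact (h2.eq_of_length (by simp)).symm

lemma res_eq_of_suffix {α : Type} {w v : ℕ → α} {m n : ℕ} (h : res v m <:+ res w n) :
    res w m = res v m := by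
  have := eq_res_of_suffix h
  rw [res_length] at this
  exact this.symm

lemma res_of_le {α : Type} {w v : ℕ → α} {m n : ℕ} (hmn : m ≤ n) (h : res w n = res v n) :
    res w m = res v m :=
  res_eq_res.2 fun _ hk => res_eq_res.1 h (lt_of_lt_of_le hk hmn)

lemma ev_res (w : ℕ → ℕ) (n : ℕ) : ∀ᶠ v in 𝓝 w, res v n = res w n := by
  have h1 : ∀ m, ∀ᶠ y in 𝓝 w, y m = w m := by
    intro m
    have : Tendsto (fun v : ℕ → ℕ => v m) (𝓝 w) (𝓝 (w m)) := (continuous_apply m).tendsto w
    rw [nhds_discrete ℕ, tendsto_pure] at this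
    exact this
  filter_upwards [ev_lt h1 n] with y hy
  exact res_eq_res.2 fun m hm => hy m hm

lemma exists_res_of_nhds {w : ℕ → ℕ} {U : Set (ℕ → ℕ)} (h : U ∈ 𝓝 w) :
    ∃ n, ∀ v, res v n = res w n → v ∈ U := by
  obtain ⟨t, ⟨x, n, rfl⟩, h1, h2⟩ :=
    (PiNat.isTopologicalBasis_cylinders (fun _ : ℕ => ℕ)).mem_nhds_iff.1 h
  refine ⟨n, fun v hv => h2 ?_⟩
  rw [PiNat.cylinder_eq_res] at h1 ⊢
  exact hv.trans h1

lemma continuous_of_res {γ : (ℕ → ℕ) → ℕ → ℕ}
    (h : ∀ w n, ∃ m, ∀ v, res v m = res w m → res (γ v) n = res (γ w) n) : Continuous γ := by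
  rw [continuous_iff_continuousAt]
  intro w
  unfold ContinuousAt
  rw [tendsto_pi_nhds]
  intro k
  rw [nhds_discrete ℕ, tendsto_pure]
  obtain ⟨m, hm⟩ := h w (k + 1)
  filter_upwards [ev_res w m] with v hv
  exact res_eq_res.1 (hm v hv) (Nat.lt_succ_self k)

lemma res_of_continuousOn {K : Set (ℕ → ℕ)} {f : (ℕ → ℕ) → ℕ → ℕ} (hc : ContinuousOn f K)
    {v : ℕ → ℕ} (hv : v ∈ K) (n : ℕ) :
    ∃ m, n ≤ m ∧ ∀ v' ∈ K, res v' m = res v m → res (f v') n = res (f v) n := by
  have h1 : ∀ᶠ v' in 𝓝[K] v, res (f v') n = res (f v) n := (hc v hv).eventually (ev_res (f v) n)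
  rw [eventually_nhdsWithin_iff] at h1
  obtain ⟨m, hm⟩ := exists_res_of_nhds h1
  exact ⟨max n m, le_max_left _ _, fun v' hv' h => hm v' (res_of_le (le_max_right _ _) h) hv'⟩

theorem swap_ext (P : Set (List ℕ)) (π : List ℕ → List ℕ) (f : (ℕ → ℕ) → ℕ → ℕ)
    (K : Set (ℕ → ℕ))
    (hπ : ∀ u ∈ P, π u ∈ P ∧ π (π u) = u ∧ (π u).length = u.length ∧ stL (π u) = stL u)
    (hfree : ∀ w n m, res w n ∈ P → res w m ∈ P → n = m)
    (hK : ∀ w, w ∈ K ↔ ∀ n, res w n ∉ P)
    (hf : ∀ w ∈ K, f w ∈ K ∧ f (f w) = w) (hc : ContinuousOn f K)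
    (H : ∀ v ∈ K, ∀ n, ∃ m, ∀ u ∈ P, res v m <:+ u → res (f v) n <:+ π u) :
    ∃ γ : (ℕ → ℕ) → ℕ → ℕ, Function.Involutive γ ∧ Continuous γ ∧ (∀ w ∈ K, γ w = f w) ∧
      (∀ w n, res w n ∈ P → γ w = glue (π (res w n)) w) ∧ ∀ w, w ∉ K → TailEq w (γ w) := by
  classical
  let γ : (ℕ → ℕ) → ℕ → ℕ := fun w =>
    if h : ∃ n, res w n ∈ P then glue (π (res w h.choose)) w else f w
  have h1 : ∀ w ∈ K, γ w = f w := by
    intro w hw
    have : ¬ ∃ n, res w n ∈ P := fun ⟨n, hn⟩ => (hK w).1 hw n hn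
    simp only [γ, dif_neg this]
  have h2 : ∀ w n, res w n ∈ P → γ w = glue (π (res w n)) w := by
    intro w n hn
    have h : ∃ n, res w n ∈ P := ⟨n, hn⟩
    simp only [γ, dif_pos h]
    rw [hfree w _ _ h.choose_spec hn]
  have h3 : ∀ w n, res w n ∈ P → res (γ w) n = π (res w n) := by
    intro w n hn
    rw [h2 w n hn]
    have := res_glue (π (res w n)) w
    rwa [(hπ _ hn).2.2.1, res_length] at this
  have h4 : ∀ w n, res w n ∈ P → ∀ k, n ≤ k → γ w k = w k := by
    intro w n hn k hk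
    rw [h2 w n hn]
    apply glue_ge
    rwa [(hπ _ hn).2.2.1, res_length]
  have h5 : ∀ w, w ∉ K → ∃ n, res w n ∈ P := by
    intro w hw
    rw [hK] at hw
    push Not at hw
    exact hw
  refine ⟨γ, fun w => ?_, continuous_of_res fun w n => ?_, h1, h2, fun w hw => ?_⟩
  · by_cases hw : w ∈ K
    · rw [h1 w hw, h1 _ (hf w hw).1, (hf w hw).2]
    · obtain ⟨n, hn⟩ := h5 w hw
      have k1 : res (γ w) n ∈ P := by rw [h3 w n hn]; exact (hπ _ hn).1
      refine ext_res (m := n) ?_ fun k hk => ?_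
      · rw [h3 _ n k1, h3 w n hn, (hπ _ hn).2.1]
      · rw [h4 _ n k1 k hk, h4 w n hn k hk]
  · by_cases hw : w ∈ K
    · obtain ⟨m1, -, hm1⟩ := res_of_continuousOn hc hw n
      obtain ⟨m2, hm2⟩ := H w hw n
      refine ⟨max m1 m2, fun v hv => ?_⟩
      rw [h1 w hw]
      by_cases hv' : v ∈ K
      · rw [h1 v hv']
        exact hm1 v hv' (res_of_le (le_max_left _ _) hv)
      · obtain ⟨k, hk⟩ := h5 v hv'
        have k1 : m2 ≤ k := by
          by_contra k2
          apply (hK w).1 hw k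
          rwa [← res_of_le (le_max_of_le_right (by omega)) hv]
        have k2 := hm2 _ hk (by
          rw [← res_of_le (le_max_right _ _) hv]; exact res_suffix v k1)
        rw [← h3 v k hk] at k2
        exact res_eq_of_suffix k2
    · obtain ⟨k, hk⟩ := h5 w hw
      refine ⟨max n k, fun v hv => ?_⟩
      have k1 : res v k = res w k := res_of_le (le_max_right _ _) hv
      have k2 : res v k ∈ P := k1 ▸ hk
      rw [res_eq_res]
      intro i hi
      by_cases hik : i < k
      · refine res_eq_res.1 ?_ hik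
        rw [h3 v k k2, h3 w k hk, k1]
      · rw [h4 v k k2 i (by omega), h4 w k hk i (by omega)]
        exact res_eq_res.1 hv (lt_max_of_lt_left hi)
  · obtain ⟨n, hn⟩ := h5 w hw
    refine ⟨n, ?_, fun k hk => (h4 w n hn k hk).symm⟩
    unfold st
    rw [h3 w n hn, (hπ _ hn).2.2.2]

theorem exists_swap (u u' : List ℕ) (hl : u.length = u'.length) (hs : stL u = stL u') :
    ∃ γ : (ℕ → ℕ) → ℕ → ℕ, Function.Involutive γ ∧ Continuous γ ∧ (∀ w, TailEq w (γ w)) ∧
      ∀ w, res w u.length = u → γ w = glue u' w := by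
  classical
  obtain ⟨γ, h1, h2, h3, h4, h5⟩ := swap_ext {u, u'} (Equiv.swap u u') id
    {w | ∀ n, res w n ∉ ({u, u'} : Set (List ℕ))}
    (by
      rintro v (rfl | rfl)
      · simp [hl, hs]
      · simp [hl, hs])
    (by
      intro w n m hn hm
      have k1 : n = u.length := by
        rcases hn with hn | hn
        · rw [← hn, res_length]
        · rw [hl, ← Set.mem_singleton_iff.1 hn, res_length]
      have k2 : m = u.length := by
        rcases hm with hn | hn
        · rw [← hn, res_length]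
        · rw [hl, ← Set.mem_singleton_iff.1 hn, res_length]
      omega)
    (fun w => Iff.rfl) (fun w hw => ⟨hw, rfl⟩) continuousOn_id
    (by
      intro v _ n
      refine ⟨u.length + 1, fun t ht h => ?_⟩
      have := h.length_le
      rw [res_length] at this
      rcases ht with rfl | rfl <;> omega)
  refine ⟨γ, h1, h2, fun w => ?_, fun w hw => ?_⟩
  · by_cases hw : w ∈ {w | ∀ n, res w n ∉ ({u, u'} : Set (List ℕ))}
    · rw [h3 w hw]; exact TailEq.refl w
    · exact h5 w hw
  · rw [h4 w u.length (by rw [hw]; simp), hw, Equiv.swap_apply_left]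

theorem label_involution {α β : Type} [Countable α] (P : Set α) (lab : α → β) (σ : β → β)
    (hσ : Function.Involutive σ) (h : ∀ u ∈ P, {u' | u' ∈ P ∧ lab u' = σ (lab u)}.Infinite) :
    ∃ π : α → α, ∀ u ∈ P, π u ∈ P ∧ π (π u) = u ∧ lab (π u) = σ (lab u) := by
  classical
  have h1 : ∀ b : β, ∃ (g : ℕ → α → α) (r : α → ℕ), {u' | u' ∈ P ∧ lab u' = b}.Infinite →
      (∀ n a, (g n a ∈ P ∧ lab (g n a) = b) ∧ r (g n a) = n) ∧
      (∀ n a a', g n a = g n a') ∧ ∀ u ∈ P, lab u = b → g (r u) u = u := by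
    intro b
    by_cases hb : {u' | u' ∈ P ∧ lab u' = b}.Infinite
    · haveI := hb.to_subtype
      obtain ⟨e⟩ := nonempty_equiv_of_countable (α := {u' | u' ∈ P ∧ lab u' = b}) (β := ℕ)
      refine ⟨fun n _ => (e.symm n).1,
        fun u => if hu : u ∈ {u' | u' ∈ P ∧ lab u' = b} then e ⟨u, hu⟩ else 0, fun _ =>
        ⟨fun n _ => ⟨(e.symm n).2, ?_⟩, fun _ _ _ => rfl, fun u hu hb => ?_⟩⟩
      · simp only
        rw [dif_pos (e.symm n).2]
        simp
      · simp only
        rw [dif_pos ⟨hu, hb⟩]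
        simp
    · exact ⟨fun _ a => a, fun _ => 0, fun h => absurd h hb⟩
  choose g r hg using h1
  refine ⟨fun u => g (σ (lab u)) (r (lab u) u) u, fun u hu => ?_⟩
  obtain ⟨k1, k2, k3⟩ := hg _ (h u hu)
  obtain ⟨⟨j1, j2⟩, j3⟩ := k1 (r (lab u) u) u
  refine ⟨j1, ?_, j2⟩
  have h2 := h _ j1
  rw [j2, hσ] at h2
  obtain ⟨l1, l2, l3⟩ := hg _ h2
  simp only
  rw [j2, hσ, j3, l2 _ _ u]
  exact l3 u hu rfl

end Pool.Agent.H619Z.TJ
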