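import Mathlib
import Pool.Agent.H619Z.TJC

set_option autoImplicit false

/-! Extension of an involution of a closed set by tail-preserving moves; the group. -/

namespace Pool.Agent.H619Z.TJ

open Filter Topology Encodable
open PiNat (res res_succ res_length res_eq_res)

section KR

variable (K : Set (ℕ → ℕ)) (f : (ℕ → ℕ) → ℕ → ℕ)

def inT (s : List ℕ) : Prop := ∃ v ∈ K, res v s.length = s

open Classical in
noncomputable def vv (s : List ℕ) : ℕ → ℕ := if h : inT K s then h.choose else fun _ => 0

def good (s : List ℕ) (k : ℕ) : Prop :=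
  ∀ v ∈ K, ∀ v' ∈ K, res v s.length = s → res v' s.length = s → res (f v) k = res (f v') k

open Classical in
noncomputable def kk (s : List ℕ) : ℕ := Nat.findGreatest (good K f s) s.length

noncomputable def aa (s : List ℕ) : List ℕ := res (f (vv K s)) (kk K f s)

noncomputable def base (h : List ℕ × Bool) : List ℕ := if h.2 then aa K f h.1 else h.1

open Classical in
noncomputable def kap (s : List ℕ) (c : ℕ) : List ℕ × Bool :=
  if inT K ((decode (α := List ℕ × Bool) (c / 2)).getD (s, false)).1 ∧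
      base K f ((decode (α := List ℕ × Bool) (c / 2)).getD (s, false)) = s
  then (decode (α := List ℕ × Bool) (c / 2)).getD (s, false) else (s, false)

def IsEx (u s : List ℕ) (c : ℕ) : Prop := inT K s ∧ ¬ inT K (c :: s) ∧ (c :: s) <:+ u

def PP : Set (List ℕ) := {u | ∃ s c, IsEx K u s c ∧ u.length = (kap K f s c).1.length + 2}

open Classical in
noncomputable def lab (u : List ℕ) : (List ℕ × Bool) × List ℕ :=
  (if h : ∃ p : List ℕ × ℕ, IsEx K u p.1 p.2 then kap K f h.choose.1 h.choose.2 else ([], false),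
    stL u)

variable {K f}

lemma vv_spec {s : List ℕ} (h : inT K s) : vv K s ∈ K ∧ res (vv K s) s.length = s := by
  unfold vv
  rw [dif_pos h]
  exact h.choose_spec

lemma inT_res {v : ℕ → ℕ} (hv : v ∈ K) (n : ℕ) : inT K (res v n) :=
  ⟨v, hv, by rw [res_length]⟩

lemma inT.suffix {s t : List ℕ} (h : inT K s) (ht : t <:+ s) : inT K t := by
  obtain ⟨v, hv, h⟩ := h
  rw [← h] at ht
  exact ⟨v, hv, (eq_res_of_suffix ht).symm⟩

lemma kk_le (s : List ℕ) : kk K f s ≤ s.length := by
  classical
  exact Nat.findGreatest_le _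

lemma base_length (h : List ℕ × Bool) : (base K f h).length ≤ h.1.length := by
  unfold base
  split_ifs
  · unfold aa; rw [res_length]; exact kk_le _
  · exact le_rfl

lemma inT_base (hf : ∀ w ∈ K, f w ∈ K ∧ f (f w) = w) {h : List ℕ × Bool} (hh : inT K h.1) :
    inT K (base K f h) := by
  unfold base
  split_ifs
  · exact inT_res (hf _ (vv_spec hh).1).1 _
  · exact hh

lemma kap_spec {s : List ℕ} (hs : inT K s) (c : ℕ) :
    inT K (kap K f s c).1 ∧ base K f (kap K f s c) = s := by
  unfold kap
  split_ifs with h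
  · exact h
  · exact ⟨hs, by simp [base]⟩

lemma kap_code {h : List ℕ × Bool} (hh : inT K h.1) :
    kap K f (base K f h) (2 * encode h + 1) = h := by
  have : (2 * encode h + 1) / 2 = encode h := by omega
  unfold kap
  rw [this, encodek, Option.getD_some, if_pos ⟨hh, rfl⟩]

lemma IsEx.unique {u s s' : List ℕ} {c c' : ℕ} (h : IsEx K u s c) (h' : IsEx K u s' c') :
    s = s' ∧ c = c' := by
  rcases List.suffix_or_suffix_of_suffix h.2.2 h'.2.2 with k | k
  · rcases List.suffix_cons_iff.1 k with k | k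
    · simp only [List.cons.injEq] at k; exact ⟨k.2, k.1⟩
    · exact absurd (h'.1.suffix k) h.2.1
  · rcases List.suffix_cons_iff.1 k with k | k
    · simp only [List.cons.injEq] at k; exact ⟨k.2.symm, k.1.symm⟩
    · exact absurd (h.1.suffix k) h'.2.1

lemma lab_eq {u s : List ℕ} {c : ℕ} (h : IsEx K u s c) : lab K f u = (kap K f s c, stL u) := by
  have h1 : ∃ p : List ℕ × ℕ, IsEx K u p.1 p.2 := ⟨(s, c), h⟩
  unfold lab
  rw [dif_pos h1]
  obtain ⟨k1, k2⟩ := h1.choose_spec.unique h
  rw [k1, k2]

lemma fibre_infinite (hf : ∀ w ∈ K, f w ∈ K ∧ f (f w) = w) (hev : ∀ v ∈ K, ∀ n, v n % 2 = 0)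
    {h : List ℕ × Bool} (hh : inT K h.1) {q : List ℕ} (hq : q.length = h.1.length + 2) :
    {u' | u' ∈ PP K f ∧ lab K f u' = (h, q)}.Infinite := by
  have hb := base_length (K := K) (f := f) h
  refine Set.infinite_of_injective_forall_mem
    (f := fun i : ℕ => (2 * Nat.pair (encode q) i + 1) ::
      (List.replicate (h.1.length - (base K f h).length) 0 ++
        ((2 * encode h + 1) :: base K f h))) ?_ fun i => ?_
  · intro i j hij
    simp only [List.cons.injEq, and_true] at hij
    have : Nat.pair (encode q) i = Nat.pair (encode q) j := by omega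
    exact (Nat.pair_eq_pair.1 this).2
  · have hex : IsEx K ((2 * Nat.pair (encode q) i + 1) ::
      (List.replicate (h.1.length - (base K f h).length) 0 ++
        ((2 * encode h + 1) :: base K f h))) (base K f h) (2 * encode h + 1) := by
      refine ⟨inT_base hf hh, ?_, (List.suffix_append _ _).trans (List.suffix_cons _ _)⟩
      rintro ⟨v, hv, h1⟩
      simp only [List.length_cons, res_succ, List.cons.injEq] at h1
      have := hev v hv (base K f h).length
      omega
    refine ⟨⟨_, _, hex, ?_⟩, ?_⟩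
    · rw [kap_code hh]
      simp only [List.length_cons, List.length_append, List.length_replicate]
      omega
    · rw [lab_eq hex, kap_code hh]
      congr 1
      unfold stL
      rw [if_neg (by omega)]
      have e1 : (2 * Nat.pair (encode q) i + 1) / 2 = Nat.pair (encode q) i := by omega
      have e2 : (List.replicate (h.1.length - (base K f h).length) 0 ++
        ((2 * encode h + 1) :: base K f h)).length + 1 = q.length := by
        simp only [List.length_cons, List.length_append, List.length_replicate]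
        omega
      rw [e1, e2, jumpTo_pair]

theorem kr_ext (hne : K.Nonempty) (hcl : IsClosed K) (hf : ∀ w ∈ K, f w ∈ K ∧ f (f w) = w)
    (hc : ContinuousOn f K) (hev : ∀ v ∈ K, ∀ n, v n % 2 = 0) :
    ∃ γ : (ℕ → ℕ) → ℕ → ℕ, Function.Involutive γ ∧ Continuous γ ∧ (∀ w ∈ K, γ w = f w) ∧
      ∀ w, w ∉ K → TailEq w (γ w) := by
  classical
  obtain ⟨π, hπ⟩ := label_involution (PP K f) (lab K f)
    (fun b => ((b.1.1, !b.1.2), b.2)) (fun b => by simp) (by
      rintro u ⟨s, c, h1, h2⟩
      rw [lab_eq h1]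
      exact fibre_infinite (h := ((kap K f s c).1, !(kap K f s c).2)) hf hev
        (kap_spec h1.1 c).1 (by rw [stL_length, h2]))
  have key : ∀ u s c, IsEx K u s c → u ∈ PP K f → ∃ s' c', IsEx K (π u) s' c' ∧
      kap K f s' c' = ((kap K f s c).1, !(kap K f s c).2) := by
    intro u s c h1 hu
    obtain ⟨⟨s', c', k1, -⟩, -, k3⟩ := hπ u hu
    rw [lab_eq k1, lab_eq h1] at k3
    exact ⟨s', c', k1, (Prod.ext_iff.1 k3).1⟩
  obtain ⟨γ, g1, g2, g3, -, g5⟩ := swap_ext (PP K f) π f K
    (by
      intro u hu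
      obtain ⟨k1, k2, k3⟩ := hπ u hu
      have k4 : stL (π u) = stL u := congrArg Prod.snd k3
      refine ⟨k1, k2, ?_, k4⟩
      rw [← stL_length, k4, stL_length])
    (by
      rintro w n m ⟨s, c, h1, h2⟩ ⟨s', c', h1', h2'⟩
      rw [res_length] at h2 h2'
      have e1 : IsEx K (res w (max n m)) s c :=
        ⟨h1.1, h1.2.1, h1.2.2.trans (res_suffix w (le_max_left _ _))⟩
      have e2 : IsEx K (res w (max n m)) s' c' :=
        ⟨h1'.1, h1'.2.1, h1'.2.2.trans (res_suffix w (le_max_right _ _))⟩
      obtain ⟨rfl, rfl⟩ := e1.unique e2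
      omega)
    (by
      intro w
      constructor
      · rintro hw n ⟨s, c, h1, -⟩
        exact h1.2.1 ((inT_res hw n).suffix h1.2.2)
      · intro h
        by_contra hw
        have h1 : ∃ n, ¬ inT K (res w n) := by
          obtain ⟨n, hn⟩ := exists_res_of_nhds (hcl.isOpen_compl.mem_nhds hw)
          refine ⟨n, ?_⟩
          rintro ⟨v, hv, h2⟩
          rw [res_length] at h2
          exact hn v h2 hv
        have h2 : Nat.find h1 ≠ 0 := by
          intro h0
          have := Nat.find_spec h1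
          rw [h0] at this
          obtain ⟨v, hv⟩ := hne
          exact this ⟨v, hv, rfl⟩
        obtain ⟨n, hn⟩ := Nat.exists_eq_succ_of_ne_zero h2
        have h3 : inT K (res w n) := by
          by_contra h4
          have := Nat.find_min' h1 h4
          omega
        have h4 : ¬ inT K (w n :: res w n) := by
          have := Nat.find_spec h1
          rwa [hn] at this
        refine h ((kap K f (res w n) (w n)).1.length + 2) ⟨res w n, w n, ⟨h3, h4, ?_⟩, by simp⟩
        have h5 := base_length (K := K) (f := f) (kap K f (res w n) (w n))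
        rw [(kap_spec h3 _).2, res_length] at h5
        exact res_suffix w (m := n + 1) (by omega))
    hf hc
    (by
      intro v hv n
      obtain ⟨m, hnm, hm⟩ := res_of_continuousOn hc hv n
      refine ⟨m, fun u hu hsuf => ?_⟩
      obtain ⟨s, c, h1, -⟩ := id hu
      obtain ⟨s', c', k1, k2⟩ := key u s c h1 hu
      have h2 : res v m <:+ s := by
        rcases List.suffix_or_suffix_of_suffix hsuf h1.2.2 with k | k
        · rcases List.suffix_cons_iff.1 k with k | k
          · exact absurd (k ▸ inT_res hv m) h1.2.1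
          · exact k
        · exact absurd ((inT_res hv m).suffix k) h1.2.1
      refine List.IsSuffix.trans ?_ ((List.suffix_cons c' s').trans k1.2.2)
      obtain ⟨j1, j2⟩ := kap_spec (f := f) h1.1 c
      have j3 := (kap_spec (f := f) k1.1 c').2
      rw [k2] at j3
      generalize kap K f s c = h at j1 j2 j3
      obtain ⟨s0, b⟩ := h
      obtain ⟨l1, l2⟩ := vv_spec j1
      simp only at l1 l2 j1
      cases b
      · simp only [base, Bool.false_eq_true, if_false, Bool.not_false, if_true] at j2 j3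
        subst j2
        rw [← j3]
        have hext : ∀ v' ∈ K, res v' s0.length = s0 → res (f v') n = res (f v) n := by
          intro v' hv' e
          apply hm v' hv'
          apply res_eq_of_suffix (n := s0.length)
          rwa [e]
        have hle : n ≤ kk K f s0 := by
          refine Nat.le_findGreatest ?_ ?_
          · have := h2.length_le
            rw [res_length] at this
            omega
          · intro v1 hv1 v2 hv2 e1 e2
            rw [hext v1 hv1 e1, hext v2 hv2 e2]
        rw [← hext _ l1 l2]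
        exact res_suffix _ hle
      · simp only [base, Bool.false_eq_true, if_false, Bool.not_true, if_true] at j2 j3
        subst j3
        rw [← j2] at h2
        have e1 := hm _ (hf _ l1).1 (res_eq_of_suffix h2)
        rw [(hf _ l1).2] at e1
        have e2 := h2.length_le
        unfold aa at e2
        rw [res_length, res_length] at e2
        have e3 := kk_le (K := K) (f := f) s0
        rw [← e1]
        have := res_suffix (vv K s0) (m := n) (n := s0.length) (by omega)
        rwa [l2] at this)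
  exact ⟨γ, g1, g2, g3, g5⟩

end KR

/-- the equivalence relation on Baire space -/
def FF (w w' : ℕ → ℕ) : Prop :=
  TailEq w w' ∨ ∃ x y, TE x y ∧ TailEq w (pur x) ∧ TailEq w' (pur y)

lemma FF.refl (w : ℕ → ℕ) : FF w w := Or.inl (TailEq.refl w)

lemma FF.symm {w w' : ℕ → ℕ} (h : FF w w') : FF w' w := by
  rcases h with h | ⟨x, y, h1, h2, h3⟩
  · exact Or.inl h.symm
  · exact Or.inr ⟨y, x, h1.symm, h3, h2⟩

lemma FF.trans {w w' w'' : ℕ → ℕ} (h : FF w w') (h' : FF w' w'') : FF w w'' := by
  rcases h with h | ⟨x, y, h1, h2, h3⟩ <;> rcases h' with h' | ⟨x', y', h1', h2', h3'⟩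
  · exact Or.inl (h.trans h')
  · exact Or.inr ⟨x', y', h1', h.trans h2', h3'⟩
  · exact Or.inr ⟨x, y, h1, h2, h'.symm.trans h3⟩
  · have := (h3.symm.trans h2').pur_eq
    subst this
    exact Or.inr ⟨x, y', h1.trans h1', h2, h3'⟩

theorem exists_group : ∃ (G : Type) (_ : Group G) (_ : Countable G) (_ : MulAction G (ℕ → ℕ)),
    (∀ g : G, Continuous (fun y : ℕ → ℕ => g • y)) ∧ ∀ w w', FF w w' ↔ ∃ g : G, g • w = w' := by
  classical
  have h1 : ∀ p : List ℕ × List ℕ, ∃ γ : (ℕ → ℕ) → ℕ → ℕ, Function.Involutive γ ∧ Continuous γ ∧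
      (∀ w, FF w (γ w)) ∧ (p.1.length = p.2.length → stL p.1 = stL p.2 →
        ∀ w, res w p.1.length = p.1 → γ w = glue p.2 w) := by
    intro p
    by_cases hp : p.1.length = p.2.length ∧ stL p.1 = stL p.2
    · obtain ⟨γ, k1, k2, k3, k4⟩ := exists_swap p.1 p.2 hp.1 hp.2
      exact ⟨γ, k1, k2, fun w => Or.inl (k3 w), fun _ _ => k4⟩
    · exact ⟨id, fun _ => rfl, continuous_id, FF.refl, fun a b => absurd ⟨a, b⟩ hp⟩
  have h2 : ∀ t : (ℕ × ℕ) × (ℕ × ℕ) × ℕ, ∃ γ : (ℕ → ℕ) → ℕ → ℕ, Function.Involutive γ ∧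
      Continuous γ ∧ (∀ w, FF w (γ w)) ∧ ∀ x y, SS t x y → γ (pur x) = pur y := by
    intro t
    by_cases ht : (KK t).Nonempty
    · obtain ⟨γ, k1, k2, k3, k4⟩ := kr_ext (f := fK t) ht (isClosed_KK t) (by
        rintro w ⟨x, y, h, rfl⟩
        rw [fK_pur h, fK_pur h.symm]
        exact ⟨⟨y, x, h.symm, rfl⟩, rfl⟩) (continuousOn_fK t) (by
        rintro w ⟨x, y, h, rfl⟩ n
        unfold pur
        omega)
      refine ⟨γ, k1, k2, fun w => ?_, fun x y h => ?_⟩
      · by_cases hw : w ∈ KK t
        · rw [k3 w hw]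
          obtain ⟨x, y, h, rfl⟩ := hw
          rw [fK_pur h]
          exact Or.inr ⟨x, y, h.te, TailEq.refl _, TailEq.refl _⟩
        · exact Or.inl (k4 w hw)
      · rw [k3 _ ⟨x, y, h, rfl⟩, fK_pur h]
    · exact ⟨id, fun _ => rfl, continuous_id, FF.refl,
        fun x y h => absurd ⟨pur x, x, y, h, rfl⟩ ht⟩
  choose γ1 a1 a2 a3 a4 using h1
  choose γ2 b1 b2 b3 b4 using h2
  let gen : (List ℕ × List ℕ) ⊕ ((ℕ × ℕ) × (ℕ × ℕ) × ℕ) → Equiv.Perm (ℕ → ℕ) :=
    Sum.elim (fun p => (a1 p).toPerm) (fun t => (b1 t).toPerm)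
  let Γ : Subgroup (Equiv.Perm (ℕ → ℕ)) :=
    { carrier := {σ | Continuous σ ∧ Continuous σ.symm ∧ ∀ w, FF w (σ w)}
      mul_mem' := fun {σ τ} hσ hτ =>
        ⟨hσ.1.comp hτ.1, hτ.2.1.comp hσ.2.1, fun w => (hτ.2.2 w).trans (hσ.2.2 _)⟩
      one_mem' := ⟨continuous_id, continuous_id, FF.refl⟩
      inv_mem' := fun {σ} hσ => ⟨hσ.2.1, hσ.1, fun w => by
        have := (hσ.2.2 (σ⁻¹ w)).symm
        simpa using this⟩ }
  have hΓ : ∀ g, FreeGroup.lift gen g ∈ Γ := by
    intro g
    have : (FreeGroup.lift gen).range ≤ Γ := by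
      rw [FreeGroup.range_lift_eq_closure, Subgroup.closure_le]
      rintro _ ⟨i, rfl⟩
      cases i with
      | inl p => exact ⟨a2 p, a2 p, a3 p⟩
      | inr t => exact ⟨b2 t, b2 t, b3 t⟩
    exact this ⟨g, rfl⟩
  have htail : ∀ w w', TailEq w w' → ∃ g, FreeGroup.lift gen g w = w' := by
    rintro w w' ⟨m, k1, k2⟩
    refine ⟨FreeGroup.of (Sum.inl (res w m, res w' m)), ?_⟩
    rw [FreeGroup.lift_apply_of]
    change γ1 (res w m, res w' m) w = w'
    rw [a4 (res w m, res w' m) (by simp) k1 w (by simp)]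
    refine ext_res (m := m) ?_ fun n hn => ?_
    · have := res_glue (res w' m) w
      rwa [res_length] at this
    · rw [glue_ge _ _ _ (by simpa using hn), k2 n hn]
  refine ⟨FreeGroup ((List ℕ × List ℕ) ⊕ ((ℕ × ℕ) × (ℕ × ℕ) × ℕ)), inferInstance, inferInstance,
    MulAction.compHom (ℕ → ℕ) (FreeGroup.lift gen), fun g => (hΓ g).1, fun w w' => ⟨?_, ?_⟩⟩
  · rintro (h | ⟨x, y, k1, k2, k3⟩)
    · exact htail w w' h
    · obtain ⟨g1, e1⟩ := htail _ _ k2
      obtain ⟨g3, e3⟩ := htail _ _ k3.symm
      have : ∃ g, FreeGroup.lift gen g (pur x) = pur y := by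
        by_cases hxy : x = y
        · exact ⟨1, by rw [hxy]; simp⟩
        · obtain ⟨t, ht⟩ := exists_SS k1 hxy
          refine ⟨FreeGroup.of (Sum.inr t), ?_⟩
          rw [FreeGroup.lift_apply_of]
          exact b4 t x y ht
      obtain ⟨g2, e2⟩ := this
      refine ⟨g3 * g2 * g1, ?_⟩
      change FreeGroup.lift gen (g3 * g2 * g1) w = w'
      rw [map_mul, map_mul, Equiv.Perm.mul_apply, Equiv.Perm.mul_apply, e1, e2, e3]
  · rintro ⟨g, rfl⟩
    exact (hΓ g).2.2 w

end Pool.Agent.H619Z.TJ
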