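import Mathlib
import Pool.Agent.H619Z.TJB

set_option autoImplicit false

/-! A continuous embedding of eventual equality into Turing equivalence. -/

namespace Pool.Agent.H619Z.TJ

open Pool.Agent.Helper743

lemma finite_dense {C ι : Type} [Finite ι] (r : C → C → Prop) (hrefl : ∀ c, r c c)
    (htrans : ∀ a b c, r a b → r b c → r a c) (Q : ι → C → Prop)
    (hup : ∀ i c c', r c c' → Q i c → Q i c') (hd : ∀ i c, ∃ c', r c c' ∧ Q i c') (c : C) :
    ∃ c', r c c' ∧ ∀ i, Q i c' := by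
  classical
  haveI := Fintype.ofFinite ι
  have : ∀ s : Finset ι, ∃ c', r c c' ∧ ∀ i ∈ s, Q i c' := by
    intro s
    induction s using Finset.induction_on with
    | empty => exact ⟨c, hrefl c, by simp⟩
    | insert i s _ ih =>
      obtain ⟨c1, h1, h2⟩ := ih
      obtain ⟨c2, h3, h4⟩ := hd i c1
      refine ⟨c2, htrans _ _ _ h1 h3, fun j hj => ?_⟩
      rcases Finset.mem_insert.1 hj with rfl | hj
      · exact h4
      · exact hup j _ _ h3 (h2 j hj)
  obtain ⟨c', h1, h2⟩ := this Finset.univ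
  exact ⟨c', h1, fun i => h2 i (Finset.mem_univ i)⟩

abbrev Cond : Type := ℕ × (ℕ → (Bool → Bool) × ℕ)

def hG (G : ℕ → (Bool → Bool) × ℕ) (a : ℕ → Bool) : ℕ → Bool := fun i => (G i).1 (a (G i).2)

def Ext (n : ℕ) (c c' : Cond) : Prop :=
  c.1 ≤ c'.1 ∧ (∀ i < c.1, c'.2 i = c.2 i) ∧ ∀ i, c.1 ≤ i → i < c'.1 → (c'.2 i).2 = n

def Inv (n : ℕ) (c : Cond) : Prop := ∀ i < c.1, (c.2 i).2 ≤ n

lemma Ext.refl (n : ℕ) (c : Cond) : Ext n c c := ⟨le_rfl, fun _ _ => rfl, fun i h1 h2 => by omega⟩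

lemma Ext.trans {n : ℕ} {a b c : Cond} (h : Ext n a b) (h' : Ext n b c) : Ext n a c := by
  refine ⟨h.1.trans h'.1, fun i hi => ?_, fun i h1 h2 => ?_⟩
  · rw [h'.2.1 i (lt_of_lt_of_le hi h.1), h.2.1 i hi]
  · by_cases hi : i < b.1
    · rw [h'.2.1 i hi, h.2.2 i h1 hi]
    · exact h'.2.2 i (by omega) h2

lemma Ext.inv {n : ℕ} {c c' : Cond} (h : Ext n c c') (hc : Inv n c) : Inv n c' := by
  intro i hi
  by_cases h1 : i < c.1
  · rw [h.2.1 i h1]; exact hc i h1
  · rw [h.2.2 i (by omega) hi]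

def Req (n e : ℕ) (a0 b0 : ℕ → Bool) (c : Cond) : Prop :=
  ∀ G : ℕ → (Bool → Bool) × ℕ, (∀ i < c.1, G i = c.2 i) → ∀ a b : ℕ → Bool,
    (∀ i ≤ n, a i = a0 i) → (∀ i ≤ n, b i = b0 i) → a n ≠ b n → ¬ R1 e (hG G a) (hG G b)

lemma Req.up {n e : ℕ} {a0 b0 : ℕ → Bool} {c c' : Cond} (h : Ext n c c') (hq : Req n e a0 b0 c) :
    Req n e a0 b0 c' := fun G hG' =>
  hq G fun i hi => by rw [hG' i (lt_of_lt_of_le hi h.1), h.2.1 i hi]

lemma req_dense (n e : ℕ) (a0 b0 : ℕ → Bool) (c : Cond) (hc : Inv n c) :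
    ∃ c', Ext n c c' ∧ Req n e a0 b0 c' := by
  classical
  have hagree : ∀ G : ℕ → (Bool → Bool) × ℕ, (∀ i < c.1, G i = c.2 i) → ∀ a : ℕ → Bool,
      (∀ i ≤ n, a i = a0 i) → ∀ i < c.1, hG G a i = hG c.2 a0 i := by
    intro G h1 a h2 i hi
    unfold hG
    rw [h1 i hi, h2 _ (hc i hi)]
  by_cases h : ∃ x : ℕ → Bool, (∀ i < c.1, x i = hG c.2 a0 i) ∧
      ∃ v, v ∈ phi (tn x) (Nat.pair e c.1)
  · obtain ⟨x, hx, v, hv⟩ := h
    obtain ⟨j, hj⟩ := phi_local hv
    refine ⟨(max j (c.1 + 1), fun i => if i < c.1 then c.2 i else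
      (fun β => if β = a0 n then x i else decide (v = 0), n)), ⟨?_, ?_, ?_⟩, ?_⟩
    · simp only; omega
    · intro i hi; simp only [if_pos hi]
    · intro i h1 _; simp only; rw [if_neg (by omega)]
    · intro G h1 a b ha hb hab hR
      simp only at h1
      have h2 : ∀ i < max j (c.1 + 1), hG G a i = x i := by
        intro i hi
        by_cases hic : i < c.1
        · rw [hx i hic]
          refine hagree G (fun k hk => ?_) a ha i hic
          rw [h1 k (by omega), if_pos hk]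
        · unfold hG
          rw [h1 i hi, if_neg hic]
          simp only
          rw [if_pos (ha n le_rfl)]
      have h3 : hG G b c.1 = decide (v = 0) := by
        unfold hG
        rw [h1 c.1 (by omega), if_neg (lt_irrefl _)]
        simp only
        rw [if_neg (by rw [← ha n le_rfl]; exact hab.symm)]
      have h4 := hj (tn (hG G a)) (fun i hi => by unfold tn; rw [h2 i (by omega)])
      rw [hR c.1, Part.mem_some_iff] at h4
      unfold tn at h4
      rw [h3] at h4
      by_cases hv0 : v = 0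
      · simp [hv0] at h4
      · simp [hv0] at h4
  · refine ⟨c, Ext.refl n c, fun G h1 a b ha _ _ hR => h ⟨hG G a, hagree G h1 a ha, ?_⟩⟩
    exact ⟨_, by rw [hR c.1]; exact Part.mem_some _⟩

lemma stage (n : ℕ) (c : Cond) : ∃ c' : Cond, Inv n c → Ext n c c' ∧ c.1 < c'.1 ∧
    (c'.2 c.1).1 = id ∧ ∀ e ≤ n, ∀ G : ℕ → (Bool → Bool) × ℕ, (∀ i < c'.1, G i = c'.2 i) →
      ∀ a b : ℕ → Bool, a n ≠ b n → ¬ R1 e (hG G a) (hG G b) := by
  classical
  by_cases hc : Inv n c
  swap
  · exact ⟨c, fun h => absurd h hc⟩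
  let c1 : Cond := (c.1 + 1, Function.update c.2 c.1 (id, n))
  have h1 : Ext n c c1 := by
    refine ⟨Nat.le_succ _, fun i hi => Function.update_of_ne (by omega) _ _, fun i k1 k2 => ?_⟩
    have : i = c.1 := by simp only [c1] at k2; omega
    subst this
    simp [c1]
  let ex : (Fin (n + 1) → Bool) → ℕ → Bool := fun s i => if h : i < n + 1 then s ⟨i, h⟩ else false
  obtain ⟨c2, h2, h3⟩ := finite_dense (C := {c : Cond // Inv n c})
    (ι := Fin (n + 1) × (Fin (n + 1) → Bool) × (Fin (n + 1) → Bool))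
    (fun a b => Ext n a.1 b.1) (fun a => Ext.refl n a.1) (fun _ _ _ k1 k2 => k1.trans k2)
    (fun i a => Req n i.1 (ex i.2.1) (ex i.2.2) a.1) (fun _ _ _ k1 k2 => k2.up k1)
    (fun i a => by
      obtain ⟨c', k1, k2⟩ := req_dense n i.1 (ex i.2.1) (ex i.2.2) a.1 a.2
      exact ⟨⟨c', k1.inv a.2⟩, k1, k2⟩) ⟨c1, h1.inv hc⟩
  refine ⟨c2.1, fun _ => ⟨h1.trans h2, h2.1, ?_, fun e he G hG' a b hab => ?_⟩⟩
  · rw [h2.2.1 c.1 (Nat.lt_succ_self _)]
    simp [c1]
  · refine h3 (⟨e, by omega⟩, fun i => a i, fun i => b i) G hG' a b ?_ ?_ hab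
    · intro i hi; simp only [ex]; rw [dif_pos (by omega)]
    · intro i hi; simp only [ex]; rw [dif_pos (by omega)]

theorem exists_embedding : ∃ h : (ℕ → Bool) → ℕ → Bool, Measurable h ∧ Function.Injective h ∧
    (∀ a b, {n | a n ≠ b n}.Finite → TE (h a) (h b)) ∧
    ∀ a b, {n | a n ≠ b n}.Infinite → ¬ TR (tn (h b)) (tn (h a)) := by
  choose nx hnx using stage
  let sq : ℕ → Cond := fun n => Nat.rec (0, fun _ => (id, 0)) (fun n c => nx n c) n
  have hs : ∀ n, sq (n + 1) = nx n (sq n) := fun _ => rfl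
  have hinv : ∀ n, Inv n (sq n) := by
    intro n
    induction n with
    | zero => intro i hi; exact absurd hi (Nat.not_lt_zero _)
    | succ n ih =>
      intro i hi
      exact ((hnx n _ ih).1.inv ih i hi).trans (Nat.le_succ _)
  have hst := fun n => hnx n _ (hinv n)
  simp only [← hs] at hst
  have hmono : StrictMono (fun n => (sq n).1) := strictMono_nat_of_lt_succ fun n => (hst n).2.1
  have hag : ∀ n m, n ≤ m → ∀ i < (sq n).1, (sq m).2 i = (sq n).2 i := by
    intro n m hnm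
    induction m, hnm using Nat.le_induction with
    | base => intro _ _; rfl
    | succ m hnm ih =>
      intro i hi
      rw [(hst m).1.2.1 i (lt_of_lt_of_le hi (hmono.monotone hnm)), ih i hi]
  let G : ℕ → (Bool → Bool) × ℕ := fun i => (sq (i + 1)).2 i
  have hlt : ∀ i, i < (sq (i + 1)).1 := fun i => hmono.le_apply (x := i + 1)
  have hG1 : ∀ n, ∀ i < (sq n).1, G i = (sq n).2 i := by
    intro n i hi
    simp only [G]
    rcases le_total n (i + 1) with h | h
    · exact hag n _ h i hi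
    · exact (hag _ n h i (hlt i)).symm
  have hblk : ∀ n m, ∀ i < (sq m).1, (sq n).1 ≤ i → n ≤ (G i).2 := by
    intro n m
    induction m with
    | zero => intro i hi; exact absurd hi (Nat.not_lt_zero _)
    | succ m ih =>
      intro i hi hn
      by_cases h : i < (sq m).1
      · exact ih i h hn
      · rw [hG1 (m + 1) i hi, (hst m).1.2.2 i (by omega) hi]
        have : n < m + 1 := hmono.lt_iff_lt.1 (lt_of_le_of_lt hn hi)
        omega
  refine ⟨hG G, ?_, fun a b hab => ?_, fun a b hab => ?_, fun a b hab hT => ?_⟩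
  · rw [measurable_pi_iff]
    intro i
    exact (measurable_of_countable (G i).1).comp (measurable_pi_apply _)
  · funext n
    have := congrFun hab (sq n).1
    unfold hG at this
    rw [hG1 (n + 1) _ (hst n).2.1, (hst n).2.2.1, (hst n).1.2.2 _ le_rfl (hst n).2.1] at this
    exact this
  · obtain ⟨N, hN⟩ := hab.bddAbove
    have : ∀ i, (sq (N + 1)).1 ≤ i → tn (hG G a) i = tn (hG G b) i := by
      intro i hi
      have h1 := hblk (N + 1) (i + 1) i (hlt i) hi
      have h2 : a (G i).2 = b (G i).2 := by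
        by_contra h3
        have := hN h3
        omega
      unfold tn hG
      rw [h2]
    exact ⟨TR_of_eventually fun i hi => (this i hi).symm, TR_of_eventually this⟩
  · obtain ⟨e, he⟩ := exists_R1 hT
    obtain ⟨n, hn, hen⟩ := hab.exists_gt e
    exact (hst n).2.2.2 e hen.le G (hG1 (n + 1)) a b hn he

end Pool.Agent.H619Z.TJ
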