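import Mathlib

set_option autoImplicit false

/-! Borel bijections inside a relation. -/

namespace Pool.Agent.H619Z.TJ

open Set Function

section

variable {S X Y : Type} [MeasurableSpace S] [StandardBorelSpace S]
  [MeasurableSpace X] [StandardBorelSpace X] [MeasurableSpace Y] [StandardBorelSpace Y]

lemma exists_factor [Nonempty Y] {D : Set S} (hD : MeasurableSet D) {a : S → X} {b : S → Y}
    (ha : Measurable a) (hb : Measurable b) (hi : InjOn a D) :
    ∃ p : X → Y, Measurable p ∧ ∀ z ∈ D, p (a z) = b z := by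
  classical
  obtain ⟨y0⟩ := ‹Nonempty Y›
  let p : X → Y := fun x => if h : x ∈ a '' D then b h.choose else y0
  have h1 : ∀ z ∈ D, p (a z) = b z := by
    intro z hz
    have h : a z ∈ a '' D := ⟨z, hz, rfl⟩
    simp only [p, dif_pos h]
    rw [hi h.choose_spec.1 hz h.choose_spec.2]
  refine ⟨p, fun V hV => ?_, h1⟩
  have : p ⁻¹' V = a '' (D ∩ b ⁻¹' V) ∪ ((a '' D)ᶜ ∩ {_x | y0 ∈ V}) := by
    ext x
    by_cases h : x ∈ a '' D
    · obtain ⟨z, hz, rfl⟩ := h
      simp only [mem_preimage, h1 z hz, mem_union, mem_inter_iff, mem_compl_iff]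
      constructor
      · intro h; exact Or.inl ⟨z, ⟨hz, h⟩, rfl⟩
      · rintro (⟨z', ⟨h2, h3⟩, h4⟩ | h2)
        · rw [← hi h2 hz h4]; exact h3
        · exact absurd ⟨z, hz, rfl⟩ h2.1
    · have h2 : p x = y0 := by simp only [p, dif_neg h]
      simp only [mem_preimage, h2, mem_union, mem_inter_iff, mem_compl_iff]
      constructor
      · intro h3; exact Or.inr ⟨h, h3⟩
      · rintro (⟨z', ⟨h2, -⟩, h4⟩ | h2)
        · exact absurd ⟨z', h2, h4⟩ h
        · exact h2.2
  rw [this]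
  exact ((hD.inter (hb hV)).image_of_measurable_injOn ha (hi.mono inter_subset_left)).union
    ((hD.image_of_measurable_injOn ha hi).compl.inter (MeasurableSet.const _))

def Piece {X Y : Type} [MeasurableSpace X] [MeasurableSpace Y] (R : X → Y → Prop) (U : Set X) :
    Prop :=
  MeasurableSet U ∧ ∃ p : X → Y, Measurable p ∧ InjOn p U ∧ ∀ x ∈ U, R x (p x)

lemma piece_of_param [Nonempty Y] (R : X → Y → Prop) {D : Set S} (hD : MeasurableSet D)
    {a : S → X} {b : S → Y} (ha : Measurable a) (hb : Measurable b) (hi : InjOn a D)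
    (hj : InjOn b D) (hR : ∀ z ∈ D, R (a z) (b z)) : Piece R (a '' D) := by
  obtain ⟨p, h1, h2⟩ := exists_factor hD ha hb hi
  refine ⟨hD.image_of_measurable_injOn ha hi, p, h1, ?_, ?_⟩
  · rintro _ ⟨z, hz, rfl⟩ _ ⟨z', hz', rfl⟩ h
    rw [h2 z hz, h2 z' hz'] at h
    rw [hj hz hz' h]
  · rintro _ ⟨z, hz, rfl⟩
    rw [h2 z hz]
    exact hR z hz

omit [StandardBorelSpace X] [StandardBorelSpace Y] in
lemma inj_of_pieces {ι : Type} [Countable ι] [Nonempty ι] (R : X → Y → Prop) (U : ι → Set X)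
    (hU : ∀ i, Piece R (U i)) (hcov : ∀ x, ∃ i, x ∈ U i) (c : ℕ → Y → Y)
    (hc : ∀ n, Measurable (c n)) (hinj : ∀ n m y y', c n y = c m y' → n = m ∧ y = y')
    (hR : ∀ n x y, R x y → R x (c n y)) :
    ∃ i : X → Y, Measurable i ∧ Injective i ∧ ∀ x, R x (i x) := by
  classical
  obtain ⟨e, he⟩ := exists_surjective_nat ι
  choose hm p h1 h2 h3 using hU
  have hcov' : ∀ x, ∃ n, x ∈ U (e n) := by
    intro x
    obtain ⟨i, hi⟩ := hcov x
    obtain ⟨n, rfl⟩ := he i
    exact ⟨n, hi⟩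
  refine ⟨fun x => c (Nat.find (hcov' x)) (p (e (Nat.find (hcov' x))) x), ?_, ?_, ?_⟩
  · exact Measurable.find (f := fun n x => c n (p (e n) x)) (p := fun n x => x ∈ U (e n))
      (fun n => (hc n).comp (h1 _)) (fun n => hm _) hcov'
  · intro x x' h
    obtain ⟨k1, k2⟩ := hinj _ _ _ _ h
    have k3 := Nat.find_spec (hcov' x)
    have k4 := Nat.find_spec (hcov' x')
    rw [k1] at k2 k3
    exact h2 _ k3 k4 k2
  · intro x
    exact hR _ _ _ (h3 _ x (Nat.find_spec (hcov' x)))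

theorem sb_rel [Nonempty Y] (R : X → Y → Prop) {i : X → Y} {j : Y → X} (hi : Measurable i)
    (hj : Measurable j) (ii : Injective i) (ij : Injective j) (ri : ∀ x, R x (i x))
    (rj : ∀ y, R (j y) y) : ∃ Φ : X ≃ᵐ Y, ∀ x, R x (Φ x) := by
  classical
  obtain ⟨p, hp, hpj⟩ := exists_factor (D := univ) MeasurableSet.univ hj measurable_id ij.injOn
  simp only [mem_univ, id, forall_true_left] at hpj
  let A : Set X := ⋃ n, (j ∘ i)^[n] '' (range j)ᶜ
  have hA : MeasurableSet A := by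
    refine MeasurableSet.iUnion fun n => ?_
    exact (hj.measurableEmbedding ij).measurableSet_range.compl.image_of_measurable_injOn
      ((hj.comp hi).iterate n) ((ij.comp ii).iterate n).injOn
  have h1 : ∀ x, x ∉ A → ∃ y, j y = x := by
    intro x hx
    by_contra h
    exact hx (mem_iUnion.2 ⟨0, x, h, rfl⟩)
  have h2 : ∀ x ∈ A, j (i x) ∈ A := by
    intro x hx
    obtain ⟨n, x0, k1, rfl⟩ := mem_iUnion.1 hx
    exact mem_iUnion.2 ⟨n + 1, x0, k1, by rw [iterate_succ_apply']; rfl⟩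
  have h3 : ∀ y, j y ∈ A → ∃ x ∈ A, i x = y := by
    intro y hy
    obtain ⟨n, x0, k1, k2⟩ := mem_iUnion.1 hy
    cases n with
    | zero => exact absurd ⟨y, k2.symm⟩ k1
    | succ n =>
      rw [iterate_succ_apply'] at k2
      exact ⟨_, mem_iUnion.2 ⟨n, x0, k1, rfl⟩, ij k2⟩
  let Φ : X → Y := fun x => if x ∈ A then i x else p x
  have hΦ : Measurable Φ := Measurable.ite hA hi hp
  have e1 : ∀ x ∈ A, Φ x = i x := fun x hx => if_pos hx
  have e2 : ∀ y, j y ∉ A → Φ (j y) = y := fun y hy => by simp only [Φ, if_neg hy, hpj]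
  have hb : Bijective Φ := by
    constructor
    · intro x x' h
      by_cases hx : x ∈ A <;> by_cases hx' : x' ∈ A
      · rw [e1 x hx, e1 x' hx'] at h; exact ii h
      · obtain ⟨y, rfl⟩ := h1 x' hx'
        rw [e1 x hx, e2 y hx'] at h
        exact absurd (h ▸ h2 x hx) hx'
      · obtain ⟨y, rfl⟩ := h1 x hx
        rw [e1 x' hx', e2 y hx] at h
        exact absurd (h ▸ h2 x' hx') hx
      · obtain ⟨y, rfl⟩ := h1 x hx
        obtain ⟨y', rfl⟩ := h1 x' hx'
        rw [e2 y hx, e2 y' hx'] at h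
        rw [h]
    · intro y
      by_cases hy : j y ∈ A
      · obtain ⟨x, hx, rfl⟩ := h3 y hy
        exact ⟨x, e1 x hx⟩
      · exact ⟨j y, e2 y hy⟩
  refine ⟨⟨Equiv.ofBijective Φ hb, hΦ, fun s hs => ?_⟩, fun x => ?_⟩
  · rw [← Equiv.image_eq_preimage_symm]
    exact hs.image_of_measurable_injOn hΦ hb.1.injOn
  · change R x (Φ x)
    by_cases hx : x ∈ A
    · rw [e1 x hx]; exact ri x
    · obtain ⟨y, rfl⟩ := h1 x hx
      rw [e2 y hx]; exact rj y

end

end Pool.Agent.H619Z.TJ
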