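import Mathlib
import Pool.Agent.H619Z.TJD
import Pool.Agent.H619Z.TJE
import Pool.Agent.H619Z.TJF

set_option autoImplicit false

/-! The Borel isomorphism. -/

namespace Pool.Agent.H619Z.TJ

open Pool.Agent.Helper743 Set Function Encodable
open PiNat (res res_succ res_length res_eq_res)

lemma measurable_of_local {γ : Type} [MeasurableSpace γ] [Countable γ]
    [MeasurableSingletonClass γ] {F : (ℕ → ℕ) → γ} (j : ℕ)
    (h : ∀ v v', res v' j = res v j → F v' = F v) : Measurable F := by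
  apply measurable_to_countable'
  intro c
  refine (isOpen_of_local fun v hv => ⟨j, fun v' hv' => ?_⟩).measurableSet
  rw [mem_preimage, h v v' (res_eq_res.2 fun m hm => hv' m hm)]
  exact hv

def cd (N : ℕ) (v : ℕ → ℕ) (n : ℕ) : ℕ := encode (N, st v n, v n)

def code (N : ℕ) (v : ℕ → ℕ) : ℕ → Bool := fun m => decide (m.unpair.2 = cd N v m.unpair.1)

lemma cd_eq {N N' : ℕ} {v v' : ℕ → ℕ} {n : ℕ} :
    cd N v n = cd N' v' n ↔ N = N' ∧ st v n = st v' n ∧ v n = v' n := by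
  unfold cd
  rw [encode_inj]
  simp

lemma code_finite {N N' : ℕ} {v v' : ℕ → ℕ} :
    {m | code N v m ≠ code N' v' m}.Finite ↔ {n | cd N v n ≠ cd N' v' n}.Finite := by
  constructor
  · intro h
    refine (h.image (fun m => m.unpair.1)).subset fun n hn => ⟨Nat.pair n (cd N v n), ?_, by simp⟩
    simp only [code, Nat.unpair_pair, mem_ofPred_eq, decide_true]
    rw [decide_eq_false hn]
    simp
  · intro h
    refine ((h.image (fun n => Nat.pair n (cd N v n))).union
      (h.image (fun n => Nat.pair n (cd N' v' n)))).subset fun m hm => ?_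
    simp only [code, mem_ofPred_eq, ne_eq, decide_eq_decide] at hm
    have h1 : cd N v m.unpair.1 ≠ cd N' v' m.unpair.1 := by
      intro h1; rw [h1] at hm; exact hm Iff.rfl
    by_cases h2 : m.unpair.2 = cd N v m.unpair.1
    · exact Or.inl ⟨m.unpair.1, h1, by simp only; rw [← h2, Nat.pair_unpair]⟩
    · have h3 : m.unpair.2 = cd N' v' m.unpair.1 := by
        by_contra h3
        exact hm ⟨fun k => absurd k h2, fun k => absurd k h3⟩
      exact Or.inr ⟨m.unpair.1, h1, by simp only; rw [← h3, Nat.pair_unpair]⟩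

lemma cd_finite {N N' : ℕ} {v v' : ℕ → ℕ} :
    {n | cd N v n ≠ cd N' v' n}.Finite ↔ N = N' ∧ TailEq v v' := by
  constructor
  · intro h
    obtain ⟨M, hM⟩ := h.bddAbove
    have : ∀ n, M + 1 ≤ n → cd N v n = cd N' v' n := by
      intro n hn
      by_contra h1
      have := hM h1
      omega
    exact ⟨(cd_eq.1 (this _ le_rfl)).1, M + 1, (cd_eq.1 (this _ le_rfl)).2.1,
      fun n hn => (cd_eq.1 (this n hn)).2.2⟩
  · rintro ⟨rfl, m, h1, h2⟩
    refine (Set.finite_lt_nat m).subset fun n hn => ?_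
    by_contra h3
    have h4 : m ≤ n := by simpa using h3
    exact hn (cd_eq.2 ⟨rfl, st_mono h1 h2 n h4, h2 n h4⟩)

theorem exists_hh : ∃ hh : ℕ → (ℕ → ℕ) → ℕ → Bool, (∀ N, Measurable (hh N)) ∧
    (∀ N, Injective (hh N)) ∧ (∀ N v v', TailEq v v' → TE (hh N v) (hh N v')) ∧
    ∀ N N' v v', TR (tn (hh N' v')) (tn (hh N v)) → N = N' ∧ TailEq v v' := by
  obtain ⟨h, h1, h2, h3, h4⟩ := exists_embedding
  refine ⟨fun N v => h (code N v), fun N => h1.comp ?_, fun N v v' k => ?_,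
    fun N v v' k => h3 _ _ (code_finite.2 (cd_finite.2 ⟨rfl, k⟩)), fun N N' v v' k => ?_⟩
  · rw [measurable_pi_iff]
    intro m
    refine measurable_of_local (m.unpair.1 + 1) fun v v' k => ?_
    simp only [res_succ, List.cons.injEq] at k
    unfold code cd st
    rw [k.1, k.2]
  · funext n
    have := congrFun (h2 k) (Nat.pair n (cd N v n))
    simp only [code, Nat.unpair_pair, decide_true, true_eq_decide_iff] at this
    exact (cd_eq.1 this).2.2
  · rw [← cd_finite, ← code_finite]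
    by_contra k2
    exact h4 _ _ k2 k

def cW (n : ℕ) (w : ℕ → ℕ) : ℕ → ℕ :=
  Function.update w 0 (2 * Nat.pair (encode (st w 1)) (Nat.pair n (w 0)) + 1)

lemma measurable_cW (n : ℕ) : Measurable (cW n) := by
  rw [measurable_pi_iff]
  intro m
  refine measurable_of_local (m + 1) fun v v' k => ?_
  have k0 : res v' 1 = res v 1 := res_of_le (by omega) k
  unfold cW st
  by_cases hm : m = 0
  · subst hm
    simp only [update_self]
    rw [k0, res_eq_res.1 k0 Nat.one_pos]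
  · rw [update_of_ne hm, update_of_ne hm]
    exact res_eq_res.1 k (Nat.lt_succ_self m)

lemma cW_inj (n m : ℕ) (w w' : ℕ → ℕ) (h : cW n w = cW m w') : n = m ∧ w = w' := by
  have h0 := congrFun h 0
  simp only [cW, update_self] at h0
  have h1 : Nat.pair (encode (st w 1)) (Nat.pair n (w 0)) =
      Nat.pair (encode (st w' 1)) (Nat.pair m (w' 0)) := by omega
  rw [Nat.pair_eq_pair, Nat.pair_eq_pair] at h1
  refine ⟨h1.2.1, funext fun k => ?_⟩
  by_cases hk : k = 0
  · rw [hk]; exact h1.2.2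
  · have := congrFun h k
    unfold cW at this
    rwa [update_of_ne hk, update_of_ne hk] at this

lemma tailEq_cW (n : ℕ) (w : ℕ → ℕ) : TailEq w (cW n w) := by
  refine ⟨1, ?_, fun k hk => by unfold cW; rw [update_of_ne (by omega)]⟩
  have h1 : (st w 1).length = 1 := by unfold st; rw [stL_length, res_length]
  have h2 : st (cW n w) 1 = jumpTo 1 (Nat.pair (encode (st w 1)) (Nat.pair n (w 0))) := by
    have e : cW n w 0 = 2 * Nat.pair (encode (st w 1)) (Nat.pair n (w 0)) + 1 := by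
      simp only [cW, update_self]
    change stL [cW n w 0] = _
    unfold stL
    rw [if_neg (by omega)]
    congr 1
    omega
  rw [h2]
  conv_rhs => rw [← h1]
  rw [h1]
  have := jumpTo_pair (st w 1) (Nat.pair n (w 0))
  rw [h1] at this
  exact this.symm

def cC (n : ℕ) (x : ℕ → Bool) : ℕ → Bool :=
  fun i => if i < n then true else if i = n then false else x (i - (n + 1))

lemma measurable_cC (n : ℕ) : Measurable (cC n) := by
  rw [measurable_pi_iff]
  intro i
  unfold cC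
  split_ifs
  · exact measurable_const
  · exact measurable_const
  · exact measurable_pi_apply _

lemma cC_add (n : ℕ) (x : ℕ → Bool) (i : ℕ) : cC n x (i + (n + 1)) = x i := by
  unfold cC
  rw [if_neg (by omega), if_neg (by omega), Nat.add_sub_cancel]

lemma cC_inj (n m : ℕ) (x x' : ℕ → Bool) (h : cC n x = cC m x') : n = m ∧ x = x' := by
  have h1 : n = m := by
    rcases lt_trichotomy n m with k | k | k
    · have := congrFun h n
      simp [cC, k] at this
    · exact k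
    · have := congrFun h m
      simp [cC, k] at this
  subst h1
  exact ⟨rfl, funext fun i => by rw [← cC_add n x, h, cC_add]⟩

lemma te_cC (n : ℕ) (x : ℕ → Bool) : TE x (cC n x) := by
  constructor
  · have h1 : TR (fun i => tn x (i - (n + 1))) (tn x) :=
      TR_of_comp (a := id) (b := fun i => i - (n + 1)) Computable.id
        (Primrec.nat_sub.comp Primrec.id (Primrec.const _)).to_comp (fun _ => rfl)
    refine (TR_of_eventually (m := n + 1) fun i hi => ?_).trans h1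
    unfold tn cC
    rw [if_neg (by omega), if_neg (by omega)]
  · refine TR_of_comp (a := id) (b := fun i => i + (n + 1)) Computable.id
        (Primrec.nat_add.comp Primrec.id (Primrec.const _)).to_comp (fun i => ?_)
    unfold tn
    simp only [id]
    rw [cC_add]

lemma measurable_glue (u : List ℕ) : Measurable (glue u) := by
  rw [measurable_pi_iff]
  intro m
  refine measurable_of_local (m + 1) fun v v' k => ?_
  by_cases hm : m < u.length
  · exact res_eq_res.1 ((res_glue u v').trans (res_glue u v).symm) hm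
  · rw [glue_ge _ _ _ (by omega), glue_ge _ _ _ (by omega)]
    exact res_eq_res.1 k (Nat.lt_succ_self m)

def EE (u : List ℕ) : Set (ℕ → Bool) := {x | stL u = st (pur x) u.length}

lemma measurableSet_EE (u : List ℕ) : MeasurableSet (EE u) := by
  have h : Measurable (fun w : ℕ → ℕ => encode (st w u.length)) :=
    measurable_of_local u.length fun v v' k => by unfold st; rw [k]
  have := (h.comp measurable_pur) (measurableSet_singleton (encode (stL u)))
  convert this using 1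
  ext x
  simp only [EE, mem_ofPred_eq, mem_preimage, comp_apply, mem_singleton_iff, encode_inj]
  exact eq_comm

lemma tailEq_glue {u : List ℕ} {x : ℕ → Bool} (h : x ∈ EE u) : TailEq (glue u (pur x)) (pur x) :=
  ⟨u.length, by unfold st; rw [res_glue]; exact h, fun n hn => glue_ge _ _ _ hn⟩

lemma injOn_glue (u : List ℕ) : InjOn (fun x => glue u (pur x)) (EE u) := by
  intro x hx y hy h
  have h1 := tailEq_glue hy
  simp only at h
  rw [← h] at h1
  exact ((tailEq_glue hx).symm.trans h1).pur_eq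

lemma exists_glue {w : ℕ → ℕ} {x : ℕ → Bool} (h : TailEq w (pur x)) :
    ∃ u, x ∈ EE u ∧ glue u (pur x) = w := by
  obtain ⟨m, h1, h2⟩ := h
  refine ⟨res w m, by unfold EE; rw [mem_ofPred_eq, res_length]; exact h1, ?_⟩
  refine ext_res (m := m) ?_ fun n hn => ?_
  · have := res_glue (res w m) (pur x)
    rwa [res_length] at this
  · rw [glue_ge _ _ _ (by simpa using hn), h2 n hn]

def JJ : Set (ℕ → ℕ) := {w | ¬ ∃ x, TailEq w (pur x)}

lemma measurableSet_JJ : MeasurableSet JJ := by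
  have : JJ = (⋃ u, (fun x => glue u (pur x)) '' EE u)ᶜ := by
    ext w
    simp only [JJ, mem_ofPred_eq, mem_compl_iff, mem_iUnion]
    refine not_congr ⟨?_, ?_⟩
    · rintro ⟨x, hx⟩
      obtain ⟨u, h1, h2⟩ := exists_glue hx
      exact ⟨u, x, h1, h2⟩
    · rintro ⟨u, x, h1, rfl⟩
      exact ⟨x, tailEq_glue h1⟩
  rw [this]
  exact (MeasurableSet.iUnion fun u => (measurableSet_EE u).image_of_measurable_injOn
    ((measurable_glue u).comp measurable_pur) (injOn_glue u)).compl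

section

variable (g : ℕ → (ℕ → ℕ) → ℕ → Bool)

def HH : Set (ℕ → Bool) := {x | ∃ n, ∃ v ∈ JJ, TE x (g n v)}

def DH (n e d : ℕ) : Set (ℕ → ℕ) :=
  {v | v ∈ JJ ∧ R1 e (g n v) (Psi e (g n v)) ∧ R1 d (Psi e (g n v)) (g n v)}

def RR (x : ℕ → Bool) (w : ℕ → ℕ) : Prop :=
  (x ∉ HH g ∧ ∃ y, TE x y ∧ TailEq w (pur y)) ∨ (∃ v ∈ JJ, TE x (g 0 v) ∧ TailEq w v) ∨
    ∃ n, ∃ v ∈ JJ, TE x (g (n + 1) v) ∧ ∃ y, TE y (g n v) ∧ TailEq w (pur y)

variable {g}

lemma DH_te {n e d : ℕ} {v : ℕ → ℕ} (h : v ∈ DH g n e d) : TE (Psi e (g n v)) (g n v) :=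
  ⟨tr_of_phi h.2.2, tr_of_phi h.2.1⟩

lemma exists_DH {n : ℕ} {v : ℕ → ℕ} {x : ℕ → Bool} (hv : v ∈ JJ) (h : TE x (g n v)) :
    ∃ e d, v ∈ DH g n e d ∧ Psi e (g n v) = x := by
  obtain ⟨e, he⟩ := exists_R1 h.2
  obtain ⟨d, hd⟩ := exists_R1 h.1
  refine ⟨e, d, ⟨hv, ?_, ?_⟩, he.psi⟩
  · rw [he.psi]; exact he
  · rw [he.psi]; exact hd

lemma measurableSet_DH (hm : ∀ N, Measurable (g N)) (n e d : ℕ) : MeasurableSet (DH g n e d) :=
  measurableSet_JJ.inter ((measurableSet_R1 e (hm n) ((measurable_Psi e).comp (hm n))).inter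
    (measurableSet_R1 d ((measurable_Psi e).comp (hm n)) (hm n)))

lemma injOn_DH (hi : ∀ N, Injective (g N)) (n e d : ℕ) :
    InjOn (fun v => Psi e (g n v)) (DH g n e d) := by
  intro v hv v' hv' h
  simp only at h
  have h1 := hv.2.2
  rw [h] at h1
  exact hi n (phi_unique h1 hv'.2.2)

lemma measurableSet_HH (hm : ∀ N, Measurable (g N)) (hi : ∀ N, Injective (g N)) :
    MeasurableSet (HH g) := by
  have : HH g = ⋃ n, ⋃ e, ⋃ d, (fun v => Psi e (g n v)) '' DH g n e d := by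
    ext x
    simp only [HH, mem_ofPred_eq, mem_iUnion]
    constructor
    · rintro ⟨n, v, hv, h⟩
      obtain ⟨e, d, h1, h2⟩ := exists_DH hv h
      exact ⟨n, e, d, v, h1, h2⟩
    · rintro ⟨n, e, d, v, h1, rfl⟩
      exact ⟨n, v, h1.1, DH_te h1⟩
  rw [this]
  exact MeasurableSet.iUnion fun n => MeasurableSet.iUnion fun e => MeasurableSet.iUnion fun d =>
    (measurableSet_DH hm n e d).image_of_measurable_injOn ((measurable_Psi e).comp (hm n))
      (injOn_DH hi n e d)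

lemma HH_te {x x' : ℕ → Bool} (h : TE x x') (hx : x' ∈ HH g) : x ∈ HH g := by
  obtain ⟨n, v, hv, h1⟩ := hx
  exact ⟨n, v, hv, h.trans h1⟩

lemma RR.left {x x' : ℕ → Bool} {w : ℕ → ℕ} (h : RR g x w) (h' : TE x x') : RR g x' w := by
  rcases h with ⟨h1, y, h2, h3⟩ | ⟨v, hv, h2, h3⟩ | ⟨n, v, hv, h2, h3⟩
  · exact Or.inl ⟨fun k => h1 (HH_te h' k), y, h'.symm.trans h2, h3⟩
  · exact Or.inr (Or.inl ⟨v, hv, h'.symm.trans h2, h3⟩)
  · exact Or.inr (Or.inr ⟨n, v, hv, h'.symm.trans h2, h3⟩)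

lemma RR.right {x : ℕ → Bool} {w w' : ℕ → ℕ} (h : RR g x w) (h' : FF w w') : RR g x w' := by
  rcases h' with h' | ⟨a, b, k1, k2, k3⟩
  · rcases h with ⟨h1, y, h2, h3⟩ | ⟨v, hv, h2, h3⟩ | ⟨n, v, hv, h2, y, h3, h4⟩
    · exact Or.inl ⟨h1, y, h2, h'.symm.trans h3⟩
    · exact Or.inr (Or.inl ⟨v, hv, h2, h'.symm.trans h3⟩)
    · exact Or.inr (Or.inr ⟨n, v, hv, h2, y, h3, h'.symm.trans h4⟩)
  · rcases h with ⟨h1, y, h2, h3⟩ | ⟨v, hv, h2, h3⟩ | ⟨n, v, hv, h2, y, h3, h4⟩
    · obtain rfl := (h3.symm.trans k2).pur_eq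
      exact Or.inl ⟨h1, b, h2.trans k1, k3⟩
    · exact absurd ⟨a, h3.symm.trans k2⟩ hv
    · obtain rfl := (h4.symm.trans k2).pur_eq
      exact Or.inr (Or.inr ⟨n, v, hv, h2, b, k1.symm.trans h3, k3⟩)

lemma RR.ff (h3 : ∀ N v v', TailEq v v' → TE (g N v) (g N v'))
    (h4 : ∀ N N' v v', TE (g N v) (g N' v') → N = N' ∧ TailEq v v')
    {x : ℕ → Bool} {w w' : ℕ → ℕ} (h : RR g x w) (h' : RR g x w') : FF w w' := by
  rcases h with ⟨a1, y, a2, a3⟩ | ⟨v, hv, a2, a3⟩ | ⟨n, v, hv, a2, y, a3, a4⟩ <;>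
    rcases h' with ⟨b1, y', b2, b3⟩ | ⟨v', hv', b2, b3⟩ | ⟨n', v', hv', b2, y', b3, b4⟩
  · exact Or.inr ⟨y, y', a2.symm.trans b2, a3, b3⟩
  · exact absurd ⟨_, v', hv', b2⟩ a1
  · exact absurd ⟨_, v', hv', b2⟩ a1
  · exact absurd ⟨_, v, hv, a2⟩ b1
  · exact Or.inl ((a3.trans (h4 _ _ _ _ (a2.symm.trans b2)).2).trans b3.symm)
  · exact absurd (h4 _ _ _ _ (a2.symm.trans b2)).1 (by omega)
  · exact absurd ⟨_, v, hv, a2⟩ b1
  · exact absurd (h4 _ _ _ _ (a2.symm.trans b2)).1 (by omega)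
  · obtain ⟨k1, k2⟩ := h4 _ _ _ _ (a2.symm.trans b2)
    obtain rfl : n = n' := by omega
    exact Or.inr ⟨y, y', (a3.trans (h3 _ _ _ k2)).trans b3.symm, a4, b4⟩

lemma RR.te (h3 : ∀ N v v', TailEq v v' → TE (g N v) (g N v'))
    (h4 : ∀ N N' v v', TE (g N v) (g N' v') → N = N' ∧ TailEq v v')
    {x x' : ℕ → Bool} {w : ℕ → ℕ} (h : RR g x w) (h' : RR g x' w) : TE x x' := by
  rcases h with ⟨a1, y, a2, a3⟩ | ⟨v, hv, a2, a3⟩ | ⟨n, v, hv, a2, y, a3, a4⟩ <;>
    rcases h' with ⟨b1, y', b2, b3⟩ | ⟨v', hv', b2, b3⟩ | ⟨n', v', hv', b2, y', b3, b4⟩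
  · obtain rfl := (a3.symm.trans b3).pur_eq
    exact a2.trans b2.symm
  · exact absurd ⟨y, b3.symm.trans a3⟩ hv'
  · obtain rfl := (a3.symm.trans b4).pur_eq
    exact absurd ⟨_, v', hv', a2.trans b3⟩ a1
  · exact absurd ⟨y', a3.symm.trans b3⟩ hv
  · exact (a2.trans (h3 _ _ _ (a3.symm.trans b3))).trans b2.symm
  · exact absurd ⟨y', a3.symm.trans b4⟩ hv
  · obtain rfl := (a4.symm.trans b3).pur_eq
    exact absurd ⟨_, v, hv, b2.trans a3⟩ b1
  · exact absurd ⟨y, b3.symm.trans a4⟩ hv'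
  · obtain rfl := (a4.symm.trans b4).pur_eq
    obtain ⟨rfl, k2⟩ := h4 _ _ _ _ (a3.symm.trans b3)
    exact (a2.trans (h3 _ _ _ k2)).trans b2.symm

lemma exists_inj_left (hm : ∀ N, Measurable (g N)) (hi : ∀ N, Injective (g N)) :
    ∃ i : (ℕ → Bool) → ℕ → ℕ, Measurable i ∧ Injective i ∧ ∀ x, RR g x (i x) := by
  refine inj_of_pieces (ι := Option (ℕ × ℕ × ℕ)) (RR g)
    (fun o => o.elim (HH g)ᶜ fun p => (fun v => Psi p.2.1 (g p.1 v)) '' DH g p.1 p.2.1 p.2.2)
    ?_ ?_ cW measurable_cW cW_inj (fun n x y h => h.right (Or.inl (tailEq_cW n y)))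
  · rintro (_ | ⟨n, e, d⟩)
    · exact ⟨(measurableSet_HH hm hi).compl, pur, measurable_pur, pur_inj.injOn,
        fun x hx => Or.inl ⟨hx, x, TE.refl x, TailEq.refl _⟩⟩
    · cases n with
      | zero =>
        exact piece_of_param (RR g) (b := id) (measurableSet_DH hm 0 e d)
          ((measurable_Psi e).comp (hm 0)) measurable_id (injOn_DH hi 0 e d) (injOn_id _)
          fun v hv => Or.inr (Or.inl ⟨v, hv.1, DH_te hv, TailEq.refl _⟩)
      | succ n =>
        exact piece_of_param (RR g) (b := fun v => pur (g n v)) (measurableSet_DH hm (n + 1) e d)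
          ((measurable_Psi e).comp (hm (n + 1))) (measurable_pur.comp (hm n))
          (injOn_DH hi (n + 1) e d) (pur_inj.comp (hi n)).injOn
          fun v hv => Or.inr (Or.inr ⟨n, v, hv.1, DH_te hv, g n v, TE.refl _, TailEq.refl _⟩)
  · intro x
    by_cases hx : x ∈ HH g
    · obtain ⟨n, v, hv, h⟩ := hx
      obtain ⟨e, d, h1, h2⟩ := exists_DH hv h
      exact ⟨some (n, e, d), v, h1, h2⟩
    · exact ⟨none, hx⟩

lemma exists_inj_right (hm : ∀ N, Measurable (g N)) (hi : ∀ N, Injective (g N)) :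
    ∃ j : (ℕ → ℕ) → ℕ → Bool, Measurable j ∧ Injective j ∧ ∀ w, RR g (j w) w := by
  refine inj_of_pieces (ι := Option (List ℕ × Option (ℕ × ℕ × ℕ))) (fun w x => RR g x w)
    (fun o => o.elim JJ fun q => q.2.elim ((fun x => glue q.1 (pur x)) '' (EE q.1 ∩ (HH g)ᶜ))
      fun p => (fun v => glue q.1 (pur (Psi p.2.1 (g p.1 v)))) ''
        (DH g p.1 p.2.1 p.2.2 ∩ (fun v => Psi p.2.1 (g p.1 v)) ⁻¹' EE q.1))
    ?_ ?_ cC measurable_cC cC_inj (fun n w x h => h.left (te_cC n x))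
  · rintro (_ | ⟨u, _ | ⟨n, e, d⟩⟩)
    · exact ⟨measurableSet_JJ, g 0, hm 0, (hi 0).injOn,
        fun w hw => Or.inr (Or.inl ⟨w, hw, TE.refl _, TailEq.refl _⟩)⟩
    · exact piece_of_param (fun w x => RR g x w) (b := id)
        ((measurableSet_EE u).inter (measurableSet_HH hm hi).compl)
        ((measurable_glue u).comp measurable_pur) measurable_id
        ((injOn_glue u).mono inter_subset_left) (injOn_id _)
        fun x hx => Or.inl ⟨hx.2, x, TE.refl x, tailEq_glue hx.1⟩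
    · refine piece_of_param (fun w x => RR g x w) (b := g (n + 1))
        ((measurableSet_DH hm n e d).inter
          (((measurable_Psi e).comp (hm n)) (measurableSet_EE u)))
        ((measurable_glue u).comp (measurable_pur.comp ((measurable_Psi e).comp (hm n))))
        (hm (n + 1)) ?_ (hi (n + 1)).injOn
        fun v hv => Or.inr (Or.inr ⟨n, v, hv.1.1, TE.refl _, _, DH_te hv.1, tailEq_glue hv.2⟩)
      intro v hv v' hv' h
      exact injOn_DH hi n e d hv.1 hv'.1 (injOn_glue u hv.2 hv'.2 h)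
  · intro w
    by_cases hw : w ∈ JJ
    · exact ⟨none, hw⟩
    · obtain ⟨y, hy⟩ : ∃ y, TailEq w (pur y) := by
        by_contra h; exact hw h
      obtain ⟨u, h1, h2⟩ := exists_glue hy
      by_cases hx : y ∈ HH g
      · obtain ⟨n, v, hv, h⟩ := hx
        obtain ⟨e, d, k1, k2⟩ := exists_DH hv h
        refine ⟨some (u, some (n, e, d)), v, ⟨k1, ?_⟩, ?_⟩
        · simp only [mem_preimage]; rw [k2]; exact h1
        · simp only; rw [k2]; exact h2
      · exact ⟨some (u, none), y, ⟨h1, hx⟩, h2⟩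

end

theorem exists_iso : ∃ Φ : (ℕ → Bool) ≃ᵐ (ℕ → ℕ), (∀ x y, TE x y ↔ FF (Φ x) (Φ y)) ∧
    ∃ z : ℕ → Bool, ∀ x, TR (tn z) (tn x) → ∃ y, TE x y ∧ TailEq (Φ x) (pur y) := by
  obtain ⟨hh, h1, h2, h3, h4⟩ := exists_hh
  let g : ℕ → (ℕ → ℕ) → ℕ → Bool := fun n => hh (n + 1)
  have g3 : ∀ N v v', TailEq v v' → TE (g N v) (g N v') := fun N => h3 (N + 1)
  have g4 : ∀ N N' v v', TE (g N v) (g N' v') → N = N' ∧ TailEq v v' := by
    intro N N' v v' h
    obtain ⟨k1, k2⟩ := h4 _ _ _ _ h.1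
    exact ⟨by omega, k2⟩
  obtain ⟨i, i1, i2, i3⟩ := exists_inj_left (g := g) (fun N => h1 _) (fun N => h2 _)
  obtain ⟨j, j1, j2, j3⟩ := exists_inj_right (g := g) (fun N => h1 _) (fun N => h2 _)
  obtain ⟨Φ, hΦ⟩ := sb_rel (RR g) i1 j1 i2 j2 i3 j3
  refine ⟨Φ, fun x y => ⟨fun h => ((hΦ x).left h).ff g3 g4 (hΦ y),
    fun h => ((hΦ x).right h).te g3 g4 (hΦ y)⟩, hh 0 (fun _ => 0), fun x hx => ?_⟩
  have hH : x ∉ HH g := by
    rintro ⟨n, v, -, h⟩
    exact absurd (h4 _ _ _ _ (hx.trans h.2)).1 (by omega)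
  rcases hΦ x with ⟨-, h⟩ | ⟨v, hv, a2, -⟩ | ⟨n, v, hv, a2, -⟩
  · exact h
  · exact absurd ⟨_, v, hv, a2⟩ hH
  · exact absurd ⟨_, v, hv, a2⟩ hH

lemma tr_pur_jj (y : ℕ → Bool) : TR (pur y) (jj y) :=
  TR_of_comp (a := fun n => 2 * n) (b := id)
    (Primrec.nat_mul.comp (Primrec.const 2) Primrec.id).to_comp Computable.id (fun _ => rfl)

lemma tr_jj_pur (y : ℕ → Bool) : TR (jj y) (pur y) :=
  TR_of_comp (a := fun n => n / 2) (b := id)
    (Primrec.nat_div.comp Primrec.id (Primrec.const 2)).to_comp Computable.id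
    (fun n => by unfold pur; simp)

end Pool.Agent.H619Z.TJ
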