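import Mathlib

set_option autoImplicit false

namespace Pool.Agent.H619Z.ZSet

open Set Filter Topology

abbrev I : Type := Set.Icc (0 : ℝ) 1

abbrev X : Type := {f : C(I, I) // Function.Surjective ⇑f}

def Tr : Set X := {h : X | ∀ U V : Set I, IsOpen U → IsOpen V → U.Nonempty → V.Nonempty →
  ∃ n : ℕ, 0 < n ∧ ((⇑h.1)^[n] '' U ∩ V).Nonempty}

theorem not_mem_closure (h : X) (U V : Set I) (hU : IsOpen U) (hV : IsOpen V) (hUn : U.Nonempty)
    (hVn : V.Nonempty) (hd : Disjoint U V) (r : ℝ) (hr : 0 < r)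
    (ht : ∀ x ∈ U, ∀ y, dist y (h.1 x) < r → y ∈ U) : h ∉ closure Tr := by
  intro hc
  obtain ⟨g, hg, hgd⟩ := Metric.mem_closure_iff.mp hc r hr
  obtain ⟨n, -, z, ⟨x, hx, rfl⟩, hz⟩ := hg U V hU hV hUn hVn
  have hm : MapsTo g.1 U U := by
    intro x hx
    refine ht x hx _ (lt_of_le_of_lt ?_ hgd)
    rw [dist_comm h g]
    exact ContinuousMap.dist_apply_le_dist (f := g.1) (g := h.1) x
  exact Set.disjoint_left.mp hd (hm.iterate n hx) hz

theorem exists_net (k : ℕ) (δ : ℝ) (hδ : 0 < δ) : ∃ F : Finset I,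
    (∀ p ∈ F, ∃ q : ℚ, (p : ℝ) = q + k * √2) ∧ ∀ y : I, ∃ p ∈ F, dist p y < δ := by
  classical
  have h1 : ∀ y : I, ∃ p : I, (∃ q : ℚ, (p : ℝ) = q + k * √2) ∧ dist p y < δ / 2 := by
    intro y
    have hy0 := y.2.1
    have hy1 := y.2.2
    have hlt : max 0 ((y : ℝ) - δ / 2) - k * √2 < min 1 ((y : ℝ) + δ / 2) - k * √2 := by
      have : max 0 ((y : ℝ) - δ / 2) < min 1 ((y : ℝ) + δ / 2) := by
        rw [max_lt_iff, lt_min_iff, lt_min_iff]
        refine ⟨⟨by norm_num, by linarith⟩, by linarith, by linarith⟩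
      linarith
    obtain ⟨q, hq1, hq2⟩ := exists_rat_btwn hlt
    have a1 := le_max_left 0 ((y : ℝ) - δ / 2)
    have a2 := le_max_right 0 ((y : ℝ) - δ / 2)
    have a3 := min_le_left 1 ((y : ℝ) + δ / 2)
    have a4 := min_le_right 1 ((y : ℝ) + δ / 2)
    refine ⟨⟨q + k * √2, by linarith, by linarith⟩, ⟨q, rfl⟩, ?_⟩
    rw [Subtype.dist_eq, Real.dist_eq, abs_lt]
    constructor <;> simp only <;> linarith
  choose P hP1 hP2 using h1
  obtain ⟨t, -, htf, ht⟩ := finite_cover_balls_of_compact (isCompact_univ (X := I))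
    (half_pos hδ)
  refine ⟨htf.toFinset.image P, ?_, fun y => ?_⟩
  · intro p hp
    obtain ⟨y, -, rfl⟩ := Finset.mem_image.mp hp
    exact hP1 y
  · obtain ⟨z, hz, hy⟩ := mem_iUnion₂.mp (ht (mem_univ y))
    refine ⟨P z, Finset.mem_image_of_mem _ (by simpa using hz), ?_⟩
    have := dist_triangle (P z) z y
    have h2 := hP2 z
    rw [Metric.mem_ball, dist_comm] at hy
    linarith

theorem exists_nets (δ : ℕ → ℝ) (hδ : ∀ k, 0 < δ k) : ∃ F : ℕ → Finset I,
    (∀ k l, k ≠ l → ∀ p ∈ F k, p ∉ F l) ∧ ∀ k, ∀ y : I, ∃ p ∈ F k, dist p y < δ k := by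
  choose F h1 h2 using fun k => exists_net k (δ k) (hδ k)
  refine ⟨F, fun k l hkl p hp hp' => ?_, h2⟩
  obtain ⟨q, hq⟩ := h1 k p hp
  obtain ⟨q', hq'⟩ := h1 l p hp'
  have hne : ((k : ℝ) - l) ≠ 0 := sub_ne_zero.mpr (by exact_mod_cast hkl)
  apply irrational_sqrt_two
  refine ⟨(q' - q) / ((k : ℚ) - l), ?_⟩
  push_cast
  field_simp
  linarith

theorem exists_sep (P : Finset I) : ∃ s : ℝ, 0 < s ∧ ∀ p ∈ P, ∀ q ∈ P, p ≠ q → s ≤ dist p q := by
  have h : ∀ᶠ s in 𝓝[>] (0 : ℝ), ∀ p ∈ P, ∀ q ∈ P, p ≠ q → s ≤ dist p q := by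
    rw [eventually_all_finset]
    intro p _
    rw [eventually_all_finset]
    intro q _
    by_cases hpq : p = q
    · simp [hpq]
    · have : 0 < dist p q := dist_pos.mpr hpq
      exact ((eventually_le_nhds this).filter_mono nhdsWithin_le_nhds).mono fun s hs _ => hs
  obtain ⟨s, hs1, hs2⟩ := (h.and self_mem_nhdsWithin).exists
  exact ⟨s, hs2, hs1⟩

theorem exists_far (P : Set I) (ρ : ℝ) (hρ : 0 < ρ) (hρ8 : ρ ≤ 1 / 8)
    (hsep : ∀ p ∈ P, ∀ q ∈ P, p ≠ q → 4 * ρ ≤ dist p q) (x : I) :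
    ∃ y : I, dist y x ≤ 3 * ρ ∧ ∀ p ∈ P, ρ ≤ dist y p := by
  by_cases hx : ∀ p ∈ P, ρ ≤ dist x p
  · exact ⟨x, by simp; positivity, hx⟩
  push Not at hx
  obtain ⟨p, hp, hxp⟩ := hx
  have hp0 := p.2.1
  have hp1 := p.2.2
  have : ∃ y : I, dist y p = 2 * ρ := by
    by_cases h : (p : ℝ) ≤ 1 / 2
    · refine ⟨⟨p + 2 * ρ, by linarith, by linarith⟩, ?_⟩
      rw [Subtype.dist_eq, Real.dist_eq]
      simp only [add_sub_cancel_left]
      exact abs_of_pos (by linarith)
    · push Not at h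
      refine ⟨⟨p - 2 * ρ, by linarith, by linarith⟩, ?_⟩
      rw [Subtype.dist_eq, Real.dist_eq]
      simp only [sub_sub_cancel_left, abs_neg]
      exact abs_of_pos (by linarith)
  obtain ⟨y, hy⟩ := this
  refine ⟨y, ?_, fun q hq => ?_⟩
  · have := dist_triangle y p x
    rw [dist_comm p x] at this
    linarith
  · by_cases hpq : p = q
    · rw [← hpq]; linarith
    · have h1 := hsep p hp q hq hpq
      have := dist_triangle p y q
      rw [dist_comm p y] at this
      linarith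

/-- bump profile. -/
noncomputable def bump (d ρ : ℝ) : ℝ := max 0 (min 1 (2 - 2 * d / ρ))

theorem bump_nonneg (d ρ : ℝ) : 0 ≤ bump d ρ := le_max_left _ _

theorem bump_le_one (d ρ : ℝ) : bump d ρ ≤ 1 := max_le zero_le_one (min_le_left _ _)

theorem bump_zero {d ρ : ℝ} (hρ : 0 < ρ) (h : ρ ≤ d) : bump d ρ = 0 := by
  have : 2 - 2 * d / ρ ≤ 0 := by
    rw [sub_nonpos, le_div_iff₀ hρ]; linarith
  exact max_eq_left ((min_le_right _ _).trans this)

theorem bump_one {d ρ : ℝ} (hρ : 0 < ρ) (h : d ≤ ρ / 2) : bump d ρ = 1 := by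
  have : 1 ≤ 2 - 2 * d / ρ := by
    have : 2 * d / ρ ≤ 1 := by rw [div_le_iff₀ hρ]; linarith
    linarith
  rw [bump, min_eq_left this, max_eq_right zero_le_one]

/-- stretching of the interval. -/
noncomputable def str (η y : ℝ) : ℝ := max 0 (min 1 ((1 + 2 * η) * y - η))

theorem str_nonneg (η y : ℝ) : 0 ≤ str η y := le_max_left _ _

theorem str_le_one (η y : ℝ) : str η y ≤ 1 := max_le zero_le_one (min_le_left _ _)

theorem str_near {η y : ℝ} (hη : 0 ≤ η) (h0 : 0 ≤ y) (h1 : y ≤ 1) : |str η y - y| ≤ η := by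
  have a1 : (1 + 2 * η) * y - η ≤ y + η := by nlinarith
  have a2 : y - η ≤ (1 + 2 * η) * y - η := by nlinarith
  rw [abs_le, str]
  constructor
  · have : y - η ≤ min 1 ((1 + 2 * η) * y - η) := le_min (by linarith) a2
    linarith [le_max_right 0 (min 1 ((1 + 2 * η) * y - η))]
  · have : max 0 (min 1 ((1 + 2 * η) * y - η)) ≤ y + η :=
      max_le (by linarith) ((min_le_right _ _).trans a1)
    linarith

theorem str_zero {η y : ℝ} (hη : 0 ≤ η) (hη' : η ≤ 1 / 2) (h : y ≤ η / 2) : str η y = 0 := by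
  have : (1 + 2 * η) * y - η ≤ 0 := by nlinarith
  exact max_eq_left ((min_le_right _ _).trans this)

theorem str_one {η y : ℝ} (hη : 0 ≤ η) (hη' : η ≤ 1 / 2) (h : 1 - η / 2 ≤ y) : str η y = 1 := by
  have : 1 ≤ (1 + 2 * η) * y - η := by nlinarith
  rw [str, min_eq_left this, max_eq_right zero_le_one]

theorem exists_rho (lam : BumpCovering ℕ X univ) (F : ℕ → Finset I) (η : X → ℝ)
    (hη : Continuous η) (hη0 : ∀ g, 0 < η g) : ∃ ρ : C(X, ℝ), ∀ g, 0 < ρ g ∧ ρ g ≤ 1 / 8 ∧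
      (∀ k l, lam k g ≠ 0 → lam l g ≠ 0 → ∀ p ∈ F k, ∀ q ∈ F l, p ≠ q → 4 * ρ g ≤ dist p q) ∧
      ∀ x y : I, dist x y ≤ 3 * ρ g → dist (g.1 x) (g.1 y) ≤ η g / 2 := by
  classical
  refine exists_continuous_forall_mem_convex_of_local_const (t := fun g : X => {r : ℝ | 0 < r ∧
    r ≤ 1 / 8 ∧
      (∀ k l, lam k g ≠ 0 → lam l g ≠ 0 → ∀ p ∈ F k, ∀ q ∈ F l, p ≠ q → 4 * r ≤ dist p q) ∧
      ∀ x y : I, dist x y ≤ 3 * r → dist (g.1 x) (g.1 y) ≤ η g / 2}) (fun g => ?_) (fun g => ?_)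
  · refine Set.OrdConnected.convex ⟨?_⟩
    rintro a ⟨ha, -⟩ b ⟨-, hb1, hb2, hb3⟩ r ⟨h1, h2⟩
    refine ⟨by linarith, by linarith, fun k l hk hl p hp q hq hpq => ?_, fun x y hxy => ?_⟩
    · linarith [hb2 k l hk hl p hp q hq hpq]
    · exact hb3 x y (by linarith)
  · obtain ⟨t, ht, htf⟩ := lam.locallyFinite g
    obtain ⟨s, hs, hsep⟩ := exists_sep (htf.toFinset.biUnion F)
    have huc : UniformContinuous g.1 := CompactSpace.uniformContinuous_of_continuous g.1.continuous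
    obtain ⟨L, hL, hLd⟩ := Metric.uniformContinuous_iff.mp huc (η g / 16)
      (by linarith [hη0 g])
    have e1 : ∀ᶠ g' in 𝓝 g, η g / 2 < η g' :=
      hη.continuousAt.eventually (lt_mem_nhds (by linarith [hη0 g]))
    have e2 : ∀ᶠ g' in 𝓝 g, dist g' g < η g / 16 :=
      Metric.ball_mem_nhds g (by linarith [hη0 g])
    refine ⟨min (1 / 8) (min (s / 4) (L / 4)), ?_⟩
    filter_upwards [ht, e1, e2] with g' h0 h1 h2
    have m1 := min_le_left (1 / 8 : ℝ) (min (s / 4) (L / 4))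
    have m2 := (min_le_right (1 / 8 : ℝ) (min (s / 4) (L / 4))).trans (min_le_left _ _)
    have m3 := (min_le_right (1 / 8 : ℝ) (min (s / 4) (L / 4))).trans (min_le_right _ _)
    refine ⟨by positivity, m1, fun k l hk hl p hp q hq hpq => ?_, fun x y hxy => ?_⟩
    · have hk' : k ∈ htf.toFinset := by
        simp only [Finite.mem_toFinset, mem_setOf_eq]
        exact ⟨g', hk, h0⟩
      have hl' : l ∈ htf.toFinset := by
        simp only [Finite.mem_toFinset, mem_setOf_eq]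
        exact ⟨g', hl, h0⟩
      have := hsep p (Finset.mem_biUnion.mpr ⟨k, hk', hp⟩) q
        (Finset.mem_biUnion.mpr ⟨l, hl', hq⟩) hpq
      linarith
    · have a1 := hLd (a := x) (b := y) (by linarith)
      have a2 : dist (g'.1 x) (g.1 x) ≤ dist g' g :=
        ContinuousMap.dist_apply_le_dist (f := g'.1) (g := g.1) x
      have a3 : dist (g'.1 y) (g.1 y) ≤ dist g' g :=
        ContinuousMap.dist_apply_le_dist (f := g'.1) (g := g.1) y
      have a4 := dist_triangle4 (g'.1 x) (g.1 x) (g.1 y) (g'.1 y)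
      rw [dist_comm (g.1 y) (g'.1 y)] at a4
      linarith [hη0 g]

theorem exists_cover (ε : X → ℝ) (hε : Continuous ε) (hε0 : ∀ g, 0 < ε g) :
    ∃ (c : ℕ → X) (lam : BumpCovering ℕ X univ), ∀ k g, lam k g ≠ 0 →
      dist g (c k) < ε (c k) / 16 ∧ ε (c k) / 2 < ε g := by
  set W : X → Set X := fun c => {g | dist g c < ε c / 16} ∩ {g | ε c / 2 < ε g} with hW
  have hWo : ∀ c, IsOpen (W c) := fun c =>
    (isOpen_lt (by fun_prop) continuous_const).inter (isOpen_lt continuous_const hε)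
  have hWm : ∀ c, c ∈ W c := fun c => ⟨by simpa using hε0 c, by
    simp only [mem_setOf_eq]; linarith [hε0 c]⟩
  obtain ⟨s, hsc, hs⟩ := TopologicalSpace.countable_cover_nhds (f := W)
    fun c => (hWo c).mem_nhds (hWm c)
  have hne : s.Nonempty := by
    have : (⟨ContinuousMap.id I, Function.surjective_id⟩ : X) ∈ ⋃ x ∈ s, W x := by
      rw [hs]; trivial
    obtain ⟨c, hc, -⟩ := mem_iUnion₂.mp this
    exact ⟨c, hc⟩
  obtain ⟨c, hc⟩ := hsc.exists_eq_range hne
  obtain ⟨lam, hlam⟩ := BumpCovering.exists_isSubordinate isClosed_univ (fun k => W (c k))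
    (fun k => hWo _) (by
      intro g _
      have : g ∈ ⋃ x ∈ s, W x := by rw [hs]; trivial
      obtain ⟨x, hx, hg⟩ := mem_iUnion₂.mp this
      rw [hc] at hx
      obtain ⟨k, rfl⟩ := hx
      exact mem_iUnion.mpr ⟨k, hg⟩)
  exact ⟨c, lam, fun k g hg => hlam k (subset_tsupport _ hg)⟩

theorem main (ε : X → ℝ) (hε : Continuous ε) (hε0 : ∀ g, 0 < ε g) :
    ∃ φ : X → X, Continuous φ ∧ ∀ g, dist (φ g) g < ε g ∧ φ g ∉ closure Tr := by
  classical
  obtain ⟨c, lam, hlam⟩ := exists_cover ε hε hε0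
  obtain ⟨F, hFd, hFn⟩ := exists_nets (fun k => ε (c k) / 16) fun k => by linarith [hε0 (c k)]
  choose τ hτF hτd using fun (k : ℕ) (p : I) => hFn k ((c k).1 p)
  set η : X → ℝ := fun g => min (ε g / 8) (1 / 2) with hηdef
  have hηc : Continuous η := by fun_prop
  have hη0 : ∀ g, 0 < η g := fun g => lt_min (by linarith [hε0 g]) (by norm_num)
  have hη1 : ∀ g, η g ≤ 1 / 2 := fun g => min_le_right _ _
  have hη2 : ∀ g, η g ≤ ε g / 8 := fun g => min_le_left _ _
  obtain ⟨ρ, hρ⟩ := exists_rho lam F η hηc hη0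
  set G : X × I → ℝ := fun z => str (η z.1) (z.1.1 z.2) with hG
  have hev : Continuous fun z : X × I => (z.1.1 z.2 : ℝ) := by
    have : Continuous fun z : X × I => z.1.1 z.2 :=
      continuous_eval.comp (continuous_subtype_val.prodMap continuous_id)
    exact continuous_subtype_val.comp this
  have hGc : Continuous G := by
    simp only [hG, str]
    fun_prop
  set T : ℕ → X × I → ℝ := fun k z =>
    lam k z.1 * ∑ p ∈ F k, bump (dist z.2 p) (ρ z.1) * ((τ k p : ℝ) - G z) with hT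
  have hTc : ∀ k, Continuous (T k) := by
    intro k
    refine Continuous.mul (by fun_prop) (continuous_finset_sum _ fun p _ => ?_)
    refine Continuous.mul ?_ (by fun_prop)
    simp only [bump]
    refine continuous_const.max (continuous_const.min (continuous_const.sub ?_))
    exact Continuous.div (by fun_prop) (by fun_prop) fun z => (hρ z.1).1.ne'
  have hTl : LocallyFinite fun k => Function.support (T k) := by
    refine (lam.locallyFinite.preimage_continuous (continuous_fst (X := X) (Y := I))).subset ?_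
    intro k z hz
    exact left_ne_zero_of_mul hz
  set Φ : X × I → ℝ := fun z => G z + ∑ᶠ k, T k z with hΦ
  have hΦc : Continuous Φ := hGc.add (continuous_finsum hTc hTl)
  have caseA : ∀ (g : X) (x : I), (∀ k, lam k g ≠ 0 → ∀ p ∈ F k, ρ g ≤ dist x p) →
      Φ (g, x) = G (g, x) := by
    intro g x h
    have : ∀ k, T k (g, x) = 0 := by
      intro k
      by_cases hk : lam k g = 0
      · simp [hT, hk]
      · simp only [hT]
        rw [Finset.sum_eq_zero, mul_zero]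
        intro p hp
        rw [bump_zero (hρ g).1 (h k hk p hp), zero_mul]
    simp [hΦ, this]
  have caseB : ∀ (g : X) (x : I) (k : ℕ) (p : I), lam k g ≠ 0 → p ∈ F k → dist x p < ρ g →
      Φ (g, x) = G (g, x) + lam k g * bump (dist x p) (ρ g) * ((τ k p : ℝ) - G (g, x)) := by
    intro g x k p hk hp hx
    have far : ∀ l, lam l g ≠ 0 → ∀ q ∈ F l, q ≠ p → bump (dist x q) (ρ g) = 0 := by
      intro l hl q hq hqp
      refine bump_zero (hρ g).1 ?_
      have h1 := (hρ g).2.2.1 l k hl hk q hq p hp hqp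
      have h2 := dist_triangle q x p
      rw [dist_comm q x] at h2
      linarith [(hρ g).1]
    simp only [hΦ]
    rw [finsum_eq_single _ k]
    · simp only [hT]
      rw [Finset.sum_eq_single p, mul_assoc]
      · intro q hq hqp
        rw [far k hk q hq hqp, zero_mul]
      · intro h
        exact absurd hp h
    · intro l hl
      by_cases hl0 : lam l g = 0
      · simp [hT, hl0]
      · simp only [hT]
        rw [Finset.sum_eq_zero, mul_zero]
        intro q hq
        rw [far l hl0 q hq (fun e => hFd l k hl q hq (e ▸ hp)), zero_mul]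
  have hboth : ∀ (g : X) (x : I), Φ (g, x) ∈ Icc (0 : ℝ) 1 ∧
      |Φ (g, x) - g.1 x| ≤ 5 * ε g / 8 := by
    intro g x
    have g0 : 0 ≤ G (g, x) := str_nonneg _ _
    have g1 : G (g, x) ≤ 1 := str_le_one _ _
    have g2 : |G (g, x) - g.1 x| ≤ η g := str_near (hη0 g).le (g.1 x).2.1 (g.1 x).2.2
    by_cases h : ∀ k, lam k g ≠ 0 → ∀ p ∈ F k, ρ g ≤ dist x p
    · rw [caseA g x h]
      exact ⟨⟨g0, g1⟩, by linarith [hη2 g, hε0 g]⟩
    · push Not at h
      obtain ⟨k, hk, p, hp, hx⟩ := h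
      rw [caseB g x k p hk hp hx]
      set w := lam k g * bump (dist x p) (ρ g) with hw
      have w0 : 0 ≤ w := mul_nonneg (lam.nonneg k g) (bump_nonneg _ _)
      have w1 : w ≤ 1 := mul_le_one₀ (lam.le_one k g) (bump_nonneg _ _) (bump_le_one _ _)
      have t0 := (τ k p).2.1
      have t1 := (τ k p).2.2
      refine ⟨⟨by nlinarith, by nlinarith⟩, ?_⟩
      have d1 := hτd k p
      obtain ⟨d2, d3⟩ := hlam k g hk
      have d4 : dist (g.1 p) ((c k).1 p) ≤ dist g (c k) :=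
        ContinuousMap.dist_apply_le_dist (f := g.1) (g := (c k).1) p
      have d5 := (hρ g).2.2.2 x p (by linarith [(hρ g).1])
      have d6 := dist_triangle4 (τ k p) ((c k).1 p) (g.1 p) (g.1 x)
      rw [dist_comm ((c k).1 p) (g.1 p), dist_comm (g.1 p) (g.1 x)] at d6
      have d7 : |(τ k p : ℝ) - g.1 x| ≤ 5 * ε g / 16 := by
        have : dist (τ k p) (g.1 x) = |(τ k p : ℝ) - g.1 x| := by
          rw [Subtype.dist_eq, Real.dist_eq]
        linarith [hη2 g]
      have d8 := hη2 g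
      have d9 := hε0 g
      rw [abs_le] at d7 g2 ⊢
      constructor <;> nlinarith [d7.1, d7.2, g2.1, g2.2]
  let ψ : X → C(I, I) := fun g => ⟨fun x => ⟨Φ (g, x), (hboth g x).1⟩,
    (hΦc.comp (Continuous.prodMk_right g)).subtype_mk _⟩
  have hfar : ∀ (g : X) (x : I), ∃ y : I, dist y x ≤ 3 * ρ g ∧
      ∀ k, lam k g ≠ 0 → ∀ p ∈ F k, ρ g ≤ dist y p := by
    intro g x
    obtain ⟨y, hy1, hy2⟩ := exists_far {p | ∃ k, lam k g ≠ 0 ∧ p ∈ F k} (ρ g) (hρ g).1 (hρ g).2.1
      (by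
        rintro p ⟨k, hk, hp⟩ q ⟨l, hl, hq⟩ hpq
        exact (hρ g).2.2.1 k l hk hl p hp q hq hpq) x
    exact ⟨y, hy1, fun k hk p hp => hy2 p ⟨k, hk, hp⟩⟩
  have hsurj : ∀ g, Function.Surjective (ψ g) := by
    intro g
    obtain ⟨x0, hx0⟩ := g.2 ⟨0, le_rfl, zero_le_one⟩
    obtain ⟨x1, hx1⟩ := g.2 ⟨1, zero_le_one, le_rfl⟩
    obtain ⟨y0, hy0, hy0'⟩ := hfar g x0
    obtain ⟨y1, hy1, hy1'⟩ := hfar g x1
    have a0 : Φ (g, y0) = 0 := by
      rw [caseA g y0 hy0']
      refine str_zero (hη0 g).le (hη1 g) ?_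
      have := (hρ g).2.2.2 y0 x0 hy0
      rw [hx0, Subtype.dist_eq, Real.dist_eq] at this
      simp only [sub_zero] at this
      exact (le_abs_self _).trans this
    have a1 : Φ (g, y1) = 1 := by
      rw [caseA g y1 hy1']
      refine str_one (hη0 g).le (hη1 g) ?_
      have := (hρ g).2.2.2 y1 x1 hy1
      rw [hx1, Subtype.dist_eq, Real.dist_eq] at this
      simp only at this
      linarith [(abs_le.mp this).1]
    intro z
    have hc : Continuous fun x : I => Φ (g, x) := hΦc.comp (Continuous.prodMk_right g)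
    have := intermediate_value_univ y0 y1 hc
    rw [a0, a1] at this
    obtain ⟨x, hx⟩ := this z.2
    exact ⟨x, Subtype.ext hx⟩
  refine ⟨fun g => ⟨ψ g, hsurj g⟩, ?_, fun g => ⟨?_, ?_⟩⟩
  · refine Continuous.subtype_mk ?_ _
    refine ContinuousMap.continuous_of_continuous_uncurry _ ?_
    exact hΦc.subtype_mk fun z => (hboth z.1 z.2).1
  · have : dist (ψ g) g.1 ≤ 5 * ε g / 8 := by
      rw [ContinuousMap.dist_le (by linarith [hε0 g])]
      intro x
      rw [Subtype.dist_eq, Real.dist_eq]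
      exact (hboth g x).2
    have e : dist (⟨ψ g, hsurj g⟩ : X) g = dist (ψ g) g.1 := rfl
    rw [e]
    linarith [hε0 g]
  · obtain ⟨k, hk⟩ := lam.eventuallyEq_one' g (mem_univ g)
    have hk1 : lam k g = 1 := hk.eq_of_nhds
    have hk0 : lam k g ≠ 0 := by rw [hk1]; exact one_ne_zero
    obtain ⟨y, -, hy⟩ := hfar g ⟨0, le_rfl, zero_le_one⟩
    have hρ0 := (hρ g).1
    refine not_mem_closure _ (⋃ p ∈ F k, Metric.ball p (ρ g / 2)) (Metric.ball y (ρ g / 2))
      (isOpen_biUnion fun p _ => Metric.isOpen_ball) Metric.isOpen_ball ?_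
      ⟨y, Metric.mem_ball_self (by linarith)⟩ ?_ (ρ g / 2) (by linarith) ?_
    · exact ⟨τ k y, mem_iUnion₂.mpr ⟨τ k y, hτF k y, Metric.mem_ball_self (by linarith)⟩⟩
    · rw [Set.disjoint_left]
      intro x hx hxy
      obtain ⟨p, hp, hxp⟩ := mem_iUnion₂.mp hx
      rw [Metric.mem_ball] at hxp hxy
      have h1 := hy k hk0 p hp
      have h2 := dist_triangle y x p
      rw [dist_comm y x] at h2
      linarith
    · intro x hx z hz
      obtain ⟨p, hp, hxp⟩ := mem_iUnion₂.mp hx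
      rw [Metric.mem_ball] at hxp
      have h1 := caseB g x k p hk0 hp (by linarith)
      rw [hk1, bump_one hρ0 hxp.le] at h1
      have h2 : ψ g x = τ k p := Subtype.ext (by
        change Φ (g, x) = _
        rw [h1]; ring)
      refine mem_iUnion₂.mpr ⟨τ k p, hτF k p, ?_⟩
      rw [Metric.mem_ball, ← h2]
      exact hz

end Pool.Agent.H619Z.ZSet
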